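import Pool.Agent.ArcGrid.AugFin
import Pool.Agent.Helper88.MD.Div

/-!
# The augmentation lemma, asymptotic form
-/

set_option autoImplicit false

namespace Pool.Agent.ArcGrid

open Finset

lemma x_bound (K L : ℕ) (η C0 : ℝ) (hη : 0 < η) (hC0 : 0 ≤ C0) :
    ∃ A : ℝ, 0 < A ∧ ∀ (p M D x : ℕ) (t : ℝ), 1 ≤ p → 1 ≤ t → η * p / 6 ≤ M → (D : ℝ) ≤ C0 * t →
      M ^ 2 * x ≤ M * (4 * (4 * K + 2) ^ 3 * (p - 1) +
        (2 * (4 * (2 * K + 1) * (6 * K + 1) * D ^ 2 + (2 * K + 1) * (4 * K + 1) ^ 2) +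
          2 * (4 * K + 2) ^ 2) * (2 * ((2 * L + 1) ^ 2 * ((2 * K * p + 1) * (2 * K + 1))))) +
        2 * (2 * L + 1) ^ 2 *
        (2 * (4 * (2 * K + 1) * (6 * K + 1) * D ^ 2 + (2 * K + 1) * (4 * K + 1) ^ 2) +
          2 * (4 * K + 2) ^ 2) ^ 2 * (2 * K * p + 1) ^ 2 → (x : ℝ) ≤ A * t ^ 4 := by
  set a : ℝ := 2 * (4 * (2 * K + 1) * (6 * K + 1)) with ha
  set b : ℝ := 2 * ((2 * K + 1) * (4 * K + 1) ^ 2) + 2 * (4 * K + 2) ^ 2 with hb
  set N0 : ℝ := a * C0 ^ 2 + b with hN0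
  set g0 : ℝ := 2 * ((2 * L + 1) ^ 2 * ((2 * K + 1) * (2 * K + 1))) with hg0
  set j0 : ℝ := 4 * (4 * K + 2) ^ 3 with hj0
  set c0 : ℝ := 2 * (2 * L + 1) ^ 2 * (2 * K + 1) ^ 2 with hc0
  have ha0 : 0 < a := by positivity
  have hb0 : 0 < b := by positivity
  have hN00 : 0 < N0 := by positivity
  have hg00 : 0 < g0 := by positivity
  have hj00 : 0 < j0 := by positivity
  have hc00 : 0 < c0 := by positivity
  refine ⟨6 / η * (j0 + N0 * g0) + 36 / η ^ 2 * (c0 * N0 ^ 2), by positivity, ?_⟩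
  intro p M D x t hp ht hM hD h
  have hp0 : (1 : ℝ) ≤ p := by exact_mod_cast hp
  have hM0 : (0 : ℝ) < M := lt_of_lt_of_le (by positivity) hM
  have ht2 : (1 : ℝ) ≤ t ^ 2 := one_le_pow₀ ht
  have ht4 : (1 : ℝ) ≤ t ^ 4 := one_le_pow₀ ht
  have ht24 : t ^ 2 ≤ t ^ 4 := pow_le_pow_right₀ ht (by norm_num)
  set Nn : ℕ := 2 * (4 * (2 * K + 1) * (6 * K + 1) * D ^ 2 + (2 * K + 1) * (4 * K + 1) ^ 2) +
          2 * (4 * K + 2) ^ 2 with hNn
  have hNr : (Nn : ℝ) ≤ N0 * t ^ 2 := by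
    have e : (Nn : ℝ) = a * D ^ 2 + b := by rw [hNn, ha, hb]; push_cast; ring
    rw [e, hN0]
    have hD2 : (D : ℝ) ^ 2 ≤ (C0 * t) ^ 2 := pow_le_pow_left₀ (Nat.cast_nonneg _) hD 2
    calc a * D ^ 2 + b ≤ a * (C0 * t) ^ 2 + b * t ^ 2 := by
          apply add_le_add
          · exact mul_le_mul_of_nonneg_left hD2 ha0.le
          · exact le_mul_of_one_le_right hb0.le ht2
      _ = (a * C0 ^ 2 + b) * t ^ 2 := by ring
  have hN0n : (0 : ℝ) ≤ Nn := Nat.cast_nonneg _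
  have hK1 : (2 * K * p + 1 : ℝ) ≤ (2 * K + 1) * p := by nlinarith
  have hr : (M : ℝ) ^ 2 * x ≤ M * (j0 * p + Nn * (2 * ((2 * L + 1) ^ 2 * ((2 * K * p + 1) *
      (2 * K + 1))))) + 2 * (2 * L + 1) ^ 2 * (Nn : ℝ) ^ 2 * (2 * K * p + 1) ^ 2 := by
    have h1 : ((M ^ 2 * x : ℕ) : ℝ) ≤ ((M * (4 * (4 * K + 2) ^ 3 * (p - 1) +
        Nn * (2 * ((2 * L + 1) ^ 2 * ((2 * K * p + 1) * (2 * K + 1))))) +
        2 * (2 * L + 1) ^ 2 * Nn ^ 2 * (2 * K * p + 1) ^ 2 : ℕ) : ℝ) := by exact_mod_cast h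
    have h2 : ((p - 1 : ℕ) : ℝ) ≤ p := by exact_mod_cast Nat.sub_le p 1
    push_cast at h1
    refine h1.trans ?_
    rw [hj0]
    gcongr
  have hr2 : (M : ℝ) ^ 2 * x ≤ M * (j0 * p + (N0 * t ^ 2) * (g0 * p)) +
      c0 * (N0 * t ^ 2) ^ 2 * p ^ 2 := by
    refine hr.trans ?_
    apply add_le_add
    · apply mul_le_mul_of_nonneg_left _ hM0.le
      apply add_le_add le_rfl
      apply mul_le_mul hNr _ (by positivity) (by positivity)
      rw [hg0]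
      calc (2 : ℝ) * ((2 * L + 1) ^ 2 * ((2 * K * p + 1) * (2 * K + 1)))
          ≤ 2 * ((2 * L + 1) ^ 2 * (((2 * K + 1) * p) * (2 * K + 1))) := by gcongr
        _ = _ := by ring
    · rw [hc0]
      calc 2 * (2 * (L : ℝ) + 1) ^ 2 * (Nn : ℝ) ^ 2 * (2 * K * p + 1) ^ 2
          ≤ 2 * (2 * L + 1) ^ 2 * (N0 * t ^ 2) ^ 2 * ((2 * K + 1) * p) ^ 2 := by gcongr
        _ = _ := by ring
  have hpM : (p : ℝ) ≤ 6 / η * M := by
    rw [div_mul_eq_mul_div, le_div_iff₀ hη]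
    linarith
  have hr3 : (M : ℝ) ^ 2 * x ≤ M ^ 2 * ((6 / η * (j0 + N0 * g0) + 36 / η ^ 2 * (c0 * N0 ^ 2)) *
      t ^ 4) := by
    refine hr2.trans ?_
    have i1 : M * (j0 * p + (N0 * t ^ 2) * (g0 * p)) ≤
        (M : ℝ) ^ 2 * (6 / η * (j0 + N0 * g0) * t ^ 4) := by
      calc M * (j0 * p + (N0 * t ^ 2) * (g0 * p)) = M * p * (j0 + N0 * g0 * t ^ 2) := by ring
        _ ≤ M * (6 / η * M) * (j0 * t ^ 4 + N0 * g0 * t ^ 4) := by
            apply mul_le_mul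
            · exact mul_le_mul_of_nonneg_left hpM hM0.le
            · apply add_le_add
              · exact le_mul_of_one_le_right hj00.le ht4
              · exact mul_le_mul_of_nonneg_left ht24 (by positivity)
            · positivity
            · positivity
        _ = _ := by ring
    have i2 : c0 * (N0 * t ^ 2) ^ 2 * p ^ 2 ≤
        (M : ℝ) ^ 2 * (36 / η ^ 2 * (c0 * N0 ^ 2) * t ^ 4) := by
      calc c0 * (N0 * t ^ 2) ^ 2 * p ^ 2 ≤ c0 * (N0 * t ^ 2) ^ 2 * (6 / η * M) ^ 2 := by gcongr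
        _ = _ := by ring
    calc _ ≤ (M : ℝ) ^ 2 * (6 / η * (j0 + N0 * g0) * t ^ 4) +
          (M : ℝ) ^ 2 * (36 / η ^ 2 * (c0 * N0 ^ 2) * t ^ 4) := add_le_add i1 i2
      _ = _ := by ring
  exact le_of_mul_le_mul_left hr3 (by positivity)

open Classical in
/-- **Augmentation lemma.** -/
theorem aug (K : ℕ) (η ε : ℝ) (hη : 0 < η) (hε : 0 < ε) : ∃ p0 : ℕ, ∀ p : ℕ, p.Prime → p0 ≤ p →
    ∀ Y : Finset (ℤ × ℤ), (∀ P ∈ Y, |P.1| ≤ K * p ∧ |P.2| ≤ K * p) →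
    (∀ k : ZMod p, k ≠ 0 → IsArc {P | P ∈ Y ∧ ((P.1 * P.2 : ℤ) : ZMod p) = k}) →
    (∀ i : ℤ, ((Y.filter (fun P => P.1 = i)).card : ℝ) ≤ (2 - η) * p) →
    (∀ i : ℤ, ((Y.filter (fun P => P.2 = i)).card : ℝ) ≤ (2 - η) * p) →
    ∃ c : ℕ, (c : ℝ) ≤ (1 + ε) * p ∧ Cov Y c := by
  wlog hε1 : ε ≤ 1 generalizing ε
  · push Not at hε1
    obtain ⟨p0, h⟩ := this 1 one_pos le_rfl
    refine ⟨p0, fun p hp hp0 Y hb hA hx hy => ?_⟩
    obtain ⟨c, hc, hcov⟩ := h p hp hp0 Y hb hA hx hy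
    refine ⟨c, hc.trans ?_, hcov⟩
    gcongr
  obtain ⟨C, hC⟩ := Helper88.MD.divisorBound (1 / 10) (by norm_num)
  have hC1 : 1 ≤ C := by
    have := hC 1 le_rfl
    simpa using this
  set L : ℕ := ⌈8 * K / ε⌉₊ with hL
  set C0 : ℝ := C * (4 * K : ℝ) ^ (1 / 10 : ℝ) with hC0
  have hC00 : 0 ≤ C0 := by positivity
  obtain ⟨A, hA0, hA⟩ := x_bound K L η C0 hη hC00
  refine ⟨⌈6 / η⌉₊ + (L + 1) + ⌈4 / ε⌉₊ + ⌈4 * (2 * K + 1) ^ 2 / ε⌉₊ + ⌈(4 * A / ε) ^ 10⌉₊ + 1, ?_⟩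
  intro p hp hp0 Y hb hA1 hx hy
  have hpos : (0 : ℝ) < p := by exact_mod_cast hp.pos
  have b1 : 6 / η ≤ p := (Nat.le_ceil _).trans (by exact_mod_cast (by omega : ⌈6 / η⌉₊ ≤ p))
  have b2 : L < p := by omega
  have b3 : 4 / ε ≤ p := (Nat.le_ceil _).trans (by exact_mod_cast (by omega : ⌈4 / ε⌉₊ ≤ p))
  have b4 : 4 * (2 * K + 1) ^ 2 / ε ≤ p := (Nat.le_ceil _).trans
    (by exact_mod_cast (by omega : ⌈4 * (2 * (K : ℝ) + 1) ^ 2 / ε⌉₊ ≤ p))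
  have b5 : (4 * A / ε) ^ 10 ≤ p := (Nat.le_ceil _).trans
    (by exact_mod_cast (by omega : ⌈(4 * A / ε) ^ 10⌉₊ ≤ p))
  have b1' : 6 ≤ η * p := by rwa [div_le_iff₀' hη] at b1
  have b3' : 4 ≤ ε * p := by rwa [div_le_iff₀' hε] at b3
  have b4' : 4 * (2 * K + 1) ^ 2 ≤ ε * p := by rwa [div_le_iff₀' hε] at b4
  -- the prime `r`
  set n0 : ℕ := ⌊ε * p / 4⌋₊ with hn0
  have hn0' : n0 ≠ 0 := by
    rw [hn0, ← Nat.pos_iff_ne_zero, Nat.floor_pos]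
    linarith
  obtain ⟨r, hr, hr1, hr2⟩ := Nat.exists_prime_lt_and_le_two_mul n0 hn0'
  have hnf : (n0 : ℝ) ≤ ε * p / 4 := Nat.floor_le (by positivity)
  have hnf2 : ε * p / 4 < n0 + 1 := Nat.lt_floor_add_one _
  have hr1' : (n0 : ℝ) + 1 ≤ r := by exact_mod_cast hr1
  have hr2' : (r : ℝ) ≤ 2 * n0 := by exact_mod_cast hr2
  have hrp : r < p := by
    have : (r : ℝ) < p := by nlinarith
    exact_mod_cast this
  have hLr : 2 * K * p ≤ L * r := by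
    have h1 : (8 * K / ε : ℝ) ≤ L := Nat.le_ceil _
    have h2 : (2 * K * p : ℝ) ≤ L * r := by
      calc (2 * K * p : ℝ) = (8 * K / ε) * (ε * p / 4) := by field_simp; ring
        _ ≤ L * r := by
            apply mul_le_mul h1 (by linarith) (by positivity) (by positivity)
    exact_mod_cast h2
  -- the number `M`
  set M : ℕ := ⌊η * p / 3⌋₊ with hM
  have hM1 : (M : ℝ) ≤ η * p / 3 := Nat.floor_le (by positivity)
  have hM2 : η * p / 3 < M + 1 := Nat.lt_floor_add_one _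
  have hM3 : η * p / 6 ≤ M := by linarith
  have hM0 : 0 < M := by
    have : (0 : ℝ) < M := lt_of_lt_of_le (by positivity) hM3
    exact_mod_cast this
  have hcapr : ∀ z : ℕ, (z : ℝ) ≤ (2 - η) * p → z + 2 * M ≤ 2 * (p - 1) := by
    intro z hz
    have : (z : ℝ) + 2 * M + 2 ≤ 2 * p := by nlinarith
    have h2 : z + 2 * M + 2 ≤ 2 * p := by exact_mod_cast this
    omega
  -- the divisor bound
  set t : ℝ := (p : ℝ) ^ (1 / 10 : ℝ) with ht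
  have hp1 : (1 : ℝ) ≤ p := by exact_mod_cast hp.one_lt.le
  have ht1 : 1 ≤ t := Real.one_le_rpow hp1 (by norm_num)
  have ht10 : t ^ 10 = p := by
    rw [ht, ← Real.rpow_natCast, ← Real.rpow_mul hpos.le]
    norm_num
  set D : ℕ := ⌊C0 * t⌋₊ with hD
  have hD1 : (D : ℝ) ≤ C0 * t := Nat.floor_le (by positivity)
  have hDd : ∀ m : ℕ, 1 ≤ m → m ≤ 4 * K * p → m.divisors.card ≤ D := by
    intro m hm1 hm2
    apply Nat.le_floor
    refine (hC m hm1).trans ?_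
    rw [hC0, ht, mul_assoc, ← Real.mul_rpow (by positivity) hpos.le]
    apply mul_le_mul_of_nonneg_left _ (by linarith)
    apply Real.rpow_le_rpow (by positivity) _ (by norm_num)
    exact_mod_cast hm2
  obtain ⟨x, hcov, hx'⟩ := aug_fin K L p r M D hp hr hrp b2 hLr hM0 hDd Y hb hA1
    (fun i => hcapr _ (by convert hx (i * p))) (fun i => hcapr _ (by convert hy (i * p)))
  have hxb := hA p M D x t hp.one_lt.le ht1 hM3 hD1 hx'
  refine ⟨_, ?_, hcov⟩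
  have ht4 : A * t ^ 4 ≤ ε * p / 4 := by
    have h1 : 4 * A / ε ≤ t := by
      by_contra hcon
      push Not at hcon
      have : t ^ 10 < (4 * A / ε) ^ 10 := pow_lt_pow_left₀ hcon (by linarith) (by norm_num)
      rw [ht10] at this
      linarith
    have h2 : 4 * A ≤ ε * t := by rwa [div_le_iff₀' hε] at h1
    have h3 : t ≤ t ^ 6 := by
      calc t = t ^ 1 := (pow_one t).symm
        _ ≤ t ^ 6 := pow_le_pow_right₀ ht1 (by norm_num)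
    rw [← ht10]
    have h4 : 4 * A ≤ ε * t ^ 6 := h2.trans (mul_le_mul_of_nonneg_left h3 hε.le)
    have h5 : (0 : ℝ) ≤ t ^ 4 := by positivity
    have h6 := mul_le_mul_of_nonneg_right h4 h5
    have e : ε * t ^ 6 * t ^ 4 = ε * t ^ 10 := by ring
    rw [e] at h6
    linarith
  have hp1' : ((p - 1 : ℕ) : ℝ) ≤ p := by exact_mod_cast Nat.sub_le p 1
  push_cast
  have : (x : ℝ) ≤ ε * p / 4 := hxb.trans ht4
  linarith

end Pool.Agent.ArcGrid
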