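import Pool.Agent.ArcGrid.CovTools

/-!
# Counting congruent partners
-/

set_option autoImplicit false

namespace Pool.Agent.ArcGrid

open Finset

lemma quot_mem {K L p r : ℕ} (hr : 0 < r) (hL : 2 * K * p ≤ L * r) {x y a : ℤ}
    (hx : |x| ≤ K * p) (hy : |y| ≤ K * p) (h : x - y = r * a) : a ∈ Icc (-(L : ℤ)) L := by
  have hr0 : (0 : ℤ) < r := by exact_mod_cast hr
  rw [mem_Icc, ← abs_le]
  have h1 : |x - y| ≤ 2 * K * p := by
    have := abs_sub x y
    linarith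
  rw [h, abs_mul, abs_of_pos hr0] at h1
  have h2 : (2 * K * p : ℤ) ≤ L * r := by exact_mod_cast hL
  apply le_of_mul_le_mul_left _ hr0
  linarith

open Classical in
theorem c_card (K L p r : ℕ) (hr : 0 < r) (hL : 2 * K * p ≤ L * r) (Y : Finset (ℤ × ℤ))
    (hb : ∀ P ∈ Y, |P.1| ≤ K * p ∧ |P.2| ≤ K * p) (Q : ℤ × ℤ) (hQ : Q ∈ Y) :
    (Y.filter (fun Q' => Q ≠ Q' ∧ Cong r Q Q')).card ≤ (2 * L + 1) ^ 2 := by
  have hr0 : (r : ℤ) ≠ 0 := by exact_mod_cast hr.ne'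
  have h1 : (Y.filter (fun Q' => Q ≠ Q' ∧ Cong r Q Q')).card ≤
      (Icc (-(L : ℤ)) L ×ˢ Icc (-(L : ℤ)) L).card := by
    apply card_le_card_of_injOn (fun Q' => ((Q.1 - Q'.1) / r, (Q.2 - Q'.2) / r))
    · intro Q' hQ'
      obtain ⟨hQ', _, ⟨a, ha⟩, ⟨b, hb'⟩⟩ := mem_filter.1 hQ'
      have e1 : (Q.1 - Q'.1) / r = a := by rw [ha]; exact Int.mul_ediv_cancel_left _ hr0
      have e2 : (Q.2 - Q'.2) / r = b := by rw [hb']; exact Int.mul_ediv_cancel_left _ hr0
      simp only [coe_product, Set.mem_prod, mem_coe]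
      rw [e1, e2]
      exact ⟨quot_mem hr hL (hb Q hQ).1 (hb Q' hQ').1 ha, quot_mem hr hL (hb Q hQ).2 (hb Q' hQ').2 hb'⟩
    · intro A hA B hB hAB
      obtain ⟨_, _, ⟨a, ha⟩, ⟨b, hb'⟩⟩ := mem_filter.1 hA
      obtain ⟨_, _, ⟨a', ha'⟩, ⟨b', hb''⟩⟩ := mem_filter.1 hB
      simp only [Prod.mk.injEq] at hAB
      rw [ha, ha', hb', hb'', Int.mul_ediv_cancel_left _ hr0, Int.mul_ediv_cancel_left _ hr0,
        Int.mul_ediv_cancel_left _ hr0, Int.mul_ediv_cancel_left _ hr0] at hAB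
      obtain ⟨h1, h2⟩ := hAB
      subst h1 h2
      ext
      · linarith
      · linarith
  refine h1.trans (le_of_eq ?_)
  rw [card_product, Int.card_Icc]
  have : ((L : ℤ) + 1 - -(L : ℤ)).toNat = 2 * L + 1 := by omega
  rw [this, sq]

lemma fdiv_mem {K p : ℕ} (hp : 0 < p) {x : ℤ} (hx : |x| ≤ K * p) : x / p ∈ Icc (-(K : ℤ)) K := by
  have hp0 : (0 : ℤ) < p := by exact_mod_cast hp
  rw [abs_le] at hx
  rw [mem_Icc]
  constructor
  · rw [Int.le_ediv_iff_mul_le hp0]; linarith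
  · have : x / p ≤ (K * p) / p := Int.ediv_le_ediv hp0 hx.2
    rwa [Int.mul_ediv_cancel _ hp0.ne'] at this

open Classical in
theorem g_card (K L p r : ℕ) (hp : p.Prime) (hr : 0 < r) (hrp : r < p) (hLp : L < p)
    (hL : 2 * K * p ≤ L * r) (Y : Finset (ℤ × ℤ))
    (hb : ∀ P ∈ Y, |P.1| ≤ K * p ∧ |P.2| ≤ K * p) :
    ((Y ×ˢ Y).filter (fun z => z.1 ≠ z.2 ∧ Cong r z.1 z.2 ∧
      ((z.1.1 * z.1.2 : ℤ) : ZMod p) = ((z.2.1 * z.2.2 : ℤ) : ZMod p))).card ≤
      2 * ((2 * L + 1) ^ 2 * ((2 * K * p + 1) * (2 * K + 1))) := by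
  have hr0 : (r : ℤ) ≠ 0 := by exact_mod_cast hr.ne'
  have hp0 : (0 : ℤ) < p := by exact_mod_cast hp.pos
  have hpp : Prime (p : ℤ) := Nat.prime_iff_prime_int.1 hp
  set X := (Y ×ˢ Y).filter (fun z => z.1 ≠ z.2 ∧ Cong r z.1 z.2 ∧
      ((z.1.1 * z.1.2 : ℤ) : ZMod p) = ((z.2.1 * z.2.2 : ℤ) : ZMod p)) with hX
  -- extraction of data
  have hdata : ∀ z ∈ X, ∃ a b : ℤ, z.1.1 - z.2.1 = r * a ∧ z.1.2 - z.2.2 = r * b ∧
      a ∈ Icc (-(L : ℤ)) L ∧ b ∈ Icc (-(L : ℤ)) L ∧ (a ≠ 0 ∨ b ≠ 0) ∧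
      (p : ℤ) ∣ b * z.1.1 + a * z.1.2 - r * a * b := by
    intro z hz
    obtain ⟨hz, hne, ⟨⟨a, ha⟩, ⟨b, hb'⟩⟩, hcol⟩ := mem_filter.1 hz
    obtain ⟨hz1, hz2⟩ := mem_product.1 hz
    refine ⟨a, b, ha, hb', quot_mem hr hL (hb _ hz1).1 (hb _ hz2).1 ha,
      quot_mem hr hL (hb _ hz1).2 (hb _ hz2).2 hb', ?_, ?_⟩
    · by_contra hcon
      push Not at hcon
      obtain ⟨rfl, rfl⟩ := hcon
      apply hne
      ext
      · linarith
      · linarith
    · rw [ZMod.intCast_eq_intCast_iff_dvd_sub] at hcol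
      have e : z.2.1 * z.2.2 - z.1.1 * z.1.2 = r * -(b * z.1.1 + a * z.1.2 - r * a * b) := by
        have e1 : z.2.1 = z.1.1 - r * a := by linarith
        have e2 : z.2.2 = z.1.2 - r * b := by linarith
        rw [e1, e2]; ring
      rw [e] at hcol
      rcases hpp.dvd_or_dvd hcol with h | h
      · exfalso
        have := Int.le_of_dvd (by exact_mod_cast hr) h
        have h3 : (r : ℤ) < p := by exact_mod_cast hrp
        linarith
      · exact (dvd_neg).1 h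
  have hsmall : ∀ b ∈ Icc (-(L : ℤ)) L, b ≠ 0 → ¬ (p : ℤ) ∣ b := by
    intro b hb hb0 hd
    rw [mem_Icc, ← abs_le] at hb
    have := Int.le_of_dvd (abs_pos.2 hb0) ((dvd_abs _ _).2 hd)
    have h3 : (L : ℤ) < p := by exact_mod_cast hLp
    linarith
  have hcL : (Icc (-(L : ℤ)) L).card = 2 * L + 1 := by rw [Int.card_Icc]; omega
  have hcK : (Icc (-(K : ℤ)) K).card = 2 * K + 1 := by rw [Int.card_Icc]; omega
  have hcKp : (Icc (-(K * p : ℤ)) (K * p)).card = 2 * K * p + 1 := by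
    rw [Int.card_Icc]
    have : ((K * p : ℤ) + 1 - -(K * p : ℤ)) = ((2 * K * p + 1 : ℕ) : ℤ) := by push_cast; ring
    rw [this, Int.toNat_natCast]
  set T := (Icc (-(L : ℤ)) L ×ˢ Icc (-(L : ℤ)) L) ×ˢ (Icc (-(K * p : ℤ)) (K * p) ×ˢ Icc (-(K : ℤ)) K)
    with hT
  have hTc : T.card = (2 * L + 1) ^ 2 * ((2 * K * p + 1) * (2 * K + 1)) := by
    rw [hT, card_product, card_product, card_product, hcL, hcK, hcKp, sq]
  have h1 : (X.filter (fun z => z.1.2 ≠ z.2.2)).card ≤ T.card := by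
    apply card_le_card_of_injOn (fun z : (ℤ × ℤ) × (ℤ × ℤ) => (((z.1.1 - z.2.1) / r, (z.1.2 - z.2.2) / r), (z.1.2, z.1.1 / p)))
    · intro z hz
      obtain ⟨hz, _⟩ := mem_filter.1 hz
      obtain ⟨a, b, ha, hb', haL, hbL, _, _⟩ := hdata z hz
      have e1 : (z.1.1 - z.2.1) / r = a := by rw [ha]; exact Int.mul_ediv_cancel_left _ hr0
      have e2 : (z.1.2 - z.2.2) / r = b := by rw [hb']; exact Int.mul_ediv_cancel_left _ hr0
      have hz1 := (mem_product.1 (mem_filter.1 hz).1).1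
      simp only [hT, coe_product, Set.mem_prod, mem_coe]
      rw [e1, e2]
      exact ⟨⟨haL, hbL⟩, mem_Icc.2 (abs_le.1 (hb _ hz1).2), fdiv_mem hp.pos (hb _ hz1).1⟩
    · intro z hz w hw hzw
      obtain ⟨hz, hz'⟩ := mem_filter.1 hz
      obtain ⟨hw, hw'⟩ := mem_filter.1 hw
      obtain ⟨a, b, ha, hb1, haL, hbL, _, hd⟩ := hdata z hz
      obtain ⟨a', b', ha', hb1', _, _, _, hd'⟩ := hdata w hw
      simp only [Prod.mk.injEq] at hzw
      rw [ha, ha', hb1, hb1', Int.mul_ediv_cancel_left _ hr0, Int.mul_ediv_cancel_left _ hr0,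
        Int.mul_ediv_cancel_left _ hr0, Int.mul_ediv_cancel_left _ hr0] at hzw
      obtain ⟨⟨h1, h2⟩, h3, h4⟩ := hzw
      subst h1 h2
      have hb0 : b ≠ 0 := by
        rintro rfl
        apply hz'
        linarith
      have h5 : (p : ℤ) ∣ b * (z.1.1 - w.1.1) := by
        have := dvd_sub hd hd'
        have e : b * z.1.1 + a * z.1.2 - r * a * b - (b * w.1.1 + a * w.1.2 - r * a * b) =
          b * (z.1.1 - w.1.1) := by rw [h3]; ring
        rwa [e] at this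
      have h6 := (hpp.dvd_or_dvd h5).resolve_left (hsmall b hbL hb0)
      have h7 : z.1.1 = w.1.1 := by
        have m1 : z.1.1 % p = w.1.1 % p :=
          (Int.emod_eq_emod_iff_emod_sub_eq_zero.2 (Int.emod_eq_zero_of_dvd h6))
        have e1 := Int.mul_ediv_add_emod z.1.1 p
        have e2 := Int.mul_ediv_add_emod w.1.1 p
        rw [← e1, ← e2, h4, m1]
      ext
      · exact h7
      · exact h3
      · linarith
      · linarith
  have h2 : (X.filter (fun z => ¬ z.1.2 ≠ z.2.2)).card ≤ T.card := by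
    apply card_le_card_of_injOn (fun z : (ℤ × ℤ) × (ℤ × ℤ) => (((z.1.1 - z.2.1) / r, (z.1.2 - z.2.2) / r), (z.1.1, z.1.2 / p)))
    · intro z hz
      obtain ⟨hz, _⟩ := mem_filter.1 hz
      obtain ⟨a, b, ha, hb', haL, hbL, _, _⟩ := hdata z hz
      have e1 : (z.1.1 - z.2.1) / r = a := by rw [ha]; exact Int.mul_ediv_cancel_left _ hr0
      have e2 : (z.1.2 - z.2.2) / r = b := by rw [hb']; exact Int.mul_ediv_cancel_left _ hr0
      have hz1 := (mem_product.1 (mem_filter.1 hz).1).1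
      simp only [hT, coe_product, Set.mem_prod, mem_coe]
      rw [e1, e2]
      exact ⟨⟨haL, hbL⟩, mem_Icc.2 (abs_le.1 (hb _ hz1).1), fdiv_mem hp.pos (hb _ hz1).2⟩
    · intro z hz w hw hzw
      obtain ⟨hz, hz'⟩ := mem_filter.1 hz
      obtain ⟨hw, hw'⟩ := mem_filter.1 hw
      push Not at hz' hw'
      obtain ⟨a, b, ha, hb1, haL, hbL, hab, hd⟩ := hdata z hz
      obtain ⟨a', b', ha', hb1', _, _, _, hd'⟩ := hdata w hw
      simp only [Prod.mk.injEq] at hzw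
      rw [ha, ha', hb1, hb1', Int.mul_ediv_cancel_left _ hr0, Int.mul_ediv_cancel_left _ hr0,
        Int.mul_ediv_cancel_left _ hr0, Int.mul_ediv_cancel_left _ hr0] at hzw
      obtain ⟨⟨h1, h2⟩, h3, h4⟩ := hzw
      subst h1 h2
      have hb0 : b = 0 := by
        have : (r : ℤ) * b = 0 := by linarith
        rcases mul_eq_zero.1 this with h | h
        · exact absurd h hr0
        · exact h
      have ha0 : a ≠ 0 := hab.resolve_right (fun h => h hb0)
      have h5 : (p : ℤ) ∣ a * (z.1.2 - w.1.2) := by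
        have := dvd_sub hd hd'
        have e : b * z.1.1 + a * z.1.2 - r * a * b - (b * w.1.1 + a * w.1.2 - r * a * b) =
          a * (z.1.2 - w.1.2) := by rw [h3]; ring
        rwa [e] at this
      have h6 := (hpp.dvd_or_dvd h5).resolve_left (hsmall a haL ha0)
      have h7 : z.1.2 = w.1.2 := by
        have m1 : z.1.2 % p = w.1.2 % p :=
          (Int.emod_eq_emod_iff_emod_sub_eq_zero.2 (Int.emod_eq_zero_of_dvd h6))
        have e1 := Int.mul_ediv_add_emod z.1.2 p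
        have e2 := Int.mul_ediv_add_emod w.1.2 p
        rw [← e1, ← e2, h4, m1]
      ext
      · exact h3
      · exact h7
      · linarith
      · linarith
  have h3 := card_filter_add_card_filter_not (s := X) (fun z => z.1.2 ≠ z.2.2)
  rw [hTc] at h1 h2
  omega

end Pool.Agent.ArcGrid
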