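import Pool.Agent.ArcGrid.Greedy

/-!
# The greedy assignment lemma: induction and double count
-/

set_option autoImplicit false

namespace Pool.Agent.ArcGrid

open Finset

section
variable {α β κ : Type} {S : Finset α} {Y : Finset β} {Ks : Finset κ} {col : β → κ} {ln : α → ℕ}
    {NC : α → β → Prop} {T2 : α → α → β → Prop} {T3 : α → α → α → Prop} {cg : β → β → Prop}
    {M J N c G : ℕ}

lemma inv_step (hM : 0 < M)
    (hcap : ∀ i, by classical exact (S.filter (fun P => ln P = i)).card + 2 * M ≤ 2 * Ks.card)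
    (hcs : ∀ Q Q', cg Q Q' → cg Q' Q)
    (A : Finset α) (P : α) (hPA : P ∉ A) (hAS : A ⊆ S)
    (h : ∃ Sk E D, Inv Y Ks col ln NC T2 T3 cg M J N c A Sk E D) :
    ∃ Sk E D, Inv Y Ks col ln NC T2 T3 cg M J N c (by classical exact insert P A) Sk E D := by
  classical
  obtain ⟨Sk, E, D, hI⟩ := h
  set Av := Ks.filter (fun k => ((Sk k).filter (fun P' => ln P' = ln P)).card ≤ 1) with hAv
  have hAc : M ≤ Av.card := avail_card (S := S) (by convert hcap)
    (fun k => (hI.hS k).trans hAS) hI.hdisj (ln P)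
  obtain ⟨k, hk, hcost⟩ := step_choice (Y := Y) (Ks := Ks) (col := col) (NC := NC) (T2 := T2)
    (T3 := T3) (cg := cg) (J := J) (N := N) (c := c) hM (Sk := Sk) (D := D) P Av
    (filter_subset _ _) hAc
  have hkK : k ∈ Ks := (mem_filter.1 hk).1
  have hk1 : ((Sk k).filter (fun P' => ln P' = ln P)).card ≤ 1 := (mem_filter.1 hk).2
  have hPS : ∀ k', P ∉ Sk k' := fun k' hP => hPA (hI.hS k' hP)
  by_cases hb : bad T3 Sk P k
  · refine ⟨Sk, insert P E, D, ?_⟩
    refine ⟨hI.hD, insert_subset_insert _ hI.hE, fun k' => (hI.hS k').trans (subset_insert _ _),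
      ?_, hI.hdisj, hI.hcap, hI.hNC, hI.hT2, hI.hT3, ?_⟩
    · intro P' hP'
      rcases mem_insert.1 hP' with h' | h'
      · exact Or.inl (by rw [h']; exact mem_insert_self _ _)
      · rcases hI.hcov P' h' with h'' | h''
        · exact Or.inl (mem_insert_of_mem h'')
        · exact Or.inr h''
    · have hPE : P ∉ E := fun h' => hPA (hI.hE h')
      rw [sum_insert hPA, card_insert_of_notMem hPE]
      have hp := hI.hpot
      rw [if_pos hb] at hcost
      have e : M * (M * (E.card + 1 + ∑ Q ∈ D, dct cg D Q) + 2 * c * (N + 2 * J ^ 2) * D.card) =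
        M * (M * (E.card + ∑ Q ∈ D, dct cg D Q) + 2 * c * (N + 2 * J ^ 2) * D.card) + M * M := by
        ring
      rw [e]
      have h2 : M * M ≤ gg Y Ks col NC T2 T3 cg M J N c Sk D P := by
        refine le_trans ?_ hcost
        apply Nat.mul_le_mul_left
        omega
      omega
  · set A1 := (Y.filter (aff col NC T2 Sk P)).filter (fun Q => col Q = k) with hA1
    set Sk' : κ → Finset α := fun k' => if k' = k then insert P (Sk k) else Sk k' with hSk'
    have hSkk : Sk' k = insert P (Sk k) := by simp [hSk']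
    have hSkn : ∀ k', k' ≠ k → Sk' k' = Sk k' := fun k' h' => by simp [hSk', h']
    have hsub : ∀ k', Sk k' ⊆ Sk' k' := by
      intro k'
      by_cases h' : k' = k
      · rw [h', hSkk]; exact subset_insert _ _
      · rw [hSkn k' h']
    have hA1Y : A1 ⊆ Y := (filter_subset _ _).trans (filter_subset _ _)
    have hmem : ∀ Q ∈ Y, col Q = k → aff col NC T2 Sk P Q → Q ∈ D ∪ A1 := by
      intro Q hQ hc ha
      exact mem_union_right _ (mem_filter.2 ⟨mem_filter.2 ⟨hQ, ha⟩, hc⟩)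
    refine ⟨Sk', E, D ∪ A1, ?_⟩
    refine ⟨union_subset hI.hD hA1Y, hI.hE.trans (subset_insert _ _), ?_, ?_, ?_, ?_, ?_, ?_, ?_, ?_⟩
    · intro k'
      by_cases h' : k' = k
      · rw [h', hSkk]; exact insert_subset_insert _ (hI.hS k)
      · rw [hSkn k' h']; exact (hI.hS k').trans (subset_insert _ _)
    · intro P' hP'
      rcases mem_insert.1 hP' with h' | h'
      · exact Or.inr ⟨k, hkK, by rw [hSkk, h']; exact mem_insert_self _ _⟩
      · rcases hI.hcov P' h' with h'' | ⟨k', h1, h2⟩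
        · exact Or.inl h''
        · exact Or.inr ⟨k', h1, hsub k' h2⟩
    · intro k1 k2 h12
      by_cases h1 : k1 = k
      · have h2 : k2 ≠ k := fun h => h12 (h1.trans h.symm)
        rw [h1, hSkk, hSkn k2 h2, disjoint_insert_left]
        exact ⟨hPS k2, hI.hdisj k k2 h2.symm⟩
      · by_cases h2 : k2 = k
        · rw [h2, hSkk, hSkn k1 h1, disjoint_insert_right]
          exact ⟨hPS k1, hI.hdisj k1 k h1⟩
        · rw [hSkn k1 h1, hSkn k2 h2]
          exact hI.hdisj k1 k2 h12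
    · intro k' i
      by_cases h' : k' = k
      · rw [h', hSkk, filter_insert]
        split_ifs with hi
        · refine (card_insert_le _ _).trans ?_
          rw [← hi]; omega
        · exact hI.hcap k i
      · rw [hSkn k' h']; exact hI.hcap k' i
    · intro k' hk' P' hP' Q hQ hc hN
      by_cases h' : k' = k
      · rw [h', hSkk, mem_insert] at hP'
        rcases hP' with hP' | hP'
        · exact hmem Q hQ (hc.trans h') (Or.inl (hP' ▸ hN))
        · exact mem_union_left _ (hI.hNC k hkK P' hP' Q hQ (hc.trans h') hN)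
      · rw [hSkn k' h'] at hP'
        exact mem_union_left _ (hI.hNC k' hk' P' hP' Q hQ hc hN)
    · intro k' hk' P1 hP1 P2 hP2 h12 Q hQ hc ht1 ht2
      by_cases h' : k' = k
      · rw [h', hSkk, mem_insert] at hP1 hP2
        have hc' := hc.trans h'
        rcases hP1 with hP1 | hP1
        · rcases hP2 with hP2 | hP2
          · exact absurd (hP1.trans hP2.symm) h12
          · exact hmem Q hQ hc' (Or.inr ⟨P2, by rw [hc']; exact hP2, hP1 ▸ ht1⟩)
        · rcases hP2 with hP2 | hP2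
          · exact hmem Q hQ hc' (Or.inr ⟨P1, by rw [hc']; exact hP1, hP2 ▸ ht2⟩)
          · exact mem_union_left _ (hI.hT2 k hkK P1 hP1 P2 hP2 h12 Q hQ hc' ht1 ht2)
      · rw [hSkn k' h'] at hP1 hP2
        exact mem_union_left _ (hI.hT2 k' hk' P1 hP1 P2 hP2 h12 Q hQ hc ht1 ht2)
    · intro k' hk' P1 hP1 P2 hP2 P3 hP3 h12 h13 h23 ht
      by_cases h' : k' = k
      · rw [h', hSkk, mem_insert] at hP1 hP2 hP3
        rcases hP1 with hP1 | hP1
        · have hP2' := hP2.resolve_left (fun h => h12 (hP1.trans h.symm))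
          have hP3' := hP3.resolve_left (fun h => h13 (hP1.trans h.symm))
          exact hb ⟨P2, hP2', P3, hP3', h23, hP1 ▸ ht.1⟩
        · rcases hP2 with hP2 | hP2
          · have hP3' := hP3.resolve_left (fun h => h23 (hP2.trans h.symm))
            exact hb ⟨P1, hP1, P3, hP3', h13, hP2 ▸ ht.2.1⟩
          · rcases hP3 with hP3 | hP3
            · exact hb ⟨P1, hP1, P2, hP2, h12, hP3 ▸ ht.2.2⟩
            · exact hI.hT3 k hkK P1 hP1 P2 hP2 P3 hP3 h12 h13 h23 ht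
      · rw [hSkn k' h'] at hP1 hP2 hP3
        exact hI.hT3 k' hk' P1 hP1 P2 hP2 P3 hP3 h12 h13 h23 ht
    · rw [sum_insert hPA]
      have hp := hI.hpot
      rw [if_neg hb, mul_zero, zero_add] at hcost
      have hs : ∀ Q ∈ A1, dct cg A1 Q ≤ same Y col cg Q := by
        intro Q hQ
        unfold dct same
        apply card_le_card
        intro Q' hQ'
        rw [mem_filter] at hQ' ⊢
        refine ⟨hA1Y hQ'.1, hQ'.2.1, hQ'.2.2, ?_⟩
        rw [(mem_filter.1 hQ).2, (mem_filter.1 hQ'.1).2]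
      have h1 := pairs_union cg hcs D A1 (same Y col cg) hs
      have h2 : (D ∪ A1).card ≤ D.card + A1.card := card_union_le _ _
      have h3 : ∑ Q ∈ A1, wt Y col cg M J N c D Q =
          M * ∑ Q ∈ A1, (2 * dct cg D Q + same Y col cg Q) + 2 * c * (N + 2 * J ^ 2) * A1.card := by
        unfold wt
        rw [sum_add_distrib, mul_sum, sum_const, smul_eq_mul]
        ring
      have h4 : gg Y Ks col NC T2 T3 cg M J N c Sk D P ≤
          gg Y Ks col NC T2 T3 cg M J N c Sk' (D ∪ A1) P :=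
        gg_mono hsub subset_union_left P
      have h5 : ∑ P' ∈ A, gg Y Ks col NC T2 T3 cg M J N c Sk D P' ≤
          ∑ P' ∈ A, gg Y Ks col NC T2 T3 cg M J N c Sk' (D ∪ A1) P' :=
        sum_le_sum fun P' _ => gg_mono hsub subset_union_left P'
      have h6 : M * (M * (E.card + ∑ Q ∈ D ∪ A1, dct cg (D ∪ A1) Q) +
          2 * c * (N + 2 * J ^ 2) * (D ∪ A1).card) ≤
          M * (M * (E.card + ∑ Q ∈ D, dct cg D Q) + 2 * c * (N + 2 * J ^ 2) * D.card) +
          M * ∑ Q ∈ A1, wt Y col cg M J N c D Q := by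
        rw [h3, ← mul_add]
        apply Nat.mul_le_mul_left
        calc M * (E.card + ∑ Q ∈ D ∪ A1, dct cg (D ∪ A1) Q) +
              2 * c * (N + 2 * J ^ 2) * (D ∪ A1).card
            ≤ M * (E.card + (∑ Q ∈ D, dct cg D Q +
                ∑ Q ∈ A1, (2 * dct cg D Q + same Y col cg Q))) +
              2 * c * (N + 2 * J ^ 2) * (D.card + A1.card) := by gcongr
          _ = _ := by ring
      omega

open Classical in
lemma Sk_card (hln : ∀ P ∈ S, ln P < J) {A : Finset α} {Sk : κ → Finset α} {E : Finset α}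
    {D : Finset β} (hI : Inv Y Ks col ln NC T2 T3 cg M J N c A Sk E D) (hA : A ⊆ S) (k : κ) :
    (Sk k).card ≤ 2 * J := by
  have h1 : ∀ P ∈ Sk k, ln P ∈ range J := fun P hP => mem_range.2 (hln P (hA (hI.hS k hP)))
  rw [card_eq_sum_card_fiberwise h1]
  have h2 : ∑ i ∈ range J, ((Sk k).filter (fun P => ln P = i)).card ≤ ∑ i ∈ range J, 2 :=
    sum_le_sum fun i _ => by convert hI.hcap k i
  refine h2.trans ?_
  rw [sum_const, card_range, smul_eq_mul]
  omega

open Classical in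
lemma sum_bad_le (hln : ∀ P ∈ S, ln P < J)
    (h3 : ∀ P1 ∈ S, ∀ P2 ∈ S, P1 ≠ P2 → (S.filter (fun P => T3 P P1 P2)).card ≤ J)
    {Sk : κ → Finset α} {E : Finset α}
    {D : Finset β} (hI : Inv Y Ks col ln NC T2 T3 cg M J N c S Sk E D) :
    ∑ P ∈ S, (Ks.filter (bad T3 Sk P)).card ≤ Ks.card * (4 * J ^ 3) := by
  have e1 : ∑ P ∈ S, (Ks.filter (bad T3 Sk P)).card =
      ∑ k ∈ Ks, (S.filter (fun P => bad T3 Sk P k)).card := by
    simp only [card_filter]
    rw [sum_comm]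
  rw [e1, ← smul_eq_mul]
  apply sum_le_card_nsmul
  intro k _
  have hsub : S.filter (fun P => bad T3 Sk P k) ⊆
      ((Sk k ×ˢ Sk k).filter (fun z => z.1 ≠ z.2)).biUnion (fun z => S.filter (fun P => T3 P z.1 z.2)) := by
    intro P hP
    obtain ⟨hP, P1, h1, P2, h2, h12, ht⟩ := mem_filter.1 hP
    rw [mem_biUnion]
    exact ⟨(P1, P2), mem_filter.2 ⟨mem_product.2 ⟨h1, h2⟩, h12⟩, mem_filter.2 ⟨hP, ht⟩⟩
  refine (card_le_card hsub).trans ?_
  have h4 : (((Sk k ×ˢ Sk k).filter (fun z => z.1 ≠ z.2)).biUnion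
      (fun z => S.filter (fun P => T3 P z.1 z.2))).card ≤
      ((Sk k ×ˢ Sk k).filter (fun z => z.1 ≠ z.2)).card * J := by
    apply card_biUnion_le_card_mul
    intro z hz
    obtain ⟨hz, hne⟩ := mem_filter.1 hz
    obtain ⟨hz1, hz2⟩ := mem_product.1 hz
    exact h3 _ (hI.hS k hz1) _ (hI.hS k hz2) hne
  refine h4.trans ?_
  have h5 : ((Sk k ×ˢ Sk k).filter (fun z => z.1 ≠ z.2)).card ≤ (2 * J) * (2 * J) := by
    refine (card_filter_le _ _).trans ?_
    rw [card_product]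
    have := Sk_card hln hI subset_rfl k
    exact Nat.mul_le_mul this this
  calc _ ≤ (2 * J) * (2 * J) * J := Nat.mul_le_mul_right J h5
    _ = 4 * J ^ 3 := by ring

open Classical in
lemma aff_card_le (hln : ∀ P ∈ S, ln P < J)
    (hN : ∀ Q ∈ Y, (S.filter (fun P => NC P Q)).card ≤ N)
    (h2 : ∀ Q ∈ Y, ∀ P1 ∈ S, (S.filter (fun P => T2 P P1 Q)).card ≤ J)
    {Sk : κ → Finset α} {E : Finset α}
    {D : Finset β} (hI : Inv Y Ks col ln NC T2 T3 cg M J N c S Sk E D) (Q : β) (hQ : Q ∈ Y) :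
    (S.filter (fun P => aff col NC T2 Sk P Q)).card ≤ N + 2 * J ^ 2 := by
  have hsub : S.filter (fun P => aff col NC T2 Sk P Q) ⊆
      S.filter (fun P => NC P Q) ∪ (Sk (col Q)).biUnion (fun P1 => S.filter (fun P => T2 P P1 Q)) := by
    intro P hP
    obtain ⟨hP, h | ⟨P1, h1, h2⟩⟩ := mem_filter.1 hP
    · exact mem_union_left _ (mem_filter.2 ⟨hP, h⟩)
    · exact mem_union_right _ (mem_biUnion.2 ⟨P1, h1, mem_filter.2 ⟨hP, h2⟩⟩)
  refine (card_le_card hsub).trans ((card_union_le _ _).trans ?_)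
  refine Nat.add_le_add (hN Q hQ) ?_
  have h4 : ((Sk (col Q)).biUnion (fun P1 => S.filter (fun P => T2 P P1 Q))).card ≤
      (Sk (col Q)).card * J :=
    card_biUnion_le_card_mul _ _ _ fun P1 hP1 => h2 Q hQ P1 (hI.hS _ hP1)
  refine h4.trans ?_
  calc _ ≤ (2 * J) * J := Nat.mul_le_mul_right J (Sk_card hln hI subset_rfl _)
    _ = 2 * J ^ 2 := by ring

open Classical in
/-- **The greedy assignment lemma.** -/
theorem greedy (hM : 0 < M)
    (hln : ∀ P ∈ S, ln P < J)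
    (hcap : ∀ i, (S.filter (fun P => ln P = i)).card + 2 * M ≤ 2 * Ks.card)
    (hN : ∀ Q ∈ Y, (S.filter (fun P => NC P Q)).card ≤ N)
    (h2 : ∀ Q ∈ Y, ∀ P1 ∈ S, (S.filter (fun P => T2 P P1 Q)).card ≤ J)
    (h3 : ∀ P1 ∈ S, ∀ P2 ∈ S, P1 ≠ P2 → (S.filter (fun P => T3 P P1 P2)).card ≤ J)
    (hcs : ∀ Q Q', cg Q Q' → cg Q' Q)
    (hc : ∀ Q ∈ Y, (Y.filter (fun Q' => Q ≠ Q' ∧ cg Q Q')).card ≤ c)
    (hG : ((Y ×ˢ Y).filter (fun z => z.1 ≠ z.2 ∧ cg z.1 z.2 ∧ col z.1 = col z.2)).card ≤ G) :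
    ∃ (Sk : κ → Finset α) (E : Finset α) (D : Finset β),
      D ⊆ Y ∧ E ⊆ S ∧ (∀ k, Sk k ⊆ S) ∧ (∀ P ∈ S, P ∈ E ∨ ∃ k ∈ Ks, P ∈ Sk k) ∧
      (∀ k i, ((Sk k).filter (fun P => ln P = i)).card ≤ 2) ∧
      (∀ k ∈ Ks, ∀ P ∈ Sk k, ∀ Q ∈ Y, col Q = k → NC P Q → Q ∈ D) ∧
      (∀ k ∈ Ks, ∀ P ∈ Sk k, ∀ P1 ∈ Sk k, P ≠ P1 → ∀ Q ∈ Y, col Q = k → T2 P P1 Q →
        T2 P1 P Q → Q ∈ D) ∧
      (∀ k ∈ Ks, ∀ P ∈ Sk k, ∀ P1 ∈ Sk k, ∀ P2 ∈ Sk k, P ≠ P1 → P ≠ P2 → P1 ≠ P2 →
        ¬ (T3 P P1 P2 ∧ T3 P1 P P2 ∧ T3 P2 P P1)) ∧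
      M ^ 2 * (E.card + ((D ×ˢ D).filter (fun z => z.1 ≠ z.2 ∧ cg z.1 z.2)).card) ≤
        M * (4 * J ^ 3 * Ks.card + (N + 2 * J ^ 2) * G) + 2 * c * (N + 2 * J ^ 2) ^ 2 * Y.card := by
  have hex : ∀ A : Finset α, A ⊆ S → ∃ Sk E D, Inv Y Ks col ln NC T2 T3 cg M J N c A Sk E D := by
    intro A
    induction A using Finset.induction_on with
    | empty =>
      intro _
      refine ⟨fun _ => ∅, ∅, ∅, ?_⟩
      refine ⟨empty_subset _, subset_rfl, fun _ => subset_rfl, by simp, by simp, by simp, by simp,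
        by simp, by simp, by simp⟩
    | insert P A hPA ih =>
      intro hAS
      exact inv_step hM hcap hcs A P hPA ((subset_insert _ _).trans hAS)
        (ih ((subset_insert _ _).trans hAS))
  obtain ⟨Sk, E, D, hI⟩ := hex S subset_rfl
  refine ⟨Sk, E, D, hI.hD, hI.hE, hI.hS, hI.hcov, fun k i => by convert hI.hcap k i, hI.hNC,
    hI.hT2, hI.hT3, ?_⟩
  rw [pairs_eq]
  have hp := hI.hpot
  have b1 := sum_bad_le hln h3 hI
  have b2 : ∑ P ∈ S, ∑ Q ∈ Y.filter (aff col NC T2 Sk P), wt Y col cg M J N c D Q ≤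
      (N + 2 * J ^ 2) * ∑ Q ∈ Y, wt Y col cg M J N c D Q := by
    have e1 : ∑ P ∈ S, ∑ Q ∈ Y.filter (aff col NC T2 Sk P), wt Y col cg M J N c D Q =
        ∑ Q ∈ Y, (S.filter (fun P => aff col NC T2 Sk P Q)).card * wt Y col cg M J N c D Q := by
      simp only [sum_filter]
      rw [sum_comm]
      refine sum_congr rfl fun Q _ => ?_
      rw [← sum_filter, sum_const, smul_eq_mul]
    rw [e1, mul_sum]
    exact sum_le_sum fun Q hQ => Nat.mul_le_mul_right _ (aff_card_le hln hN h2 hI Q hQ)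
  have b3 : ∑ Q ∈ Y, dct cg D Q ≤ c * D.card := by
    rw [dct_sum_comm cg hcs Y D, mul_comm, ← smul_eq_mul]
    apply sum_le_card_nsmul
    intro Q hQ
    exact hc Q (hI.hD hQ)
  have b4 : ∑ Q ∈ Y, same Y col cg Q ≤ G := by
    refine le_trans (le_of_eq ?_) hG
    unfold same
    rw [card_filter, sum_product]
    refine sum_congr rfl fun Q _ => ?_
    rw [card_filter]
  have b5 : ∑ Q ∈ Y, wt Y col cg M J N c D Q ≤
      M * (2 * (c * D.card) + G) + 2 * c * (N + 2 * J ^ 2) * Y.card := by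
    have e : ∑ Q ∈ Y, wt Y col cg M J N c D Q = M * (2 * ∑ Q ∈ Y, dct cg D Q +
        ∑ Q ∈ Y, same Y col cg Q) + 2 * c * (N + 2 * J ^ 2) * Y.card := by
      unfold wt
      rw [sum_add_distrib, ← mul_sum, sum_add_distrib, ← mul_sum, sum_const, smul_eq_mul]
      ring
    rw [e]
    gcongr
  have b6 : ∑ P ∈ S, gg Y Ks col NC T2 T3 cg M J N c Sk D P ≤
      M * (Ks.card * (4 * J ^ 3)) + (N + 2 * J ^ 2) * (M * (2 * (c * D.card) + G) +
        2 * c * (N + 2 * J ^ 2) * Y.card) := by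
    have e : ∑ P ∈ S, gg Y Ks col NC T2 T3 cg M J N c Sk D P =
        M * ∑ P ∈ S, (Ks.filter (bad T3 Sk P)).card +
        ∑ P ∈ S, ∑ Q ∈ Y.filter (aff col NC T2 Sk P), wt Y col cg M J N c D Q := by
      unfold gg
      rw [sum_add_distrib, ← mul_sum]
    rw [e]
    refine Nat.add_le_add (Nat.mul_le_mul_left M b1) (b2.trans (Nat.mul_le_mul_left _ b5))
  have b7 := hp.trans b6
  nlinarith [b7]

end

end Pool.Agent.ArcGrid
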