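import Pool.Agent.ArcGrid.NQ
import Pool.Agent.ArcGrid.GB
import Pool.Agent.ArcGrid.Greedy2

/-!
# The augmentation lemma, finite form
-/

set_option autoImplicit false

namespace Pool.Agent.ArcGrid

open Finset

lemma col_two_fst {P P' A B : ℤ × ℤ} (h : Col P A B) (h' : Col P' A B) (hAB : A ≠ B) (hP : P ≠ P')
    (he : P.1 = P'.1) : A.1 = P.1 ∧ B.1 = P.1 := by
  unfold Col at h h'
  have h2 : P'.2 - P.2 ≠ 0 := by
    intro h0
    apply hP
    ext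
    · exact he
    · linarith
  rw [← he] at h'
  have e1 : (A.1 - B.1) * (P'.2 - P.2) = 0 := by linear_combination h - h'
  have e2 : A.1 = B.1 := by
    rcases mul_eq_zero.1 e1 with h3 | h3
    · linarith
    · exact absurd h3 h2
  have e3 : (B.1 - P.1) * (B.2 - A.2) = 0 := by rw [e2] at h; linear_combination h
  rcases mul_eq_zero.1 e3 with h3 | h3
  · exact ⟨by linarith, by linarith⟩
  · exfalso
    apply hAB
    ext
    · exact e2
    · linarith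

lemma Col.swap {P Q R : ℤ × ℤ} (h : Col P Q R) : Col P.swap Q.swap R.swap := by
  unfold Col at *
  simp only [Prod.fst_swap, Prod.snd_swap]
  linarith

lemma col_two_snd {P P' A B : ℤ × ℤ} (h : Col P A B) (h' : Col P' A B) (hAB : A ≠ B) (hP : P ≠ P')
    (he : P.2 = P'.2) : A.2 = P.2 ∧ B.2 = P.2 := by
  have := col_two_fst h.swap h'.swap (fun h => hAB (Prod.swap_injective h))
    (fun h => hP (Prod.swap_injective h)) he
  exact this

/-- the line number of a point of a missing line -/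
def lnn (K p : ℕ) (P : ℤ × ℤ) : ℕ :=
  if (p : ℤ) ∣ P.1 then (2 * (P.1 / p + K)).toNat else (2 * (P.2 / p + K) + 1).toNat

/-- on exactly one family of missing lines -/
def OnS (p : ℕ) (P : ℤ × ℤ) : Prop :=
  ((p : ℤ) ∣ P.1 ∧ ¬ (p : ℤ) ∣ P.2) ∨ (¬ (p : ℤ) ∣ P.1 ∧ (p : ℤ) ∣ P.2)

lemma lnn_eq {K p : ℕ} (hp : 0 < p) {P P' : ℤ × ℤ} (h : OnS p P) (h' : OnS p P')
    (hb : |P.1| ≤ K * p ∧ |P.2| ≤ K * p) (hb' : |P'.1| ≤ K * p ∧ |P'.2| ≤ K * p)
    (he : lnn K p P = lnn K p P') :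
    ((p : ℤ) ∣ P.1 ∧ P.1 = P'.1) ∨ (¬ (p : ℤ) ∣ P.1 ∧ (p : ℤ) ∣ P.2 ∧ P.2 = P'.2) := by
  have hp0 : (0 : ℤ) < p := by exact_mod_cast hp
  have q1 := mem_Icc.1 (fdiv_mem hp hb.1)
  have q2 := mem_Icc.1 (fdiv_mem hp hb.2)
  have q3 := mem_Icc.1 (fdiv_mem hp hb'.1)
  have q4 := mem_Icc.1 (fdiv_mem hp hb'.2)
  unfold lnn at he
  by_cases h1 : (p : ℤ) ∣ P.1
  · left
    refine ⟨h1, ?_⟩
    by_cases h2 : (p : ℤ) ∣ P'.1
    · rw [if_pos h1, if_pos h2] at he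
      have e : P.1 / p = P'.1 / p := by omega
      rw [← Int.ediv_mul_cancel h1, ← Int.ediv_mul_cancel h2, e]
    · rw [if_pos h1, if_neg h2] at he
      omega
  · right
    have h1' : (p : ℤ) ∣ P.2 := by
      rcases h with h | h
      · exact absurd h.1 h1
      · exact h.2
    refine ⟨h1, h1', ?_⟩
    by_cases h2 : (p : ℤ) ∣ P'.1
    · rw [if_neg h1, if_pos h2] at he
      omega
    · rw [if_neg h1, if_neg h2] at he
      have h2' : (p : ℤ) ∣ P'.2 := by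
        rcases h' with h | h
        · exact absurd h.1 h2
        · exact h.2
      have e : P.2 / p = P'.2 / p := by omega
      rw [← Int.ediv_mul_cancel h1', ← Int.ediv_mul_cancel h2', e]

lemma lnn_lt {K p : ℕ} (hp : 0 < p) {P : ℤ × ℤ} (hb : |P.1| ≤ K * p ∧ |P.2| ≤ K * p) :
    lnn K p P < 4 * K + 2 := by
  have q1 := mem_Icc.1 (fdiv_mem hp hb.1)
  have q2 := mem_Icc.1 (fdiv_mem hp hb.2)
  unfold lnn
  split_ifs <;> omega

open Classical in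
lemma lnn_inj_card {K p : ℕ} (hp : 0 < p) (S : Finset (ℤ × ℤ)) (hS : ∀ P ∈ S, OnS p P)
    (hb : ∀ P ∈ S, |P.1| ≤ K * p ∧ |P.2| ≤ K * p) (C : ℤ × ℤ → Prop)
    (hinj : ∀ P ∈ S, ∀ P' ∈ S, C P → C P' → lnn K p P = lnn K p P' → P ≠ P' → False) :
    (S.filter C).card ≤ 4 * K + 2 := by
  have : (S.filter C).card ≤ (range (4 * K + 2)).card := by
    apply card_le_card_of_injOn (lnn K p)
    · intro P hP
      simp only [coe_range, Set.mem_Iio]
      exact lnn_lt hp (hb P (mem_filter.1 hP).1)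
    · intro P hP P' hP' he
      by_contra hne
      obtain ⟨h1, h2⟩ := mem_filter.1 hP
      obtain ⟨h3, h4⟩ := mem_filter.1 hP'
      exact hinj P h1 P' h3 h2 h4 he hne
  rwa [card_range] at this

open Classical in
theorem aug_fin (K L p r M D : ℕ) (hp : p.Prime) (hr : r.Prime) (hrp : r < p) (hLp : L < p)
    (hL : 2 * K * p ≤ L * r) (hM : 0 < M)
    (hD : ∀ m : ℕ, 1 ≤ m → m ≤ 4 * K * p → m.divisors.card ≤ D)
    (Y : Finset (ℤ × ℤ)) (hb : ∀ P ∈ Y, |P.1| ≤ K * p ∧ |P.2| ≤ K * p)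
    (hA1 : ∀ k : ZMod p, k ≠ 0 → IsArc {P | P ∈ Y ∧ ((P.1 * P.2 : ℤ) : ZMod p) = k})
    (hx : ∀ i : ℤ, (Y.filter (fun P => P.1 = i * p)).card + 2 * M ≤ 2 * (p - 1))
    (hy : ∀ i : ℤ, (Y.filter (fun P => P.2 = i * p)).card + 2 * M ≤ 2 * (p - 1)) :
    ∃ x : ℕ, Cov Y ((p - 1) + r + x + (2 * K + 1) ^ 2) ∧
      M ^ 2 * x ≤ M * (4 * (4 * K + 2) ^ 3 * (p - 1) +
        (2 * (4 * (2 * K + 1) * (6 * K + 1) * D ^ 2 + (2 * K + 1) * (4 * K + 1) ^ 2) +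
          2 * (4 * K + 2) ^ 2) * (2 * ((2 * L + 1) ^ 2 * ((2 * K * p + 1) * (2 * K + 1))))) +
        2 * (2 * L + 1) ^ 2 *
        (2 * (4 * (2 * K + 1) * (6 * K + 1) * D ^ 2 + (2 * K + 1) * (4 * K + 1) ^ 2) +
          2 * (4 * K + 2) ^ 2) ^ 2 * (2 * K * p + 1) ^ 2 := by
  haveI := Fact.mk hp
  have hp0 : (0 : ℤ) < p := by exact_mod_cast hp.pos
  set S := Y.filter (OnS p) with hS
  set Yo := Y.filter (fun P => ¬ (p : ℤ) ∣ P.1 ∧ ¬ (p : ℤ) ∣ P.2) with hYo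
  set X0 := Y.filter (fun P => (p : ℤ) ∣ P.1 ∧ (p : ℤ) ∣ P.2) with hX0
  set col : ℤ × ℤ → ZMod p := fun Q => ((Q.1 * Q.2 : ℤ) : ZMod p) with hcol
  set Ks : Finset (ZMod p) := univ.filter (fun k => k ≠ 0) with hKs
  have hKc : Ks.card = p - 1 := by
    rw [hKs, filter_ne' univ (0 : ZMod p), card_erase_of_mem (mem_univ _), card_univ, ZMod.card]
  have hbS : ∀ P ∈ S, |P.1| ≤ K * p ∧ |P.2| ≤ K * p := fun P hP => hb P (mem_filter.1 hP).1
  have hbY : ∀ P ∈ Yo, |P.1| ≤ K * p ∧ |P.2| ≤ K * p := fun P hP => hb P (mem_filter.1 hP).1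
  have hOn : ∀ P ∈ S, OnS p P := fun P hP => (mem_filter.1 hP).2
  have hSY : ∀ P ∈ S, ∀ Q ∈ Yo, P ≠ Q := by
    rintro P hP Q hQ rfl
    have h1 := (mem_filter.1 hQ).2
    rcases hOn P hP with h | h
    · exact h1.1 h.1
    · exact h1.2 h.2
  have hcol0 : ∀ Q ∈ Yo, col Q ≠ 0 := by
    intro Q hQ h0
    have h1 := (mem_filter.1 hQ).2
    rw [hcol] at h0
    simp only at h0
    rw [ZMod.intCast_zmod_eq_zero_iff_dvd] at h0
    rcases (Nat.prime_iff_prime_int.1 hp).dvd_or_dvd h0 with h | h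
    · exact h1.1 h
    · exact h1.2 h
  have hcold : ∀ Q R : ℤ × ℤ, col R = col Q → (p : ℤ) ∣ R.1 * R.2 - Q.1 * Q.2 := by
    intro Q R h
    rw [hcol] at h
    simp only at h
    exact (ZMod.intCast_eq_intCast_iff_dvd_sub _ _ _).1 h.symm
  set NC : ℤ × ℤ → ℤ × ℤ → Prop := fun P Q => ∃ R ∈ Yo, R ≠ Q ∧ col R = col Q ∧ Col P Q R with hNC
  set T2 : ℤ × ℤ → ℤ × ℤ → ℤ × ℤ → Prop := fun P P1 Q => P ≠ P1 ∧ Col P P1 Q with hT2
  set T3 : ℤ × ℤ → ℤ × ℤ → ℤ × ℤ → Prop := fun P P1 P2 => Col P P1 P2 ∧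
    ¬ (lnn K p P1 = lnn K p P ∧ lnn K p P2 = lnn K p P) with hT3
  -- hypotheses of the greedy lemma
  have g1 : ∀ P ∈ S, lnn K p P < 4 * K + 2 := fun P hP => lnn_lt hp.pos (hbS P hP)
  have g2 : ∀ i, (S.filter (fun P => lnn K p P = i)).card + 2 * M ≤ 2 * Ks.card := by
    intro i
    rw [hKc]
    rcases Nat.even_or_odd' i with ⟨j, hj | hj⟩
    · refine le_trans (Nat.add_le_add_right (card_le_card ?_) _) (hx ((j : ℤ) - K))
      intro P hP
      obtain ⟨hP, he⟩ := mem_filter.1 hP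
      have q1 := mem_Icc.1 (fdiv_mem hp.pos (hbS P hP).1)
      have q2 := mem_Icc.1 (fdiv_mem hp.pos (hbS P hP).2)
      refine mem_filter.2 ⟨(mem_filter.1 hP).1, ?_⟩
      unfold lnn at he
      by_cases h1 : (p : ℤ) ∣ P.1
      · rw [if_pos h1] at he
        have e : P.1 / p = (j : ℤ) - K := by omega
        rw [← Int.ediv_mul_cancel h1, e]
      · rw [if_neg h1] at he
        omega
    · refine le_trans (Nat.add_le_add_right (card_le_card ?_) _) (hy ((j : ℤ) - K))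
      intro P hP
      obtain ⟨hP, he⟩ := mem_filter.1 hP
      have q1 := mem_Icc.1 (fdiv_mem hp.pos (hbS P hP).1)
      have q2 := mem_Icc.1 (fdiv_mem hp.pos (hbS P hP).2)
      refine mem_filter.2 ⟨(mem_filter.1 hP).1, ?_⟩
      unfold lnn at he
      by_cases h1 : (p : ℤ) ∣ P.1
      · rw [if_pos h1] at he
        omega
      · rw [if_neg h1] at he
        have h2 : (p : ℤ) ∣ P.2 := by
          rcases hOn P hP with h | h
          · exact absurd h.1 h1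
          · exact h.2
        have e : P.2 / p = (j : ℤ) - K := by omega
        rw [← Int.ediv_mul_cancel h2, e]
  have g3 : ∀ Q ∈ Yo, (S.filter (fun P => NC P Q)).card ≤
      2 * (4 * (2 * K + 1) * (6 * K + 1) * D ^ 2 + (2 * K + 1) * (4 * K + 1) ^ 2) := by
    intro Q hQ
    have hQ' := (mem_filter.1 hQ).2
    set X := S.filter (fun P => NC P Q) with hX
    have hsplit := card_filter_add_card_filter_not (s := X) (fun P => (p : ℤ) ∣ P.1)
    have h1 : (X.filter (fun P => (p : ℤ) ∣ P.1)).card ≤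
        4 * (2 * K + 1) * (6 * K + 1) * D ^ 2 + (2 * K + 1) * (4 * K + 1) ^ 2 := by
      apply nq_card K p D hp hD Q hQ'.1 hQ'.2 (hbY Q hQ).1 (hbY Q hQ).2
      intro P hP
      obtain ⟨hP, hd⟩ := mem_filter.1 hP
      obtain ⟨hP, R, hR, hRQ, hc, hcl⟩ := mem_filter.1 hP
      exact ⟨hd, (hbS P hP).1, (hbS P hP).2, R, (hbY R hR).1, (hbY R hR).2, hRQ, hcold _ _ hc, hcl⟩
    have h2 : (X.filter (fun P => ¬ (p : ℤ) ∣ P.1)).card ≤
        4 * (2 * K + 1) * (6 * K + 1) * D ^ 2 + (2 * K + 1) * (4 * K + 1) ^ 2 := by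
      rw [← card_image_of_injective _ (Prod.swap_injective (α := ℤ) (β := ℤ))]
      apply nq_card K p D hp hD Q.swap hQ'.2 hQ'.1 (hbY Q hQ).2 (hbY Q hQ).1
      intro P hP
      obtain ⟨P0, hP0, rfl⟩ := mem_image.1 hP
      obtain ⟨hP, hd⟩ := mem_filter.1 hP0
      obtain ⟨hP, R, hR, hRQ, hc, hcl⟩ := mem_filter.1 hP
      have hd2 : (p : ℤ) ∣ P0.2 := by
        rcases hOn P0 hP with h | h
        · exact absurd h.1 hd
        · exact h.2
      refine ⟨hd2, (hbS P0 hP).2, (hbS P0 hP).1, R.swap, (hbY R hR).2, (hbY R hR).1,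
        fun h => hRQ (Prod.swap_injective h), ?_, hcl.swap⟩
      have := hcold _ _ hc
      simp only [Prod.fst_swap, Prod.snd_swap]
      have e : R.2 * R.1 - Q.2 * Q.1 = R.1 * R.2 - Q.1 * Q.2 := by ring
      rw [e]; exact this
    omega
  have g4 : ∀ Q ∈ Yo, ∀ P1 ∈ S, (S.filter (fun P => T2 P P1 Q)).card ≤ 4 * K + 2 := by
    intro Q hQ P1 hP1
    have hQ' := (mem_filter.1 hQ).2
    have key := lnn_inj_card hp.pos S hOn hbS (fun P => T2 P P1 Q) ?_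
    · convert key
    intro P hP P' hP' hC hC' he hne
    rcases lnn_eq hp.pos (hOn P hP) (hOn P' hP') (hbS P hP) (hbS P' hP') he with h | h
    · have := (col_two_fst hC.2 hC'.2 (hSY P1 hP1 Q hQ) hne h.2).2
      rw [← this] at h
      exact hQ'.1 h.1
    · have := (col_two_snd hC.2 hC'.2 (hSY P1 hP1 Q hQ) hne h.2.2).2
      rw [← this] at h
      exact hQ'.2 h.2.1
  have g5 : ∀ P1 ∈ S, ∀ P2 ∈ S, P1 ≠ P2 → (S.filter (fun P => T3 P P1 P2)).card ≤ 4 * K + 2 := by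
    intro P1 hP1 P2 hP2 h12
    have key := lnn_inj_card hp.pos S hOn hbS (fun P => T3 P P1 P2) ?_
    · convert key
    intro P hP P' hP' hC hC' he hne
    apply hC.2
    rcases lnn_eq hp.pos (hOn P hP) (hOn P' hP') (hbS P hP) (hbS P' hP') he with h | h
    · obtain ⟨e1, e2⟩ := col_two_fst hC.1 hC'.1 h12 hne h.2
      unfold lnn
      rw [e1, e2, if_pos h.1, if_pos h.1, if_pos h.1]
      exact ⟨rfl, rfl⟩
    · obtain ⟨e1, e2⟩ := col_two_snd hC.1 hC'.1 h12 hne h.2.2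
      have n1 : ¬ (p : ℤ) ∣ P1.1 := by
        rcases hOn P1 hP1 with h' | h'
        · exact absurd (e1 ▸ h.2.1) h'.2
        · exact h'.1
      have n2 : ¬ (p : ℤ) ∣ P2.1 := by
        rcases hOn P2 hP2 with h' | h'
        · exact absurd (e2 ▸ h.2.1) h'.2
        · exact h'.1
      unfold lnn
      rw [if_neg n1, if_neg n2, if_neg h.1, e1, e2]
      exact ⟨rfl, rfl⟩
  have g6 : ∀ Q Q' : ℤ × ℤ, Cong r Q Q' → Cong r Q' Q := fun _ _ h => h.symm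
  have g7 : ∀ Q ∈ Yo, (Yo.filter (fun Q' => Q ≠ Q' ∧ Cong r Q Q')).card ≤ (2 * L + 1) ^ 2 :=
    fun Q hQ => c_card K L p r hr.pos hL Yo hbY Q hQ
  have g8 : ((Yo ×ˢ Yo).filter (fun z => z.1 ≠ z.2 ∧ Cong r z.1 z.2 ∧ col z.1 = col z.2)).card ≤
      2 * ((2 * L + 1) ^ 2 * ((2 * K * p + 1) * (2 * K + 1))) :=
    g_card K L p r hp hr.pos hrp hLp hL Yo hbY
  obtain ⟨Sk, E, Dl, hDY, hES, hSkS, hcov, hcap2, hNCd, hT2d, hT3d, hbound⟩ :=
    greedy (S := S) (Y := Yo) (Ks := Ks) (col := col) (ln := lnn K p) (NC := NC) (T2 := T2)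
      (T3 := T3) (cg := Cong r) hM g1 (by convert g2) (by convert g3) (by convert g4)
      (by convert g5) g6 (by convert g7) (by convert g8)
  -- arcs
  have f1 : ∀ k ∈ Ks, ∀ P ∈ Sk k, ∀ Q ∈ Yo, col Q = k → Q ∉ Dl → ∀ R ∈ Yo, col R = k → Q ≠ R →
      ¬ Col P Q R := by
    intro k hk P hP Q hQ hQk hQD R hR hRk hQR hc
    exact hQD (hNCd k hk P hP Q hQ hQk ⟨R, hR, hQR.symm, hRk.trans hQk.symm, hc⟩)
  have f2 : ∀ k ∈ Ks, ∀ P ∈ Sk k, ∀ P1 ∈ Sk k, P ≠ P1 → ∀ Q ∈ Yo, col Q = k → Q ∉ Dl →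
      ¬ Col P P1 Q := by
    intro k hk P hP P1 hP1 hne Q hQ hQk hQD hc
    exact hQD (hT2d k hk P hP P1 hP1 hne Q hQ hQk ⟨hne, hc⟩ ⟨hne.symm, hc.swap12⟩)
  have f3 : ∀ k ∈ Ks, ∀ P ∈ Sk k, ∀ P1 ∈ Sk k, ∀ P2 ∈ Sk k, P ≠ P1 → P ≠ P2 → P1 ≠ P2 →
      ¬ Col P P1 P2 := by
    intro k hk P hP P1 hP1 P2 hP2 h01 h02 h12 hc
    have hn : ¬ (lnn K p P1 = lnn K p P ∧ lnn K p P2 = lnn K p P) := by
      rintro ⟨e1, e2⟩
      have h3 := hcap2 k (lnn K p P)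
      have h4 : ({P, P1, P2} : Finset (ℤ × ℤ)) ⊆ (Sk k).filter (fun P' => lnn K p P' = lnn K p P) := by
        intro z hz
        rw [mem_insert, mem_insert, mem_singleton] at hz
        rcases hz with rfl | rfl | rfl
        · exact mem_filter.2 ⟨hP, rfl⟩
        · exact mem_filter.2 ⟨hP1, e1⟩
        · exact mem_filter.2 ⟨hP2, e2⟩
      have h5 := card_le_card h4
      rw [card_eq_three.2 ⟨P, P1, P2, h01, h02, h12, rfl⟩] at h5
      omega
    refine hT3d k hk P hP P1 hP1 P2 hP2 h01 h02 h12 ⟨⟨hc, hn⟩, ⟨hc.swap12, ?_⟩, ⟨hc.swap23.swap12, ?_⟩⟩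
    · rintro ⟨e1, e2⟩
      exact hn ⟨e1.symm, e2.trans e1.symm⟩
    · rintro ⟨e1, e2⟩
      exact hn ⟨e2.trans e1.symm, e1.symm⟩
  have harc : ∀ k ∈ Ks, IsArc {P | (P ∈ Yo ∧ col P = k ∧ P ∉ Dl) ∨ P ∈ Sk k} := by
    intro k hk P hP Q hQ R hR hPQ hPR hQR hc
    have hk0 : k ≠ 0 := (mem_filter.1 hk).2
    rcases hP with ⟨hP, hPk, hPD⟩ | hP
    · rcases hQ with ⟨hQ, hQk, hQD⟩ | hQ
      · rcases hR with ⟨hR, hRk, hRD⟩ | hR
        · exact hA1 k hk0 P ⟨(mem_filter.1 hP).1, hPk⟩ Q ⟨(mem_filter.1 hQ).1, hQk⟩ R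
            ⟨(mem_filter.1 hR).1, hRk⟩ hPQ hPR hQR hc
        · exact f1 k hk R hR P hP hPk hPD Q hQ hQk hPQ (hc.rot.rot)
      · rcases hR with ⟨hR, hRk, hRD⟩ | hR
        · exact f1 k hk Q hQ P hP hPk hPD R hR hRk hPR hc.swap12
        · exact f2 k hk Q hQ R hR hQR P hP hPk hPD hc.rot
    · rcases hQ with ⟨hQ, hQk, hQD⟩ | hQ
      · rcases hR with ⟨hR, hRk, hRD⟩ | hR
        · exact f1 k hk P hP Q hQ hQk hQD R hR hRk hQR hc
        · exact f2 k hk P hP R hR hPR Q hQ hQk hQD hc.swap23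
      · rcases hR with ⟨hR, hRk, hRD⟩ | hR
        · exact f2 k hk P hP Q hQ hPQ R hR hRk hRD hc
        · exact f3 k hk P hP Q hQ R hR hPQ hPR hQR hc
  set Z := Y.filter (fun P => ∃ k ∈ Ks, (P ∈ Yo ∧ col P = k ∧ P ∉ Dl) ∨ P ∈ Sk k) with hZ
  have c1 : Cov Z (p - 1) := by
    rw [← hKc]
    exact cov_of_index Ks _ harc Z (fun P hP => (mem_filter.1 hP).2)
  have c2 := cov_parab r hr Dl
  have c3 := cov_card E
  have c4 := cov_card X0
  have hX0c : X0.card ≤ (2 * K + 1) ^ 2 := by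
    have h1 : X0.card ≤ (Icc (-(K : ℤ)) K ×ˢ Icc (-(K : ℤ)) K).card := by
      apply card_le_card_of_injOn (fun P : ℤ × ℤ => (P.1 / p, P.2 / p))
      · intro P hP
        obtain ⟨hP, _⟩ := mem_filter.1 hP
        simp only [coe_product, Set.mem_prod, mem_coe]
        exact ⟨fdiv_mem hp.pos (hb P hP).1, fdiv_mem hp.pos (hb P hP).2⟩
      · intro P hP P' hP' he
        obtain ⟨hP, hd1, hd2⟩ := mem_filter.1 hP
        obtain ⟨hP', hd3, hd4⟩ := mem_filter.1 hP'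
        simp only [Prod.mk.injEq] at he
        ext
        · rw [← Int.ediv_mul_cancel hd1, ← Int.ediv_mul_cancel hd3, he.1]
        · rw [← Int.ediv_mul_cancel hd2, ← Int.ediv_mul_cancel hd4, he.2]
    refine h1.trans (le_of_eq ?_)
    rw [card_product, Int.card_Icc]
    have : ((K : ℤ) + 1 - -(K : ℤ)).toNat = 2 * K + 1 := by omega
    rw [this, sq]
  have hYoc : Yo.card ≤ (2 * K * p + 1) ^ 2 := by
    have h1 : Yo ⊆ Icc (-(K * p : ℤ)) (K * p) ×ˢ Icc (-(K * p : ℤ)) (K * p) := by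
      intro P hP
      rw [mem_product, mem_Icc, mem_Icc]
      exact ⟨abs_le.1 (hbY P hP).1, abs_le.1 (hbY P hP).2⟩
    refine (card_le_card h1).trans (le_of_eq ?_)
    rw [card_product, Int.card_Icc]
    have : ((K * p : ℤ) + 1 - -(K * p : ℤ)) = ((2 * K * p + 1 : ℕ) : ℤ) := by push_cast; ring
    rw [this, Int.toNat_natCast, sq]
  refine ⟨E.card + ((Dl ×ˢ Dl).filter (fun z => z.1 ≠ z.2 ∧ Cong r z.1 z.2)).card, ?_, ?_⟩
  · have c5 := cov_union (cov_union (cov_union c1 c2) c3) c4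
    refine (c5.mono ?_).subset ?_
    · omega
    · intro P hP
      rw [mem_union, mem_union, mem_union]
      by_cases h1 : (p : ℤ) ∣ P.1
      · by_cases h2 : (p : ℤ) ∣ P.2
        · exact Or.inr (mem_filter.2 ⟨hP, h1, h2⟩)
        · rcases hcov P (mem_filter.2 ⟨hP, Or.inl ⟨h1, h2⟩⟩) with h | ⟨k, hk, h⟩
          · exact Or.inl (Or.inr h)
          · exact Or.inl (Or.inl (Or.inl (mem_filter.2 ⟨hP, k, hk, Or.inr h⟩)))
      · by_cases h2 : (p : ℤ) ∣ P.2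
        · rcases hcov P (mem_filter.2 ⟨hP, Or.inr ⟨h1, h2⟩⟩) with h | ⟨k, hk, h⟩
          · exact Or.inl (Or.inr h)
          · exact Or.inl (Or.inl (Or.inl (mem_filter.2 ⟨hP, k, hk, Or.inr h⟩)))
        · have hPY : P ∈ Yo := mem_filter.2 ⟨hP, h1, h2⟩
          by_cases h3 : P ∈ Dl
          · exact Or.inl (Or.inl (Or.inr h3))
          · exact Or.inl (Or.inl (Or.inl (mem_filter.2 ⟨hP, col P, mem_filter.2 ⟨mem_univ _,
              hcol0 P hPY⟩, Or.inl ⟨hPY, rfl, h3⟩⟩)))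
  · rw [hKc] at hbound
    refine le_trans (le_of_eq ?_) (hbound.trans ?_)
    · congr
    · gcongr

end Pool.Agent.ArcGrid
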