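import Pool.Agent.ArcGrid.Aug

/-!
# The augmentation lemma for shifted and for diagonal families
-/

set_option autoImplicit false

namespace Pool.Agent.ArcGrid

open Finset

open Classical in
theorem aug_shift (K : ℕ) (η ε : ℝ) (hη : 0 < η) (hε : 0 < ε) : ∃ p0 : ℕ, ∀ p : ℕ, p.Prime →
    p0 ≤ p → ∀ (a b : ℤ) (Y : Finset (ℤ × ℤ)),
    (∀ P ∈ Y, |P.1 - a| ≤ K * p ∧ |P.2 - b| ≤ K * p) →
    (∀ k : ZMod p, k ≠ 0 → IsArc {P | P ∈ Y ∧ (((P.1 - a) * (P.2 - b) : ℤ) : ZMod p) = k}) →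
    (∀ i : ℤ, ((Y.filter (fun P => P.1 = i)).card : ℝ) ≤ (2 - η) * p) →
    (∀ i : ℤ, ((Y.filter (fun P => P.2 = i)).card : ℝ) ≤ (2 - η) * p) →
    ∃ c : ℕ, (c : ℝ) ≤ (1 + ε) * p ∧ Cov Y c := by
  obtain ⟨p0, h⟩ := aug K η ε hη hε
  refine ⟨p0, fun p hp hp0 a b Y hb hA hx hy => ?_⟩
  set φ : ℤ × ℤ → ℤ × ℤ := fun P => (P.1 - a, P.2 - b) with hφ
  have hinj : Function.Injective φ := by
    intro P Q hPQ
    simp only [hφ, Prod.mk.injEq] at hPQ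
    ext
    · linarith [hPQ.1]
    · linarith [hPQ.2]
  have hcol : ∀ P Q R, Col P Q R ↔ Col (φ P) (φ Q) (φ R) := by
    intro P Q R
    unfold Col
    simp only [hφ]
    constructor <;> intro h' <;> linear_combination h'
  have key := h p hp hp0 (Y.image φ) ?_ ?_ ?_ ?_
  · obtain ⟨c, hc, hcov⟩ := key
    exact ⟨c, hc, cov_of_image φ hinj (fun P Q R h' => (hcol P Q R).1 h') (by convert hcov)⟩
  · intro P hP
    obtain ⟨P0, hP0, rfl⟩ := mem_image.1 hP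
    exact hb P0 hP0
  · intro k hk P hP Q hQ R hR h1 h2 h3 h4
    obtain ⟨hP, hPk⟩ := hP
    obtain ⟨hQ, hQk⟩ := hQ
    obtain ⟨hR, hRk⟩ := hR
    obtain ⟨P0, hP0, rfl⟩ := mem_image.1 hP
    obtain ⟨Q0, hQ0, rfl⟩ := mem_image.1 hQ
    obtain ⟨R0, hR0, rfl⟩ := mem_image.1 hR
    exact hA k hk P0 ⟨hP0, hPk⟩ Q0 ⟨hQ0, hQk⟩ R0 ⟨hR0, hRk⟩ (fun h => h1 (by rw [h]))
      (fun h => h2 (by rw [h])) (fun h => h3 (by rw [h])) ((hcol P0 Q0 R0).2 h4)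
  · intro i
    refine le_trans ?_ (hx (i + a))
    refine Nat.cast_le.2 (le_trans (card_le_card ?_) (card_image_le (f := φ)))
    intro P hP
    obtain ⟨hP, he⟩ := mem_filter.1 hP
    obtain ⟨P0, hP0, rfl⟩ := mem_image.1 hP
    refine mem_image.2 ⟨P0, mem_filter.2 ⟨hP0, ?_⟩, rfl⟩
    simp only [hφ] at he
    linarith
  · intro i
    refine le_trans ?_ (hy (i + b))
    refine Nat.cast_le.2 (le_trans (card_le_card ?_) (card_image_le (f := φ)))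
    intro P hP
    obtain ⟨hP, he⟩ := mem_filter.1 hP
    obtain ⟨P0, hP0, rfl⟩ := mem_image.1 hP
    refine mem_image.2 ⟨P0, mem_filter.2 ⟨hP0, ?_⟩, rfl⟩
    simp only [hφ] at he
    linarith

open Classical in
theorem aug_diag (K : ℕ) (η ε : ℝ) (hη : 0 < η) (hε : 0 < ε) : ∃ p0 : ℕ, ∀ p : ℕ, p.Prime →
    p0 ≤ p → ∀ (s : ℤ) (Y : Finset (ℤ × ℤ)),
    (∀ P ∈ Y, |P.1 - P.2| ≤ K * p ∧ |P.1 + P.2 - s| ≤ K * p) →
    (∀ k : ZMod p, k ≠ 0 →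
      IsArc {P | P ∈ Y ∧ (((P.1 - P.2) * (P.1 + P.2 - s) : ℤ) : ZMod p) = k}) →
    (∀ i : ℤ, ((Y.filter (fun P => P.1 - P.2 = i)).card : ℝ) ≤ (2 - η) * p) →
    (∀ i : ℤ, ((Y.filter (fun P => P.1 + P.2 = i)).card : ℝ) ≤ (2 - η) * p) →
    ∃ c : ℕ, (c : ℝ) ≤ (1 + ε) * p ∧ Cov Y c := by
  obtain ⟨p0, h⟩ := aug K η ε hη hε
  refine ⟨p0, fun p hp hp0 s Y hb hA hx hy => ?_⟩
  set φ : ℤ × ℤ → ℤ × ℤ := fun P => (P.1 - P.2, P.1 + P.2 - s) with hφ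
  have hinj : Function.Injective φ := by
    intro P Q hPQ
    simp only [hφ, Prod.mk.injEq] at hPQ
    ext
    · linarith [hPQ.1, hPQ.2]
    · linarith [hPQ.1, hPQ.2]
  have hcol : ∀ P Q R, Col P Q R ↔ Col (φ P) (φ Q) (φ R) := by
    intro P Q R
    unfold Col
    simp only [hφ]
    constructor
    · intro h'; linear_combination 2 * h'
    · intro h'; linarith
  have key := h p hp hp0 (Y.image φ) ?_ ?_ ?_ ?_
  · obtain ⟨c, hc, hcov⟩ := key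
    exact ⟨c, hc, cov_of_image φ hinj (fun P Q R h' => (hcol P Q R).1 h') (by convert hcov)⟩
  · intro P hP
    obtain ⟨P0, hP0, rfl⟩ := mem_image.1 hP
    exact hb P0 hP0
  · intro k hk P hP Q hQ R hR h1 h2 h3 h4
    obtain ⟨hP, hPk⟩ := hP
    obtain ⟨hQ, hQk⟩ := hQ
    obtain ⟨hR, hRk⟩ := hR
    obtain ⟨P0, hP0, rfl⟩ := mem_image.1 hP
    obtain ⟨Q0, hQ0, rfl⟩ := mem_image.1 hQ
    obtain ⟨R0, hR0, rfl⟩ := mem_image.1 hR
    exact hA k hk P0 ⟨hP0, hPk⟩ Q0 ⟨hQ0, hQk⟩ R0 ⟨hR0, hRk⟩ (fun h => h1 (by rw [h]))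
      (fun h => h2 (by rw [h])) (fun h => h3 (by rw [h])) ((hcol P0 Q0 R0).2 h4)
  · intro i
    refine le_trans ?_ (hx i)
    refine Nat.cast_le.2 (le_trans (card_le_card ?_) (card_image_le (f := φ)))
    intro P hP
    obtain ⟨hP, he⟩ := mem_filter.1 hP
    obtain ⟨P0, hP0, rfl⟩ := mem_image.1 hP
    refine mem_image.2 ⟨P0, mem_filter.2 ⟨hP0, ?_⟩, rfl⟩
    simp only [hφ] at he
    linarith
  · intro i
    refine le_trans ?_ (hy (i + s))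
    refine Nat.cast_le.2 (le_trans (card_le_card ?_) (card_image_le (f := φ)))
    intro P hP
    obtain ⟨hP, he⟩ := mem_filter.1 hP
    obtain ⟨P0, hP0, rfl⟩ := mem_image.1 hP
    refine mem_image.2 ⟨P0, mem_filter.2 ⟨hP0, ?_⟩, rfl⟩
    simp only [hφ] at he
    linarith

end Pool.Agent.ArcGrid
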