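import Pool.Agent.ArcGrid.Defs

/-!
# A line meets a conic in at most two residue classes
-/

set_option autoImplicit false

namespace Pool.Agent.ArcGrid

/-- congruence of lattice points -/
def Cong (m : ℕ) (P Q : ℤ × ℤ) : Prop := (m : ℤ) ∣ P.1 - Q.1 ∧ (m : ℤ) ∣ P.2 - Q.2

lemma Cong.symm {m : ℕ} {P Q : ℤ × ℤ} (h : Cong m P Q) : Cong m Q P := by
  refine ⟨?_, ?_⟩
  · have := (dvd_neg (a := (m:ℤ)) (b := P.1 - Q.1)).2 h.1
    simpa using this
  · have := (dvd_neg (a := (m:ℤ)) (b := P.2 - Q.2)).2 h.2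
    simpa using this

/-- three points of a hyperbola `(x-a)(y-b) = k`, `k ≠ 0`, on a line -/
theorem hyp_cong (p : ℕ) (hp : p.Prime) (a b : ℤ) (k : ZMod p) (hk : k ≠ 0) (P Q R : ℤ × ℤ)
    (hP : (((P.1 - a) * (P.2 - b) : ℤ) : ZMod p) = k)
    (hQ : (((Q.1 - a) * (Q.2 - b) : ℤ) : ZMod p) = k)
    (hR : (((R.1 - a) * (R.2 - b) : ℤ) : ZMod p) = k) (hc : Col P Q R) :
    Cong p P Q ∨ Cong p P R ∨ Cong p Q R := by
  haveI := Fact.mk hp
  unfold Col at hc
  have hc' : ((Q.1 : ZMod p) - P.1) * (R.2 - P.2) = (R.1 - P.1) * (Q.2 - P.2) := by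
    have := congrArg (fun z : ℤ => (z : ZMod p)) hc
    push_cast at this
    exact this
  push_cast at hP hQ hR
  set x1 : ZMod p := (P.1 : ZMod p) - a with hx1
  set y1 : ZMod p := (P.2 : ZMod p) - b with hy1
  set x2 : ZMod p := (Q.1 : ZMod p) - a with hx2
  set y2 : ZMod p := (Q.2 : ZMod p) - b with hy2
  set x3 : ZMod p := (R.1 : ZMod p) - a with hx3
  set y3 : ZMod p := (R.2 : ZMod p) - b with hy3
  have h1 : x1 ≠ 0 := by rintro h; apply hk; rw [← hP, h, zero_mul]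
  have h2 : x2 ≠ 0 := by rintro h; apply hk; rw [← hQ, h, zero_mul]
  have h3 : x3 ≠ 0 := by rintro h; apply hk; rw [← hR, h, zero_mul]
  have hdet : (x2 - x1) * (y3 - y1) = (x3 - x1) * (y2 - y1) := by
    simp only [hx1, hx2, hx3, hy1, hy2, hy3]
    linear_combination hc'
  have hprod : k * ((x2 - x1) * (x3 - x1) * (x3 - x2)) = 0 := by
    linear_combination x1 * x2 * x3 * hdet - (x2 - x1) * (x1 * x2 * hR - x2 * x3 * hP)
      + (x3 - x1) * (x1 * x3 * hQ - x2 * x3 * hP)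
  have hy : ∀ u v u' v' : ZMod p, u * v = k → u' * v' = k → u' - u = 0 → v' - v = 0 := by
    intro u v u' v' h h' hu
    have hu0 : u ≠ 0 := by rintro rfl; apply hk; rw [← h, zero_mul]
    have e : u' = u := sub_eq_zero.1 hu
    have : u * (v' - v) = 0 := by rw [e] at h'; linear_combination h' - h
    exact (mul_eq_zero.1 this).resolve_left hu0
  have hcg : ∀ A B : ℤ × ℤ, (B.1 : ZMod p) - a - ((A.1 : ZMod p) - a) = 0 →
      (B.2 : ZMod p) - b - ((A.2 : ZMod p) - b) = 0 → Cong p A B := by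
    intro A B hA hB
    refine ⟨?_, ?_⟩
    · rw [← ZMod.intCast_zmod_eq_zero_iff_dvd] 
      push_cast
      linear_combination -hA
    · rw [← ZMod.intCast_zmod_eq_zero_iff_dvd] 
      push_cast
      linear_combination -hB
  have h4 := (mul_eq_zero.1 hprod).resolve_left hk
  rcases mul_eq_zero.1 h4 with h5 | h5
  · rcases mul_eq_zero.1 h5 with h6 | h6
    · exact Or.inl (hcg P Q h6 (hy _ _ _ _ hP hQ h6))
    · exact Or.inr (Or.inl (hcg P R h6 (hy _ _ _ _ hP hR h6)))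
  · exact Or.inr (Or.inr (hcg Q R h5 (hy _ _ _ _ hQ hR h5)))

/-- three points of a conic `(x-y)(x+y-s) = k`, `k ≠ 0`, on a line, `p` odd -/
theorem diag_cong (p : ℕ) (hp : p.Prime) (hp2 : p ≠ 2) (s : ℤ) (k : ZMod p) (hk : k ≠ 0)
    (P Q R : ℤ × ℤ)
    (hP : (((P.1 - P.2) * (P.1 + P.2 - s) : ℤ) : ZMod p) = k)
    (hQ : (((Q.1 - Q.2) * (Q.1 + Q.2 - s) : ℤ) : ZMod p) = k)
    (hR : (((R.1 - R.2) * (R.1 + R.2 - s) : ℤ) : ZMod p) = k) (hc : Col P Q R) :
    Cong p P Q ∨ Cong p P R ∨ Cong p Q R := by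
  have key := hyp_cong p hp 0 s k hk (P.1 - P.2, P.1 + P.2) (Q.1 - Q.2, Q.1 + Q.2)
    (R.1 - R.2, R.1 + R.2) (by simpa using hP) (by simpa using hQ) (by simpa using hR)
    (by unfold Col at hc ⊢; simp only; linear_combination 2 * hc)
  have hcg : ∀ A B : ℤ × ℤ, Cong p (A.1 - A.2, A.1 + A.2) (B.1 - B.2, B.1 + B.2) → Cong p A B := by
    intro A B h
    have hodd : IsCoprime (p : ℤ) 2 := by
      rw [Int.isCoprime_iff_gcd_eq_one]
      have := (Nat.coprime_primes hp Nat.prime_two).2 hp2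
      simpa [Int.gcd] using this
    obtain ⟨h1, h2⟩ := h
    simp only at h1 h2
    refine ⟨?_, ?_⟩
    · have : (p : ℤ) ∣ 2 * (A.1 - B.1) := by
        have := dvd_add h1 h2
        have e : 2 * (A.1 - B.1) = (A.1 - A.2 - (B.1 - B.2)) + (A.1 + A.2 - (B.1 + B.2)) := by ring
        rwa [e]
      exact hodd.dvd_of_dvd_mul_left this
    · have : (p : ℤ) ∣ 2 * (A.2 - B.2) := by
        have := dvd_sub h2 h1
        have e : 2 * (A.2 - B.2) = (A.1 + A.2 - (B.1 + B.2)) - (A.1 - A.2 - (B.1 - B.2)) := by ring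
        rwa [e]
      exact hodd.dvd_of_dvd_mul_left this
  rcases key with h | h | h
  · exact Or.inl (hcg _ _ h)
  · exact Or.inr (Or.inl (hcg _ _ h))
  · exact Or.inr (Or.inr (hcg _ _ h))

/-- three points of a parabola `y = x² + k` on a line -/
theorem parab_cong (p : ℕ) (hp : p.Prime) (k : ZMod p) (P Q R : ℤ × ℤ)
    (hP : ((P.2 - P.1 ^ 2 : ℤ) : ZMod p) = k) (hQ : ((Q.2 - Q.1 ^ 2 : ℤ) : ZMod p) = k)
    (hR : ((R.2 - R.1 ^ 2 : ℤ) : ZMod p) = k) (hc : Col P Q R) :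
    Cong p P Q ∨ Cong p P R ∨ Cong p Q R := by
  haveI := Fact.mk hp
  unfold Col at hc
  have hc' : ((Q.1 : ZMod p) - P.1) * (R.2 - P.2) = (R.1 - P.1) * (Q.2 - P.2) := by
    have := congrArg (fun z : ℤ => (z : ZMod p)) hc
    push_cast at this
    exact this
  push_cast at hP hQ hR
  have hprod : ((Q.1 : ZMod p) - P.1) * (R.1 - P.1) * (R.1 - Q.1) = 0 := by
    linear_combination hc' - ((Q.1 : ZMod p) - P.1) * (hR - hP) + ((R.1 : ZMod p) - P.1) * (hQ - hP)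
  have hcg : ∀ A B : ℤ × ℤ, ((A.2 : ZMod p) - A.1 ^ 2) = k → ((B.2 : ZMod p) - B.1 ^ 2) = k →
      (B.1 : ZMod p) - A.1 = 0 → Cong p A B := by
    intro A B hA hB h
    have e : (B.1 : ZMod p) = A.1 := sub_eq_zero.1 h
    refine ⟨?_, ?_⟩
    · rw [← ZMod.intCast_zmod_eq_zero_iff_dvd]
      push_cast
      linear_combination -h
    · rw [← ZMod.intCast_zmod_eq_zero_iff_dvd]
      push_cast
      rw [e] at hB
      linear_combination hA - hB
  rcases mul_eq_zero.1 hprod with h5 | h5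
  · rcases mul_eq_zero.1 h5 with h6 | h6
    · exact Or.inl (hcg P Q hP hQ h6)
    · exact Or.inr (Or.inl (hcg P R hP hR h6))
  · exact Or.inr (Or.inr (hcg Q R hQ hR h5))

end Pool.Agent.ArcGrid
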