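import Pool.Agent.ArcGrid.RegIII

/-!
# Diagonal counts
-/

set_option autoImplicit false

namespace Pool.Agent.ArcGrid

open Finset

variable {b w q a1 a2 : ℤ}

lemma rho_F (h : Fr b w q a1 a2) (X Y : ℤ) (hF : FZ w q a1 a2 X Y) :
    WZ w q a1 a2 (q + w - 1 - Y) (q + w - 1 - X) := by
  obtain ⟨hb, ha, hw, hq, ha2⟩ := id h
  rcases hF with ⟨h1, h2, h3, h4, h5⟩ | ⟨h1, h2, h3, h4, h5⟩ | ⟨h1, h2, h3, h4, h5⟩ |
    ⟨h1, h2, h3, h4, h5⟩
  · refine Or.inr (Or.inr (Or.inl ⟨by omega, by omega, by omega, by omega, ?_⟩))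
    rw [Lb_anti h Y h3 h4, not_not]
    exact h5
  · refine Or.inr (Or.inr (Or.inr ⟨by omega, by omega, by omega, by omega, ?_⟩))
    exact (Lb_anti h Y h3 h4).2 h5
  · refine Or.inl ⟨by omega, by omega, by omega, by omega, ?_⟩
    rw [Lb_anti h X h1 h2, not_not]
    exact h5
  · refine Or.inr (Or.inl ⟨by omega, by omega, by omega, by omega, ?_⟩)
    exact (Lb_anti h X h1 h2).2 h5

lemma tau_F (X Y : ℤ) (hF : FZ w q a1 a2 X Y) : WZ w q a1 a2 Y X := by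
  rcases hF with ⟨h1, h2, h3, h4, h5⟩ | ⟨h1, h2, h3, h4, h5⟩ | ⟨h1, h2, h3, h4, h5⟩ |
    ⟨h1, h2, h3, h4, h5⟩
  · exact Or.inr (Or.inr (Or.inr ⟨h3, h4, h1, h2, h5⟩))
  · exact Or.inr (Or.inr (Or.inl ⟨h3, h4, h1, h2, h5⟩))
  · exact Or.inr (Or.inl ⟨h3, h4, h1, h2, h5⟩)
  · exact Or.inl ⟨h3, h4, h1, h2, h5⟩

/-- generic counting lemma -/
lemma card_le_of_inj (T : Finset (ℤ × ℤ)) (n : ℤ) (hn : 0 ≤ n) (f : ℤ × ℤ → ℤ)
    (h1 : ∀ P ∈ T, 0 ≤ f P ∧ f P < n) (h2 : ∀ P ∈ T, ∀ P' ∈ T, f P = f P' → P = P') :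
    (T.card : ℤ) ≤ n := by
  have : T.card ≤ (Ico 0 n).card := by
    apply card_le_card_of_injOn f
    · intro P hP
      simp only [coe_Ico, Set.mem_Ico]
      exact h1 P hP
    · intro P hP P' hP' he
      exact h2 P hP P' hP' he
  rw [Int.card_Ico] at this
  omega

/-- diagonals of the second region -/
theorem cnt2_diag (h : Fr b w q a1 a2) (T : Finset (ℤ × ℤ)) (c : ℤ)
    (hT : ∀ P ∈ T, InR2 w q a1 a2 P.1 P.2 ∧ P.1 - P.2 = c) : (T.card : ℤ) ≤ q + w := by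
  obtain ⟨hb0, ha, hw, hq, ha2⟩ := id h
  set f : ℤ × ℤ → ℤ := fun P => if 2 * q ≤ P.1 then P.1 - 2 * q else
    if P.2 < 2 * q then q + w - 1 - P.2 else P.1 with hf
  have cl : ∀ P ∈ T, (FZ w q a1 a2 P.1 P.2 ∧ f P = q + w - 1 - P.2 ∧ P.1 < 2 * q ∧ P.2 < 2 * q ∧
      0 ≤ P.1 ∧ P.1 < q + w ∧ 0 ≤ P.2 ∧ P.2 < q + w) ∨
      (FZ w q a1 a2 P.1 (P.2 - 4 * q) ∧ f P = P.1 ∧ P.1 < 2 * q ∧ 4 * q ≤ P.2 ∧ 0 ≤ P.1 ∧
        P.1 < q + w ∧ P.2 < 5 * q + w) ∨
      (CZ w q a1 a2 (P.1 - 2 * q) (P.2 - 2 * q) ∧ f P = P.1 - 2 * q ∧ 2 * q ≤ P.1 ∧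
        P.1 < 3 * q + w ∧ 2 * q ≤ P.2 ∧ P.2 < 3 * q + w) := by
    intro P hP
    rcases (hT P hP).1 with h1 | h1 | h1
    · have r := h1.range h
      left
      refine ⟨h1, ?_, by omega, by omega, by omega, by omega, by omega, by omega⟩
      rw [hf]; simp only
      rw [if_neg (by omega), if_pos (by omega)]
    · have r := h1.range h
      right; left
      refine ⟨h1, ?_, by omega, by omega, by omega, by omega, by omega⟩
      rw [hf]; simp only
      rw [if_neg (by omega), if_neg (by omega)]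
    · obtain ⟨r1, r2, r3, r4, _, _⟩ := id h1
      right; right
      refine ⟨h1, ?_, by omega, by omega, by omega, by omega⟩
      rw [hf]; simp only
      rw [if_pos (by omega)]
  apply card_le_of_inj T (q + w) (by omega) f
  · intro P hP
    rcases cl P hP with h1 | h1 | h1 <;> omega
  · intro P hP P' hP' he
    have d1 := (hT P hP).2
    have d2 := (hT P' hP').2
    rcases cl P hP with ⟨h1, h2, h3⟩ | ⟨h1, h2, h3⟩ | ⟨h1, h2, h3⟩ <;>
      rcases cl P' hP' with ⟨g1, g2, g3⟩ | ⟨g1, g2, g3⟩ | ⟨g1, g2, g3⟩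
    · exact Prod.ext (by omega) (by omega)
    · omega
    · exfalso
      have e1 : P'.1 - 2 * q = q + w - 1 - P.2 := by omega
      have e2 : P'.2 - 2 * q = q + w - 1 - P.1 := by omega
      rw [e1, e2] at g1
      exact g1.2.2.2.2.1 (rho_F h _ _ h1)
    · omega
    · exact Prod.ext (by omega) (by omega)
    · omega
    · exfalso
      have e1 : P.1 - 2 * q = q + w - 1 - P'.2 := by omega
      have e2 : P.2 - 2 * q = q + w - 1 - P'.1 := by omega
      rw [e1, e2] at h1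
      exact h1.2.2.2.2.1 (rho_F h _ _ g1)
    · omega
    · exact Prod.ext (by omega) (by omega)

/-- antidiagonals of the second region -/
theorem cnt2_anti (h : Fr b w q a1 a2) (T : Finset (ℤ × ℤ)) (c : ℤ)
    (hT : ∀ P ∈ T, InR2 w q a1 a2 P.1 P.2 ∧ P.1 + P.2 = c) : (T.card : ℤ) ≤ q + w := by
  obtain ⟨hb0, ha, hw, hq, ha2⟩ := id h
  set f : ℤ × ℤ → ℤ := fun P => if 2 * q ≤ P.1 then P.1 - 2 * q else
    if P.2 < 2 * q then P.1 else P.2 - 4 * q with hf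
  have cl : ∀ P ∈ T, (FZ w q a1 a2 P.1 P.2 ∧ f P = P.1 ∧ P.1 < 2 * q ∧ P.2 < 2 * q ∧
      0 ≤ P.1 ∧ P.1 < q + w ∧ 0 ≤ P.2 ∧ P.2 < q + w) ∨
      (FZ w q a1 a2 P.1 (P.2 - 4 * q) ∧ f P = P.2 - 4 * q ∧ P.1 < 2 * q ∧ 4 * q ≤ P.2 ∧ 0 ≤ P.1 ∧
        P.1 < q + w ∧ P.2 < 5 * q + w) ∨
      (CZ w q a1 a2 (P.1 - 2 * q) (P.2 - 2 * q) ∧ f P = P.1 - 2 * q ∧ 2 * q ≤ P.1 ∧
        P.1 < 3 * q + w ∧ 2 * q ≤ P.2 ∧ P.2 < 3 * q + w) := by
    intro P hP
    rcases (hT P hP).1 with h1 | h1 | h1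
    · have r := h1.range h
      left
      refine ⟨h1, ?_, by omega, by omega, by omega, by omega, by omega, by omega⟩
      rw [hf]; simp only
      rw [if_neg (by omega), if_pos (by omega)]
    · have r := h1.range h
      right; left
      refine ⟨h1, ?_, by omega, by omega, by omega, by omega, by omega⟩
      rw [hf]; simp only
      rw [if_neg (by omega), if_neg (by omega)]
    · obtain ⟨r1, r2, r3, r4, _, _⟩ := id h1
      right; right
      refine ⟨h1, ?_, by omega, by omega, by omega, by omega⟩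
      rw [hf]; simp only
      rw [if_pos (by omega)]
  apply card_le_of_inj T (q + w) (by omega) f
  · intro P hP
    rcases cl P hP with h1 | h1 | h1 <;> omega
  · intro P hP P' hP' he
    have d1 := (hT P hP).2
    have d2 := (hT P' hP').2
    rcases cl P hP with ⟨h1, h2, h3⟩ | ⟨h1, h2, h3⟩ | ⟨h1, h2, h3⟩ <;>
      rcases cl P' hP' with ⟨g1, g2, g3⟩ | ⟨g1, g2, g3⟩ | ⟨g1, g2, g3⟩
    · exact Prod.ext (by omega) (by omega)
    · omega
    · omega
    · omega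
    · exact Prod.ext (by omega) (by omega)
    · exfalso
      have e1 : P'.1 - 2 * q = P.2 - 4 * q := by omega
      have e2 : P'.2 - 2 * q = P.1 := by omega
      rw [e1, e2] at g1
      exact g1.2.2.2.2.1 (tau_F _ _ h1)
    · omega
    · exfalso
      have e1 : P.1 - 2 * q = P'.2 - 4 * q := by omega
      have e2 : P.2 - 2 * q = P'.1 := by omega
      rw [e1, e2] at h1
      exact h1.2.2.2.2.1 (tau_F _ _ g1)
    · exact Prod.ext (by omega) (by omega)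

/-- diagonals and antidiagonals of the third region -/
theorem cnt3 (h : Fr b w q a1 a2) (T : Finset (ℤ × ℤ)) (c : ℤ)
    (hT : (∀ P ∈ T, InZ3 w q a1 a2 P.1 P.2 ∧ P.1 - P.2 = c) ∨
      (∀ P ∈ T, InZ3 w q a1 a2 P.1 P.2 ∧ P.1 + P.2 = c)) : (T.card : ℤ) ≤ w := by
  obtain ⟨hb0, ha, hw, hq, ha2⟩ := id h
  set f : ℤ × ℤ → ℤ := fun P => if P.1 - 2 * q < w then P.1 - 2 * q else P.1 - 3 * q with hf
  have hZ : ∀ P ∈ T, InZ3 w q a1 a2 P.1 P.2 := by
    rcases hT with hT | hT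
    · exact fun P hP => (hT P hP).1
    · exact fun P hP => (hT P hP).1
  have hc : (∀ P ∈ T, ∀ P' ∈ T, P.1 - P.2 = P'.1 - P'.2) ∨
      (∀ P ∈ T, ∀ P' ∈ T, P.1 + P.2 = P'.1 + P'.2) := by
    rcases hT with hT | hT
    · exact Or.inl fun P hP P' hP' => (hT P hP).2.trans (hT P' hP').2.symm
    · exact Or.inr fun P hP P' hP' => (hT P hP).2.trans (hT P' hP').2.symm
  apply card_le_of_inj T w (by omega) f
  · intro P hP
    have hz := hZ P hP
    unfold InZ3 at hz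
    rw [hf]; simp only
    rcases hz with ⟨h1, h2, _⟩ | ⟨h1, h2, _⟩ | ⟨h1, h2, _⟩ | ⟨h1, h2, _⟩
    · rw [if_pos h2]; omega
    · rw [if_neg (by omega)]; omega
    · rw [if_pos h2]; omega
    · rw [if_neg (by omega)]; omega
  · intro P hP P' hP' he
    have hz := hZ P hP
    have hz' := hZ P' hP'
    unfold InZ3 at hz hz'
    obtain ⟨u1, v1, l1, r1, m1, n1, hx1, hy1⟩ := hz.dec
    obtain ⟨u2, v2, l2, r2, m2, n2, hx2, hy2⟩ := hz'.dec
    have f1 : f P = u1 := by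
      rw [hf]; simp only
      rcases hx1 with ⟨_, e1⟩ | ⟨_, e1⟩
      · rw [if_pos (by omega)]; omega
      · rw [if_neg (by omega)]; omega
    have f2 : f P' = u2 := by
      rw [hf]; simp only
      rcases hx2 with ⟨_, e1⟩ | ⟨_, e1⟩
      · rw [if_pos (by omega)]; omega
      · rw [if_neg (by omega)]; omega
    have hu : u2 = u1 := by rw [← f1, ← f2, he]
    rw [hu] at hx2 hy2 f2
    -- the second coordinate shift is the same for both points
    have hy : P'.2 - P.2 = v2 - v1 := by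
      rcases hy1 with ⟨a, e1⟩ | ⟨a, e1⟩ <;> rcases hy2 with ⟨a', e2⟩ | ⟨a', e2⟩
      · omega
      · exact absurd a a'
      · exact absurd a' a
      · omega
    have hv : v2 = v1 := by
      rcases hc with hc | hc
      · have := hc P hP P' hP'
        rcases hx1 with ⟨_, e1⟩ | ⟨_, e1⟩ <;> rcases hx2 with ⟨_, e2⟩ | ⟨_, e2⟩ <;> omega
      · have := hc P hP P' hP'
        rcases hx1 with ⟨_, e1⟩ | ⟨_, e1⟩ <;> rcases hx2 with ⟨_, e2⟩ | ⟨_, e2⟩ <;> omega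
    have hx : P'.1 = P.1 := by
      rw [hv] at hx2
      rcases hx1 with ⟨a, e1⟩ | ⟨a, e1⟩ <;> rcases hx2 with ⟨a', e2⟩ | ⟨a', e2⟩
      · omega
      · exact absurd a a'
      · exact absurd a' a
      · omega
    exact Prod.ext hx.symm (by omega)

end Pool.Agent.ArcGrid
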