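import Pool.Agent.ArcGrid.Conic

/-!
# Covers by arcs: basic tools
-/

set_option autoImplicit false

namespace Pool.Agent.ArcGrid

open Finset

lemma Col.swap23 {P Q R : ℤ × ℤ} (h : Col P Q R) : Col P R Q := by
  unfold Col at *; linarith

lemma Col.swap12 {P Q R : ℤ × ℤ} (h : Col P Q R) : Col Q P R := by
  unfold Col at *; linarith

lemma Col.rot {P Q R : ℤ × ℤ} (h : Col P Q R) : Col Q R P := by
  unfold Col at *; linarith

lemma IsArc.mono {A B : Set (ℤ × ℤ)} (h : IsArc B) (hAB : A ⊆ B) : IsArc A :=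
  fun P hP Q hQ R hR h1 h2 h3 => h P (hAB hP) Q (hAB hQ) R (hAB hR) h1 h2 h3

lemma isArc_empty : IsArc (∅ : Set (ℤ × ℤ)) := fun P hP => absurd hP (Set.notMem_empty P)

lemma isArc_singleton (a : ℤ × ℤ) : IsArc {a} := by
  intro P hP Q hQ R hR h
  exact absurd (hP.trans hQ.symm) h

lemma Cov.mono {Y : Finset (ℤ × ℤ)} {c d : ℕ} (h : Cov Y c) (hcd : c ≤ d) : Cov Y d := by
  obtain ⟨A, hA, hY⟩ := h
  exact ⟨A, hA, fun P hP => by obtain ⟨k, hk, hk'⟩ := hY P hP; exact ⟨k, hk.trans_le hcd, hk'⟩⟩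

lemma Cov.subset {Y Z : Finset (ℤ × ℤ)} {c : ℕ} (h : Cov Y c) (hZ : Z ⊆ Y) : Cov Z c := by
  obtain ⟨A, hA, hY⟩ := h
  exact ⟨A, hA, fun P hP => hY P (hZ hP)⟩

lemma cov_union {Y Z : Finset (ℤ × ℤ)} {c d : ℕ} (h : Cov Y c) (h' : Cov Z d) :
    Cov (Y ∪ Z) (c + d) := by
  obtain ⟨A, hA, hY⟩ := h
  obtain ⟨B, hB, hZ⟩ := h'
  refine ⟨fun k => if k < c then A k else B (k - c), ?_, ?_⟩
  · intro k
    by_cases hk : k < c
    · simpa [hk] using hA k
    · simpa [hk] using hB (k - c)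
  · intro P hP
    rcases mem_union.1 hP with hP | hP
    · obtain ⟨k, hk, hk'⟩ := hY P hP
      exact ⟨k, by omega, by simpa [hk] using hk'⟩
    · obtain ⟨k, hk, hk'⟩ := hZ P hP
      refine ⟨c + k, by omega, ?_⟩
      have : ¬ (c + k < c) := by omega
      simpa [this] using hk'

/-- cover indexed by a finset -/
lemma cov_of_index {ι : Type} (s : Finset ι) (A : ι → Set (ℤ × ℤ)) (hA : ∀ i ∈ s, IsArc (A i))
    (Y : Finset (ℤ × ℤ)) (hY : ∀ P ∈ Y, ∃ i ∈ s, P ∈ A i) : Cov Y s.card := by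
  classical
  let e := s.equivFin
  refine ⟨fun k => if h : k < s.card then A (e.symm ⟨k, h⟩) else ∅, ?_, ?_⟩
  · intro k
    by_cases hk : k < s.card
    · simp only [hk, dif_pos]
      exact hA _ (e.symm ⟨k, hk⟩).2
    · simp only [hk, dif_neg, not_false_eq_true]
      exact isArc_empty
  · intro P hP
    obtain ⟨i, hi, hPi⟩ := hY P hP
    refine ⟨(e ⟨i, hi⟩ : ℕ), (e ⟨i, hi⟩).2, ?_⟩
    simp only [(e ⟨i, hi⟩).2, dif_pos]
    simpa using hPi

lemma cov_card (Y : Finset (ℤ × ℤ)) : Cov Y Y.card :=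
  cov_of_index Y (fun P => {P}) (fun P _ => isArc_singleton P) Y (fun P hP => ⟨P, hP, rfl⟩)

/-- transport along an injective map preserving collinearity -/
lemma cov_of_image {Y : Finset (ℤ × ℤ)} {c : ℕ} (φ : ℤ × ℤ → ℤ × ℤ) (hφ : Function.Injective φ)
    (hcol : ∀ P Q R, Col P Q R → Col (φ P) (φ Q) (φ R)) (h : Cov (Y.image φ) c) : Cov Y c := by
  obtain ⟨A, hA, hY⟩ := h
  refine ⟨fun k => φ ⁻¹' (A k), ?_, ?_⟩
  · intro k P hP Q hQ R hR h1 h2 h3 hc
    exact hA k (φ P) hP (φ Q) hQ (φ R) hR (fun h => h1 (hφ h)) (fun h => h2 (hφ h))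
      (fun h => h3 (hφ h)) (hcol P Q R hc)
  · intro P hP
    exact hY (φ P) (mem_image_of_mem φ hP)

open Classical in
/-- cover by `r` parabola classes and singletons for congruent pairs -/
theorem cov_parab (r : ℕ) (hr : r.Prime) (D : Finset (ℤ × ℤ)) :
    Cov D (r + ((D ×ˢ D).filter (fun z => z.1 ≠ z.2 ∧ Cong r z.1 z.2)).card) := by
  haveI := Fact.mk hr
  set B := D.filter (fun Q => ∃ Q' ∈ D, Q ≠ Q' ∧ Cong r Q Q') with hB
  have hBc : B.card ≤ ((D ×ˢ D).filter (fun z => z.1 ≠ z.2 ∧ Cong r z.1 z.2)).card := by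
    have : B ⊆ ((D ×ˢ D).filter (fun z => z.1 ≠ z.2 ∧ Cong r z.1 z.2)).image Prod.fst := by
      intro Q hQ
      rw [hB, mem_filter] at hQ
      obtain ⟨hQ, Q', hQ', h1, h2⟩ := hQ
      rw [mem_image]
      exact ⟨(Q, Q'), mem_filter.2 ⟨mem_product.2 ⟨hQ, hQ'⟩, h1, h2⟩, rfl⟩
    exact (card_le_card this).trans card_image_le
  have h1 : Cov (D \ B) r := by
    have := cov_of_index (univ : Finset (ZMod r))
      (fun k => {P | P ∈ D \ B ∧ ((P.2 - P.1 ^ 2 : ℤ) : ZMod r) = k}) (by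
        intro k _ P hP Q hQ R hR hPQ hPR hQR hc
        have hno : ∀ U ∈ D \ B, ∀ V ∈ D \ B, U ≠ V → ¬ Cong r U V := by
          intro U hU V hV hUV hcg
          have : U ∈ B := mem_filter.2 ⟨(mem_sdiff.1 hU).1, V, (mem_sdiff.1 hV).1, hUV, hcg⟩
          exact (mem_sdiff.1 hU).2 this
        rcases parab_cong r hr k P Q R hP.2 hQ.2 hR.2 hc with h | h | h
        · exact hno P hP.1 Q hQ.1 hPQ h
        · exact hno P hP.1 R hR.1 hPR h
        · exact hno Q hQ.1 R hR.1 hQR h) (D \ B) (fun P hP => ⟨_, mem_univ _, hP, rfl⟩)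
    rwa [card_univ, ZMod.card] at this
  have h2 : Cov B B.card := cov_card B
  refine (Cov.mono (cov_union h1 h2) (Nat.add_le_add_left hBc r)).subset ?_
  intro P hP
  by_cases h : P ∈ B
  · exact mem_union_right _ h
  · exact mem_union_left _ (mem_sdiff.2 ⟨hP, h⟩)

end Pool.Agent.ArcGrid
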