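import Mathlib

/-!
# Arcs in the grid: basic definitions (MP_142ab8_co)
-/

set_option autoImplicit false

namespace Pool.Agent.ArcGrid

/-- the three lattice points `P`, `Q`, `R` lie on one line (also when two of them coincide) -/
def Col (P Q R : ℤ × ℤ) : Prop :=
  (Q.1 - P.1) * (R.2 - P.2) = (R.1 - P.1) * (Q.2 - P.2)

/-- no three distinct points of `A` lie on one line -/
def IsArc (A : Set (ℤ × ℤ)) : Prop :=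
  ∀ P ∈ A, ∀ Q ∈ A, ∀ R ∈ A, P ≠ Q → P ≠ R → Q ≠ R → ¬ Col P Q R

/-- the finite set `Y` is covered by at most `c` arcs -/
def Cov (Y : Finset (ℤ × ℤ)) (c : ℕ) : Prop :=
  ∃ A : ℕ → Set (ℤ × ℤ), (∀ k, IsArc (A k)) ∧ ∀ P ∈ Y, ∃ k, k < c ∧ P ∈ A k

/-! ## The design -/

/-- the height function -/
def hb (a1 a2 u : ℤ) : Prop := a1 ≤ u ∧ u < a2

/-- the core pattern -/
def Lb (w q a1 a2 t : ℤ) : Prop := (w ≤ t ∧ t < w + a1) ∨ (w + a2 ≤ t ∧ t < q - a1)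

/-- zone `F` of the square `[0, q+w)²` -/
def FZ (w q a1 a2 X Y : ℤ) : Prop :=
  (0 ≤ X ∧ X < w ∧ w ≤ Y ∧ Y < q ∧ Lb w q a1 a2 Y) ∨
  (q ≤ X ∧ X < q + w ∧ w ≤ Y ∧ Y < q ∧ ¬ Lb w q a1 a2 Y) ∨
  (w ≤ X ∧ X < q ∧ q ≤ Y ∧ Y < q + w ∧ Lb w q a1 a2 X) ∨
  (w ≤ X ∧ X < q ∧ 0 ≤ Y ∧ Y < w ∧ ¬ Lb w q a1 a2 X)

/-- zone `W` of the square `[0, q+w)²` -/
def WZ (w q a1 a2 X Y : ℤ) : Prop :=
  (0 ≤ X ∧ X < w ∧ w ≤ Y ∧ Y < q ∧ ¬ Lb w q a1 a2 Y) ∨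
  (q ≤ X ∧ X < q + w ∧ w ≤ Y ∧ Y < q ∧ Lb w q a1 a2 Y) ∨
  (w ≤ X ∧ X < q ∧ q ≤ Y ∧ Y < q + w ∧ ¬ Lb w q a1 a2 X) ∨
  (w ≤ X ∧ X < q ∧ 0 ≤ Y ∧ Y < w ∧ Lb w q a1 a2 X)

/-- zone `Z` of the square `[0, q+w)²` (corners) -/
def ZZ (w q a1 a2 X Y : ℤ) : Prop :=
  (0 ≤ X ∧ X < w ∧ 0 ≤ Y ∧ Y < w ∧ hb a1 a2 Y ∧ ¬ hb a1 a2 X) ∨
  (q ≤ X ∧ X < q + w ∧ 0 ≤ Y ∧ Y < w ∧ ¬ hb a1 a2 Y ∧ ¬ hb a1 a2 (X - q)) ∨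
  (0 ≤ X ∧ X < w ∧ q ≤ Y ∧ Y < q + w ∧ hb a1 a2 (Y - q) ∧ hb a1 a2 X) ∨
  (q ≤ X ∧ X < q + w ∧ q ≤ Y ∧ Y < q + w ∧ ¬ hb a1 a2 (Y - q) ∧ hb a1 a2 (X - q))

/-- centre part of the second region, in centre coordinates -/
def CZ (w q a1 a2 X Y : ℤ) : Prop :=
  0 ≤ X ∧ X < q + w ∧ 0 ≤ Y ∧ Y < q + w ∧ ¬ WZ w q a1 a2 X Y ∧ ¬ ZZ w q a1 a2 X Y

/-- second region, to be coloured by conics with diagonal asymptotes mod `q` -/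
def InR2 (w q a1 a2 x y : ℤ) : Prop :=
  FZ w q a1 a2 x y ∨ FZ w q a1 a2 x (y - 4 * q) ∨ CZ w q a1 a2 (x - 2 * q) (y - 2 * q)

/-- third region, to be coloured by conics with diagonal asymptotes mod `q'` -/
def InZ3 (w q a1 a2 x y : ℤ) : Prop := ZZ w q a1 a2 (x - 2 * q) (y - 2 * q)

/-- first region, to be coloured by conics with axis asymptotes mod `p` -/
def InY1 (w q a1 a2 x y : ℤ) : Prop :=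
  0 ≤ x ∧ x < 5 * q + w ∧ 0 ≤ y ∧ y < 5 * q + w ∧ ¬ InR2 w q a1 a2 x y ∧ ¬ InZ3 w q a1 a2 x y

end Pool.Agent.ArcGrid
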