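import Pool.Agent.ArcGrid.Count
import Pool.Agent.ArcGrid.AugVar

/-!
# Cover of the design square
-/

set_option autoImplicit false

namespace Pool.Agent.ArcGrid

open Finset

/-- the square `[0, n)²` -/
noncomputable def box (n : ℤ) : Finset (ℤ × ℤ) := Ico 0 n ×ˢ Ico 0 n

lemma mem_box {n : ℤ} {P : ℤ × ℤ} : P ∈ box n ↔ 0 ≤ P.1 ∧ P.1 < n ∧ 0 ≤ P.2 ∧ P.2 < n := by
  unfold box
  rw [mem_product, mem_Ico, mem_Ico]
  tauto

open Classical in
theorem design_cov (ε : ℝ) (hε : 0 < ε) : ∃ N0 : ℕ, ∀ (b w q a1 a2 qq e p0 : ℤ) (p qn qqn : ℕ),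
    Fr b w q a1 a2 → Fr3 w q a1 a2 qq e → p.Prime → qn.Prime → qqn.Prime → (qn : ℤ) = q →
    (qqn : ℤ) = qq → 0 ≤ p0 → (p : ℤ) = 4 * q + p0 → N0 ≤ p → N0 ≤ qn → N0 ≤ qqn →
    ∃ c : ℕ, (c : ℝ) ≤ (1 + ε) * (p + qn + qqn) ∧ Cov (box (5 * q + w)) c := by
  obtain ⟨N1, h1⟩ := aug_shift 3 (1 / 2) ε (by norm_num) hε
  obtain ⟨N2, h2⟩ := aug_diag 12 (1 / 2) ε (by norm_num) hε
  obtain ⟨N3, h3⟩ := aug_diag 48 (1 / 2) ε (by norm_num) hε
  refine ⟨N1 + N2 + N3 + 3, ?_⟩
  intro b w q a1 a2 qq e p0 p qn qqn hF hF3 hp hqn hqqn hq1 hqq1 hp0 hpq hN1 hN2 hN3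
  obtain ⟨hb0, ha, hw, hq, ha2⟩ := id hF
  obtain ⟨he, e1, e2, t1, t2, t3⟩ := id hF3
  have hpodd : p % 2 = 1 := by
    rcases hp.eq_two_or_odd with h | h
    · omega
    · exact h
  obtain ⟨x0, hx0⟩ : ∃ x0 : ℤ, 2 * x0 = q + w - 1 + p := ⟨(q + w - 1 + p) / 2, by omega⟩
  have hpn : (p : ℤ) = 4 * q + p0 := hpq
  -- first region
  set Y1 := (box (5 * q + w)).filter (fun P => InY1 w q a1 a2 P.1 P.2) with hY1
  obtain ⟨c1, hc1, hcov1⟩ := h1 p hp (by omega) x0 (x0 + 2 * q) Y1
    (by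
      intro P hP
      obtain ⟨hP, _⟩ := mem_filter.1 hP
      rw [mem_box] at hP
      push_cast
      constructor
      · rw [abs_le]; constructor <;> omega
      · rw [abs_le]; constructor <;> omega)
    (by
      intro k hk
      refine (regI hF p hp p0 hp0 hpq x0 hx0 k hk).mono ?_
      rintro P ⟨hP, hPk⟩
      exact ⟨(mem_filter.1 hP).2, hPk⟩)
    (by
      intro i
      have : (((Y1.filter (fun P => P.1 = i)).card : ℕ) : ℤ) ≤ 5 * q + w := by
        apply card_le_of_inj _ _ (by omega) (fun P => P.2)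
        · intro P hP
          have := mem_box.1 (mem_filter.1 (mem_filter.1 hP).1).1
          exact ⟨this.2.2.1, this.2.2.2⟩
        · intro P hP P' hP' he
          exact Prod.ext ((mem_filter.1 hP).2.trans (mem_filter.1 hP').2.symm) he
      have h' : 2 * (((Y1.filter (fun P => P.1 = i)).card : ℕ) : ℤ) ≤ 3 * p := by omega
      have h'' : 2 * ((Y1.filter (fun P => P.1 = i)).card : ℝ) ≤ 3 * p := by exact_mod_cast h'
      linarith)
    (by
      intro i
      have : (((Y1.filter (fun P => P.2 = i)).card : ℕ) : ℤ) ≤ 5 * q + w := by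
        apply card_le_of_inj _ _ (by omega) (fun P => P.1)
        · intro P hP
          have := mem_box.1 (mem_filter.1 (mem_filter.1 hP).1).1
          exact ⟨this.1, this.2.1⟩
        · intro P hP P' hP' he
          exact Prod.ext he ((mem_filter.1 hP).2.trans (mem_filter.1 hP').2.symm)
      have h' : 2 * (((Y1.filter (fun P => P.2 = i)).card : ℕ) : ℤ) ≤ 3 * p := by omega
      have h'' : 2 * ((Y1.filter (fun P => P.2 = i)).card : ℝ) ≤ 3 * p := by exact_mod_cast h'
      linarith)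
  -- second region
  set R2 := (box (5 * q + w)).filter (fun P => InR2 w q a1 a2 P.1 P.2) with hR2
  obtain ⟨c2, hc2, hcov2⟩ := h2 qn hqn (by omega) (q - 1) R2
    (by
      intro P hP
      obtain ⟨hP, _⟩ := mem_filter.1 hP
      rw [mem_box] at hP
      push_cast
      rw [hq1]
      constructor
      · rw [abs_le]; constructor <;> omega
      · rw [abs_le]; constructor <;> omega)
    (by
      intro k hk
      refine (regII hF (by omega) qn hqn (by omega) hq1 k hk).mono ?_
      rintro P ⟨hP, hPk⟩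
      exact ⟨(mem_filter.1 hP).2, hPk⟩)
    (by
      intro i
      have : (((R2.filter (fun P => P.1 - P.2 = i)).card : ℕ) : ℤ) ≤ q + w := by
        apply cnt2_diag hF _ i
        intro P hP
        exact ⟨(mem_filter.1 (mem_filter.1 hP).1).2, (mem_filter.1 hP).2⟩
      have h' : 2 * (((R2.filter (fun P => P.1 - P.2 = i)).card : ℕ) : ℤ) ≤ 3 * qn := by
        rw [hq1]; omega
      have h'' : 2 * ((R2.filter (fun P => P.1 - P.2 = i)).card : ℝ) ≤ 3 * qn := by
        exact_mod_cast h'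
      linarith)
    (by
      intro i
      have : (((R2.filter (fun P => P.1 + P.2 = i)).card : ℕ) : ℤ) ≤ q + w := by
        apply cnt2_anti hF _ i
        intro P hP
        exact ⟨(mem_filter.1 (mem_filter.1 hP).1).2, (mem_filter.1 hP).2⟩
      have h' : 2 * (((R2.filter (fun P => P.1 + P.2 = i)).card : ℕ) : ℤ) ≤ 3 * qn := by
        rw [hq1]; omega
      have h'' : 2 * ((R2.filter (fun P => P.1 + P.2 = i)).card : ℝ) ≤ 3 * qn := by
        exact_mod_cast h'
      linarith)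
  -- third region
  set Z3 := (box (5 * q + w)).filter (fun P => InZ3 w q a1 a2 P.1 P.2) with hZ3
  obtain ⟨c3, hc3, hcov3⟩ := h3 qqn hqqn (by omega) (4 * q + 2 * a1 - 2) Z3
    (by
      intro P hP
      obtain ⟨hP, _⟩ := mem_filter.1 hP
      rw [mem_box] at hP
      push_cast
      rw [hqq1]
      constructor
      · rw [abs_le]; constructor <;> omega
      · rw [abs_le]; constructor <;> omega)
    (by
      intro k hk
      refine (regIII hF hF3 qqn hqqn (by omega) hqq1 k hk).mono ?_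
      rintro P ⟨hP, hPk⟩
      exact ⟨(mem_filter.1 hP).2, hPk⟩)
    (by
      intro i
      have : (((Z3.filter (fun P => P.1 - P.2 = i)).card : ℕ) : ℤ) ≤ w := by
        apply cnt3 hF _ i
        left
        intro P hP
        exact ⟨(mem_filter.1 (mem_filter.1 hP).1).2, (mem_filter.1 hP).2⟩
      have h' : 2 * (((Z3.filter (fun P => P.1 - P.2 = i)).card : ℕ) : ℤ) ≤ 3 * qqn := by
        rw [hqq1]; omega
      have h'' : 2 * ((Z3.filter (fun P => P.1 - P.2 = i)).card : ℝ) ≤ 3 * qqn := by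
        exact_mod_cast h'
      linarith)
    (by
      intro i
      have : (((Z3.filter (fun P => P.1 + P.2 = i)).card : ℕ) : ℤ) ≤ w := by
        apply cnt3 hF _ i
        right
        intro P hP
        exact ⟨(mem_filter.1 (mem_filter.1 hP).1).2, (mem_filter.1 hP).2⟩
      have h' : 2 * (((Z3.filter (fun P => P.1 + P.2 = i)).card : ℕ) : ℤ) ≤ 3 * qqn := by
        rw [hqq1]; omega
      have h'' : 2 * ((Z3.filter (fun P => P.1 + P.2 = i)).card : ℝ) ≤ 3 * qqn := by
        exact_mod_cast h'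
      linarith)
  refine ⟨c1 + c2 + c3, ?_, (cov_union (cov_union hcov1 hcov2) hcov3).subset ?_⟩
  · push_cast
    linarith
  · intro P hP
    rw [mem_union, mem_union]
    have hP' := mem_box.1 hP
    by_cases h4 : InR2 w q a1 a2 P.1 P.2
    · exact Or.inl (Or.inr (mem_filter.2 ⟨hP, h4⟩))
    · by_cases h5 : InZ3 w q a1 a2 P.1 P.2
      · exact Or.inr (mem_filter.2 ⟨hP, h5⟩)
      · exact Or.inl (Or.inl (mem_filter.2 ⟨hP, hP'.1, hP'.2.1, hP'.2.2.1, hP'.2.2.2, h4, h5⟩))

end Pool.Agent.ArcGrid
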