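import Pool.Agent.PC.PNTAP

/-!
# Primes in `(x, (1+t)x]`
-/

set_option autoImplicit false

namespace Pool.Agent.ArcGrid

open Filter Topology Finset

theorem prime_gap (t : ℝ) (ht : 0 < t) : ∃ N0 : ℝ, ∀ x : ℝ, N0 ≤ x →
    ∃ p : ℕ, p.Prime ∧ x < p ∧ (p : ℝ) ≤ (1 + t) * x := by
  wlog ht1 : t ≤ 1 generalizing t
  · push Not at ht1
    obtain ⟨N0, h⟩ := this 1 one_pos le_rfl
    refine ⟨max N0 0, fun x hx => ?_⟩
    obtain ⟨p, hp, h1, h2⟩ := h x ((le_max_left _ _).trans hx)
    have hx0 : 0 ≤ x := (le_max_right _ _).trans hx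
    exact ⟨p, hp, h1, h2.trans (by nlinarith)⟩
  have hT := PC.PNT.th_tendsto 1 0 one_pos (by norm_num)
  rw [Nat.totient_one, Nat.cast_one, div_one] at hT
  have hs : 0 < t / 8 := by positivity
  have h1 := hT.eventually (lt_mem_nhds (show (1 : ℝ) - t / 8 < 1 by linarith))
  have h2 := hT.eventually (gt_mem_nhds (show (1 : ℝ) < 1 + t / 8 by linarith))
  obtain ⟨n1, hn1⟩ := eventually_atTop.1 h1
  obtain ⟨n2, hn2⟩ := eventually_atTop.1 h2
  refine ⟨max (max (n1 : ℝ) n2) (4 / t), fun x hx => ?_⟩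
  have hx1 : (n1 : ℝ) ≤ x := ((le_max_left _ _).trans (le_max_left _ _)).trans hx
  have hx2 : (n2 : ℝ) ≤ x := ((le_max_right _ _).trans (le_max_left _ _)).trans hx
  have hx3 : 4 / t ≤ x := (le_max_right _ _).trans hx
  have hx4 : 4 ≤ t * x := by rwa [div_le_iff₀' ht] at hx3
  have hx0 : 0 < x := lt_of_lt_of_le (by positivity) hx3
  by_contra hcon
  push Not at hcon
  set A := ⌊x⌋₊ + 1 with hA
  set B := ⌊(1 + t) * x⌋₊ + 1 with hB
  have hA1 : x < A := by rw [hA]; push_cast; exact Nat.lt_floor_add_one x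
  have hA2 : (A : ℝ) ≤ x + 1 := by
    rw [hA]; push_cast
    have := Nat.floor_le hx0.le
    linarith
  have hB1 : (1 + t) * x < B := by rw [hB]; push_cast; exact Nat.lt_floor_add_one _
  have hAB : A ≤ B := by
    rw [hA, hB]
    apply Nat.add_le_add_right
    apply Nat.floor_le_floor
    nlinarith
  have heq : PC.PNT.th 1 0 B = PC.PNT.th 1 0 A := by
    unfold PC.PNT.th
    congr 1
    ext p
    rw [mem_filter, mem_filter, mem_range, mem_range]
    constructor
    · rintro ⟨hp1, hp2, hp3⟩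
      refine ⟨?_, hp2, hp3⟩
      by_contra hp4
      push Not at hp4
      have h5 : x < p := lt_of_lt_of_le hA1 (by exact_mod_cast hp4)
      have h6 := hcon p hp2 h5
      have h7 : p ≤ ⌊(1 + t) * x⌋₊ := by omega
      have h8 : (p : ℝ) ≤ (1 + t) * x := (Nat.cast_le.2 h7).trans (Nat.floor_le (by positivity))
      linarith
    · rintro ⟨hp1, hp2, hp3⟩
      exact ⟨by omega, hp2, hp3⟩
  have hA0 : (0 : ℝ) < A := by linarith
  have hB0 : (0 : ℝ) < B := by nlinarith
  have e1 := hn1 B (by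
    have : (n1 : ℝ) < B := by nlinarith
    exact_mod_cast this.le)
  have e2 := hn2 A (by
    have : (n2 : ℝ) < A := by linarith
    exact_mod_cast this.le)
  rw [lt_div_iff₀ hB0] at e1
  rw [div_lt_iff₀ hA0] at e2
  rw [heq] at e1
  have e3 : (1 - t / 8) * B < (1 + t / 8) * A := e1.trans e2
  have e4 : (1 - t / 8) * ((1 + t) * x) < (1 - t / 8) * B := by
    apply mul_lt_mul_of_pos_left hB1
    linarith
  have e5 : (1 + t / 8) * A ≤ (1 + t / 8) * (x + 1) := by
    apply mul_le_mul_of_nonneg_left hA2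
    linarith
  nlinarith

end Pool.Agent.ArcGrid
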