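import Pool.Agent.ArcGrid.Design
import Pool.Agent.ArcGrid.PrimeGap

/-!
# Choice of the parameters
-/

set_option autoImplicit false

namespace Pool.Agent.ArcGrid

open Finset

theorem box_cov (ε : ℝ) (hε : 0 < ε) : ∃ n0 : ℕ, ∀ n : ℕ, n0 ≤ n →
    ∃ c : ℕ, (c : ℝ) ≤ (64 / 65 + ε) * n ∧ Cov (box (n + 1)) c := by
  wlog hε1 : ε ≤ 1 generalizing ε
  · push Not at hε1
    obtain ⟨n0, h⟩ := this 1 one_pos le_rfl
    refine ⟨n0, fun n hn => ?_⟩
    obtain ⟨c, hc, hcov⟩ := h n hn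
    refine ⟨c, hc.trans ?_, hcov⟩
    gcongr
  set t : ℝ := ε / 1000 with ht
  have ht0 : 0 < t := by positivity
  have ht1 : t ≤ 1 / 1000 := by rw [ht]; linarith
  obtain ⟨N0, hD⟩ := design_cov t ht0
  obtain ⟨G0, hG⟩ := prime_gap t ht0
  set X0 : ℝ := 3 * |G0| + 3 * N0 + 100 + 3 / t with hX0
  have hX0' : 0 < X0 := by positivity
  refine ⟨⌈6 * X0⌉₊, ?_⟩
  intro n hn
  have hn' : 6 * X0 ≤ n := (Nat.le_ceil _).trans (by exact_mod_cast hn)
  have hden : 0 < 65 / 12 - 3 * t := by linarith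
  set x : ℝ := n / (65 / 12 - 3 * t) with hx
  have hxn : x * (65 / 12 - 3 * t) = n := by rw [hx]; exact div_mul_cancel₀ _ hden.ne'
  have hn0 : (0 : ℝ) < n := by linarith
  have hx0 : 0 < x := by positivity
  have hxX : X0 ≤ x := by nlinarith
  have hxG : 3 * |G0| ≤ x := by
    have : 0 ≤ 3 * (N0 : ℝ) + 100 + 3 / t := by positivity
    rw [hX0] at hxX
    linarith
  have hxN : 3 * (N0 : ℝ) ≤ x := by
    have : 0 ≤ 3 * |G0| + 100 + 3 / t := by positivity
    rw [hX0] at hxX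
    linarith
  have hx100 : 100 ≤ x := by
    have : 0 ≤ 3 * |G0| + 3 * (N0 : ℝ) + 3 / t := by positivity
    rw [hX0] at hxX
    linarith
  have hxt : 3 ≤ t * x := by
    have h1 : 3 / t ≤ x := by
      have : 0 ≤ 3 * |G0| + 3 * (N0 : ℝ) + 100 := by positivity
      rw [hX0] at hxX
      linarith
    rwa [div_le_iff₀' ht0] at h1
  have hGabs : G0 ≤ |G0| := le_abs_self _
  -- primes
  obtain ⟨qn, hqn, hq1, hq2⟩ := hG x (by linarith [abs_nonneg G0])
  have hqr : (0 : ℝ) < qn := by linarith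
  obtain ⟨p, hp, hp1, hp2⟩ := hG (4 * qn) (by linarith [abs_nonneg G0])
  obtain ⟨qqn, hqqn, hqq1, hqq2⟩ := hG (qn / 3) (by linarith [abs_nonneg G0])
  have hqt : 3 ≤ t * qn := by nlinarith
  -- integer parameters
  set q : ℤ := (qn : ℤ) with hqz
  set qq : ℤ := (qqn : ℤ) with hqqz
  have hqodd : qn % 2 = 1 := by
    rcases hqn.eq_two_or_odd with h | h
    · exfalso
      rw [h] at hq1
      norm_num at hq1
      linarith
    · exact h
  set b : ℤ := ⌊(5 / 24 - t) * (qn : ℝ)⌋ with hb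
  have hb1 : (b : ℝ) ≤ (5 / 24 - t) * qn := Int.floor_le _
  have hb2 : (5 / 24 - t) * qn < b + 1 := Int.lt_floor_add_one _
  set h0 : ℤ := (q - 1) / 2 with hh0
  have hh : q = 2 * h0 + 1 := by omega
  have hhr : (qn : ℝ) = 2 * h0 + 1 := by
    have : ((qn : ℤ) : ℝ) = ((2 * h0 + 1 : ℤ) : ℝ) := by rw [← hh]
    push_cast at this
    exact this
  set e : ℤ := ⌈t * (qn : ℝ)⌉ with he
  have he1 : t * qn ≤ e := Int.le_ceil _
  have he2 : (e : ℝ) < t * qn + 1 := Int.ceil_lt_add_one _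
  have hb0 : 0 ≤ b := by
    rw [hb]
    apply Int.floor_nonneg.2
    apply mul_nonneg _ hqr.le
    linarith
  have htq : t * qn ≤ qn / 1000 := by nlinarith
  have hF : Fr b (2 * b + 1) q (h0 - 2 * b) (h0 - b) := by
    refine ⟨hb0, ?_, rfl, by linarith, by ring⟩
    have : (1 : ℝ) ≤ ((h0 - 2 * b : ℤ) : ℝ) := by
      push_cast
      linarith
    exact_mod_cast this
  have hF3 : Fr3 (2 * b + 1) q (h0 - 2 * b) (h0 - b) qq e := by
    refine ⟨?_, ?_, ?_, ?_, ?_, ?_⟩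
    · have : (0 : ℝ) ≤ e := by linarith
      exact_mod_cast this
    · have : ((q - 3 * qq : ℤ) : ℝ) ≤ ((e : ℤ) : ℝ) := by
        rw [hqz, hqqz]; push_cast
        linarith
      exact_mod_cast this
    · have : ((-e : ℤ) : ℝ) ≤ ((q - 3 * qq : ℤ) : ℝ) := by
        rw [hqz, hqqz]; push_cast
        linarith
      exact_mod_cast this
    · have : ((2 * b + 1 - qq + 2 * e : ℤ) : ℝ) ≤ ((h0 - 2 * b - 1 : ℤ) : ℝ) := by
        rw [hqqz]; push_cast
        linarith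
      exact_mod_cast this
    · have : ((h0 - b + 1 : ℤ) : ℝ) ≤ ((qq - e : ℤ) : ℝ) := by
        rw [hqqz]; push_cast
        linarith
      exact_mod_cast this
    · have : ((2 * (h0 - 2 * b) - 2 + 2 * e : ℤ) : ℝ) < ((h0 - b : ℤ) : ℝ) := by
        push_cast
        linarith
      exact_mod_cast this
  have hp0 : (0 : ℤ) ≤ (p : ℤ) - 4 * q := by
    have : ((0 : ℤ) : ℝ) ≤ (((p : ℤ) - 4 * q : ℤ) : ℝ) := by
      rw [hqz]; push_cast
      linarith
    exact_mod_cast this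
  obtain ⟨c, hc, hcov⟩ := hD b (2 * b + 1) q (h0 - 2 * b) (h0 - b) qq e ((p : ℤ) - 4 * q) p qn qqn
    hF hF3 hp hqn hqqn rfl rfl hp0 (by ring)
    (by
      have : (N0 : ℝ) ≤ p := by linarith
      exact_mod_cast this)
    (by
      have : (N0 : ℝ) ≤ qn := by linarith
      exact_mod_cast this)
    (by
      have : (N0 : ℝ) ≤ qqn := by linarith
      exact_mod_cast this)
  refine ⟨c, ?_, hcov.subset ?_⟩
  · refine hc.trans ?_
    have k1 : (p + qn + qqn : ℝ) ≤ (1 + t) * (16 / 3) * qn := by linarith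
    have k2 : (1 + t) * (16 / 3) * (qn : ℝ) ≤ (1 + t) * (16 / 3) * ((1 + t) * x) := by
      apply mul_le_mul_of_nonneg_left hq2
      positivity
    have k3 : (1 + t) * (p + qn + qqn : ℝ) ≤ (1 + t) * ((1 + t) * (16 / 3) * ((1 + t) * x)) := by
      apply mul_le_mul_of_nonneg_left (k1.trans k2)
      positivity
    refine k3.trans ?_
    rw [← hxn]
    have k4 : (1 + t) * ((1 + t) * (16 / 3) * (1 + t)) ≤ (64 / 65 + ε) * (65 / 12 - 3 * t) := by
      have hε' : ε = 1000 * t := by rw [ht]; ring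
      rw [hε']
      nlinarith [ht0, ht1, mul_pos ht0 ht0, mul_pos (mul_pos ht0 ht0) ht0]
    calc (1 + t) * ((1 + t) * (16 / 3) * ((1 + t) * x)) =
          ((1 + t) * ((1 + t) * (16 / 3) * (1 + t))) * x := by ring
      _ ≤ ((64 / 65 + ε) * (65 / 12 - 3 * t)) * x := mul_le_mul_of_nonneg_right k4 hx0.le
      _ = _ := by ring
  · intro P hP
    rw [mem_box] at hP ⊢
    have : ((n : ℤ) + 1 : ℤ) ≤ 5 * q + (2 * b + 1) := by
      have h1 : (((n : ℤ) + 1 : ℤ) : ℝ) ≤ ((5 * q + (2 * b + 1) : ℤ) : ℝ) := by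
        rw [hqz]; push_cast
        rw [← hxn]
        nlinarith
      exact_mod_cast h1
    omega

end Pool.Agent.ArcGrid
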