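import Mathlib

/-!
# The greedy assignment lemma (abstract form)
-/

set_option autoImplicit false

namespace Pool.Agent.ArcGrid

open Finset

open Classical in
/-- number of congruent partners of `Q` in `D` -/
noncomputable def dct {β : Type} (cg : β → β → Prop) (D : Finset β) (Q : β) : ℕ :=
  (D.filter (fun Q' => Q ≠ Q' ∧ cg Q Q')).card

open Classical in
lemma pairs_eq {β : Type} (cg : β → β → Prop) (D : Finset β) :
    ((D ×ˢ D).filter (fun z => z.1 ≠ z.2 ∧ cg z.1 z.2)).card = ∑ Q ∈ D, dct cg D Q := by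
  unfold dct
  rw [card_filter, sum_product]
  refine sum_congr rfl fun Q _ => ?_
  rw [card_filter]

open Classical in
lemma dct_sum_comm {β : Type} (cg : β → β → Prop) (hcs : ∀ Q Q', cg Q Q' → cg Q' Q)
    (A B : Finset β) : ∑ Q ∈ A, dct cg B Q = ∑ Q ∈ B, dct cg A Q := by
  unfold dct
  simp only [card_filter]
  rw [sum_comm]
  refine sum_congr rfl fun Q _ => sum_congr rfl fun Q' _ => ?_
  by_cases h : Q' ≠ Q ∧ cg Q' Q
  · rw [if_pos h, if_pos ⟨h.1.symm, hcs _ _ h.2⟩]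
  · rw [if_neg h, if_neg]
    rintro ⟨h1, h2⟩
    exact h ⟨h1.symm, hcs _ _ h2⟩

lemma dct_union_le {β : Type} [DecidableEq β] (cg : β → β → Prop) (A B : Finset β) (Q : β) :
    dct cg (A ∪ B) Q ≤ dct cg A Q + dct cg B Q := by
  classical
  unfold dct
  rw [filter_union]
  exact card_union_le _ _

lemma dct_mono {β : Type} (cg : β → β → Prop) {A B : Finset β} (h : A ⊆ B) (Q : β) :
    dct cg A Q ≤ dct cg B Q := by
  classical
  exact card_le_card (filter_subset_filter _ h)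

lemma pairs_union {β : Type} [DecidableEq β] (cg : β → β → Prop) (hcs : ∀ Q Q', cg Q Q' → cg Q' Q)
    (D A : Finset β) (same : β → ℕ) (hs : ∀ Q ∈ A, dct cg A Q ≤ same Q) :
    ∑ Q ∈ D ∪ A, dct cg (D ∪ A) Q ≤
      ∑ Q ∈ D, dct cg D Q + ∑ Q ∈ A, (2 * dct cg D Q + same Q) := by
  classical
  set A' := A \ D with hA'
  have hAs : A' ⊆ A := sdiff_subset
  have hDA : D ∪ A = D ∪ A' := by rw [hA', union_sdiff_self_eq_union]
  have hdis : Disjoint D A' := disjoint_sdiff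
  rw [hDA, sum_union hdis]
  have h1 : ∑ Q ∈ D, dct cg (D ∪ A') Q ≤ ∑ Q ∈ D, dct cg D Q + ∑ Q ∈ D, dct cg A' Q := by
    rw [← sum_add_distrib]
    exact sum_le_sum fun Q _ => dct_union_le cg D A' Q
  have h2 : ∑ Q ∈ A', dct cg (D ∪ A') Q ≤ ∑ Q ∈ A', (dct cg D Q + same Q) := by
    refine sum_le_sum fun Q hQ => ?_
    refine (dct_union_le cg D A' Q).trans ?_
    have := (dct_mono cg hAs Q).trans (hs Q (hAs hQ))
    omega
  have h3 : ∑ Q ∈ D, dct cg A' Q = ∑ Q ∈ A', dct cg D Q := dct_sum_comm cg hcs D A'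
  have h4 : ∑ Q ∈ A', dct cg D Q + ∑ Q ∈ A', (dct cg D Q + same Q) =
      ∑ Q ∈ A', (2 * dct cg D Q + same Q) := by
    rw [← sum_add_distrib]
    refine sum_congr rfl fun Q _ => ?_
    ring
  have h5 : ∑ Q ∈ A', (2 * dct cg D Q + same Q) ≤ ∑ Q ∈ A, (2 * dct cg D Q + same Q) :=
    sum_le_sum_of_subset hAs
  omega

section
variable {α β κ : Type} (S : Finset α) (Y : Finset β) (Ks : Finset κ) (col : β → κ) (ln : α → ℕ)
    (NC : α → β → Prop) (T2 : α → α → β → Prop) (T3 : α → α → α → Prop) (cg : β → β → Prop)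
    (M J N c G : ℕ)

/-- `Q` is affected by giving its colour to `P` -/
def aff (Sk : κ → Finset α) (P : α) (Q : β) : Prop := NC P Q ∨ ∃ P1 ∈ Sk (col Q), T2 P P1 Q

/-- colour `k` is bad for `P` -/
def bad (Sk : κ → Finset α) (P : α) (k : κ) : Prop :=
  ∃ P1 ∈ Sk k, ∃ P2 ∈ Sk k, P1 ≠ P2 ∧ T3 P P1 P2

open Classical in
/-- number of congruent partners of the same colour -/
noncomputable def same (Q : β) : ℕ :=
  (Y.filter (fun Q' => Q ≠ Q' ∧ cg Q Q' ∧ col Q = col Q')).card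

/-- weight of a deletion -/
noncomputable def wt (D : Finset β) (Q : β) : ℕ :=
  M * (2 * dct cg D Q + same Y col cg Q) + 2 * c * (N + 2 * J ^ 2)

open Classical in
/-- total cost of `P` over all colours -/
noncomputable def gg (Sk : κ → Finset α) (D : Finset β) (P : α) : ℕ :=
  M * (Ks.filter (bad T3 Sk P)).card +
    ∑ Q ∈ Y.filter (aff col NC T2 Sk P), wt Y col cg M J N c D Q

/-- the invariant -/
structure Inv (A : Finset α) (Sk : κ → Finset α) (E : Finset α) (D : Finset β) : Prop where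
  hD : D ⊆ Y
  hE : E ⊆ A
  hS : ∀ k, Sk k ⊆ A
  hcov : ∀ P ∈ A, P ∈ E ∨ ∃ k ∈ Ks, P ∈ Sk k
  hdisj : ∀ k k', k ≠ k' → Disjoint (Sk k) (Sk k')
  hcap : ∀ k i, ((Sk k).filter (fun P => ln P = i)).card ≤ 2
  hNC : ∀ k ∈ Ks, ∀ P ∈ Sk k, ∀ Q ∈ Y, col Q = k → NC P Q → Q ∈ D
  hT2 : ∀ k ∈ Ks, ∀ P ∈ Sk k, ∀ P1 ∈ Sk k, P ≠ P1 → ∀ Q ∈ Y, col Q = k → T2 P P1 Q → T2 P1 P Q →
    Q ∈ D
  hT3 : ∀ k ∈ Ks, ∀ P ∈ Sk k, ∀ P1 ∈ Sk k, ∀ P2 ∈ Sk k, P ≠ P1 → P ≠ P2 → P1 ≠ P2 →
    ¬ (T3 P P1 P2 ∧ T3 P1 P P2 ∧ T3 P2 P P1)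
  hpot : M * (M * (E.card + ∑ Q ∈ D, dct cg D Q) + 2 * c * (N + 2 * J ^ 2) * D.card) ≤
    ∑ P ∈ A, gg Y Ks col NC T2 T3 cg M J N c Sk D P

variable {S Y Ks col ln NC T2 T3 cg M J N c G}

lemma wt_mono {D D' : Finset β} (h : D ⊆ D') (Q : β) :
    wt Y col cg M J N c D Q ≤ wt Y col cg M J N c D' Q := by
  unfold wt
  have := dct_mono cg h Q
  gcongr

lemma gg_mono {Sk Sk' : κ → Finset α} {D D' : Finset β} (h : ∀ k, Sk k ⊆ Sk' k) (hD : D ⊆ D')
    (P : α) : gg Y Ks col NC T2 T3 cg M J N c Sk D P ≤ gg Y Ks col NC T2 T3 cg M J N c Sk' D' P := by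
  classical
  unfold gg
  have h1 : (Ks.filter (bad T3 Sk P)).card ≤ (Ks.filter (bad T3 Sk' P)).card := by
    apply card_le_card
    intro k hk
    rw [mem_filter] at hk ⊢
    obtain ⟨hk, P1, h1, P2, h2, h3⟩ := hk
    exact ⟨hk, P1, h k h1, P2, h k h2, h3⟩
  have h2 : Y.filter (aff col NC T2 Sk P) ⊆ Y.filter (aff col NC T2 Sk' P) := by
    intro Q hQ
    rw [mem_filter] at hQ ⊢
    refine ⟨hQ.1, ?_⟩
    rcases hQ.2 with h' | ⟨P1, h1, h2⟩
    · exact Or.inl h'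
    · exact Or.inr ⟨P1, h _ h1, h2⟩
  have h3 := (sum_le_sum_of_subset h2).trans
    (sum_le_sum (s := Y.filter (aff col NC T2 Sk' P)) fun Q _ =>
      wt_mono (Y := Y) (col := col) (cg := cg) (M := M) (J := J) (N := N) (c := c) hD Q)
  exact Nat.add_le_add (Nat.mul_le_mul_left M h1) h3

/-- enough available colours -/
lemma avail_card [DecidableEq α] (hcap : ∀ i, (S.filter (fun P => ln P = i)).card + 2 * M ≤ 2 * Ks.card)
    {Sk : κ → Finset α} (hS : ∀ k, Sk k ⊆ S) (hdisj : ∀ k k', k ≠ k' → Disjoint (Sk k) (Sk k'))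
    (i : ℕ) : M ≤ (Ks.filter (fun k => ((Sk k).filter (fun P => ln P = i)).card ≤ 1)).card := by
  classical
  set V := Ks.filter (fun k => ¬ ((Sk k).filter (fun P => ln P = i)).card ≤ 1) with hV
  have h1 : (V.biUnion (fun k => (Sk k).filter (fun P => ln P = i))).card =
      ∑ k ∈ V, ((Sk k).filter (fun P => ln P = i)).card := by
    apply card_biUnion
    intro k _ k' _ hkk
    exact disjoint_filter_filter (hdisj k k' hkk)
  have h2 : V.card * 2 ≤ ∑ k ∈ V, ((Sk k).filter (fun P => ln P = i)).card := by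
    rw [← smul_eq_mul]
    apply card_nsmul_le_sum
    intro k hk
    have := (mem_filter.1 hk).2
    omega
  have h3 : (V.biUnion (fun k => (Sk k).filter (fun P => ln P = i))).card ≤
      (S.filter (fun P => ln P = i)).card := by
    apply card_le_card
    intro P hP
    rw [mem_biUnion] at hP
    obtain ⟨k, _, hP⟩ := hP
    rw [mem_filter] at hP ⊢
    exact ⟨hS k hP.1, hP.2⟩
  have h4 := card_filter_add_card_filter_not (s := Ks)
    (fun k => ((Sk k).filter (fun P => ln P = i)).card ≤ 1)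
  have h5 := hcap i
  rw [← hV] at h4
  omega

lemma step_choice (hM : 0 < M) {Sk : κ → Finset α} {D : Finset β} (P : α) (Av : Finset κ)
    (hAv : Av ⊆ Ks) (hAc : M ≤ Av.card) [DecidablePred (aff col NC T2 Sk P)]
    [DecidablePred (bad T3 Sk P)] [DecidableEq κ] :
    ∃ k ∈ Av, M * (M * (if bad T3 Sk P k then 1 else 0) +
      ∑ Q ∈ (Y.filter (aff col NC T2 Sk P)).filter (fun Q => col Q = k), wt Y col cg M J N c D Q) ≤
      gg Y Ks col NC T2 T3 cg M J N c Sk D P := by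
  classical
  by_contra hcon
  push Not at hcon
  set Δ : κ → ℕ := fun k => M * (if bad T3 Sk P k then 1 else 0) +
      ∑ Q ∈ (Y.filter (aff col NC T2 Sk P)).filter (fun Q => col Q = k), wt Y col cg M J N c D Q
    with hΔ
  have h1 : ∑ k ∈ Ks, Δ k ≤ gg Y Ks col NC T2 T3 cg M J N c Sk D P := by
    unfold gg
    rw [hΔ, sum_add_distrib, ← mul_sum]
    have e1 : ∑ k ∈ Ks, (if bad T3 Sk P k then 1 else 0) = (Ks.filter (bad T3 Sk P)).card := by
      rw [card_filter]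
    have e2 : ∑ k ∈ Ks, ∑ Q ∈ (Y.filter (aff col NC T2 Sk P)).filter (fun Q => col Q = k),
        wt Y col cg M J N c D Q ≤ ∑ Q ∈ Y.filter (aff col NC T2 Sk P), wt Y col cg M J N c D Q := by
      rw [← sum_biUnion]
      · apply sum_le_sum_of_subset
        intro Q hQ
        rw [mem_biUnion] at hQ
        obtain ⟨k, _, hQ⟩ := hQ
        exact (mem_filter.1 hQ).1
      · intro k _ k' _ hkk
        rw [Function.onFun, disjoint_left]
        intro Q hQ hQ'
        exact hkk ((mem_filter.1 hQ).2.symm.trans (mem_filter.1 hQ').2)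
    convert Nat.add_le_add (le_of_eq (congrArg (fun z => M * z) e1)) e2 using 1
    congr
  have h2 : ∑ k ∈ Av, Δ k ≤ ∑ k ∈ Ks, Δ k := sum_le_sum_of_subset hAv
  have h3 : Av.card * (gg Y Ks col NC T2 T3 cg M J N c Sk D P + 1) ≤ ∑ k ∈ Av, M * Δ k := by
    rw [← smul_eq_mul]
    apply card_nsmul_le_sum
    intro k hk
    exact hcon k hk
  rw [← mul_sum] at h3
  have h4 : M * (gg Y Ks col NC T2 T3 cg M J N c Sk D P + 1) ≤
      M * ∑ k ∈ Av, Δ k := (Nat.mul_le_mul_right _ hAc).trans h3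
  have h5 := Nat.le_of_mul_le_mul_left h4 hM
  omega

end

end Pool.Agent.ArcGrid
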