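import Pool.Agent.ArcGrid.CovTools

/-!
# Number of points of the missing lines that see a given point twice
-/

set_option autoImplicit false

namespace Pool.Agent.ArcGrid

open Finset

/-- positive and negative divisors -/
def sdiv (z : ℤ) : Finset ℤ :=
  (z.natAbs.divisors).image (fun d : ℕ => (d : ℤ)) ∪ (z.natAbs.divisors).image (fun d : ℕ => -(d : ℤ))

lemma mem_sdiv {z u : ℤ} (hz : z ≠ 0) (hu : u ∣ z) : u ∈ sdiv z := by
  have h1 : u.natAbs ∈ z.natAbs.divisors := by
    rw [Nat.mem_divisors]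
    exact ⟨Int.natAbs_dvd_natAbs.2 hu, by simpa using hz⟩
  unfold sdiv
  rcases Int.natAbs_eq u with h | h
  · exact mem_union_left _ (mem_image.2 ⟨_, h1, h.symm⟩)
  · exact mem_union_right _ (mem_image.2 ⟨_, h1, h.symm⟩)

lemma card_sdiv (z : ℤ) : (sdiv z).card ≤ 2 * z.natAbs.divisors.card := by
  unfold sdiv
  refine (card_union_le _ _).trans ?_
  have h1 := card_image_le (s := z.natAbs.divisors) (f := fun d : ℕ => (d : ℤ))
  have h2 := card_image_le (s := z.natAbs.divisors) (f := fun d : ℕ => -(d : ℤ))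
  omega

/-- the common part: writing the three points along a primitive direction -/
lemma direction (P Q R : ℤ × ℤ) (h : Q.1 ≠ P.1) (hc : Col P Q R) :
    ∃ u v s t : ℤ, u ≠ 0 ∧ Q.1 = P.1 + t * u ∧ Q.2 = P.2 + t * v ∧ R.1 = P.1 + s * u ∧
      R.2 = P.2 + s * v := by
  have ha : Q.1 - P.1 ≠ 0 := sub_ne_zero.2 h
  obtain ⟨u, hu⟩ : ((Int.gcd (Q.1 - P.1) (Q.2 - P.2) : ℕ) : ℤ) ∣ Q.1 - P.1 := Int.gcd_dvd_left _ _
  obtain ⟨v, hv⟩ : ((Int.gcd (Q.1 - P.1) (Q.2 - P.2) : ℕ) : ℤ) ∣ Q.2 - P.2 := Int.gcd_dvd_right _ _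
  set g : ℤ := ((Int.gcd (Q.1 - P.1) (Q.2 - P.2) : ℕ) : ℤ) with hg
  have hg0 : g ≠ 0 := by
    intro h0
    rw [h0, zero_mul] at hu
    exact ha hu
  have hgpos : 0 < Int.gcd (Q.1 - P.1) (Q.2 - P.2) := by
    apply Nat.pos_of_ne_zero
    intro h0
    apply hg0
    rw [hg, h0]
    rfl
  have hu0 : u ≠ 0 := by
    intro h0
    rw [h0, mul_zero] at hu
    exact ha hu
  have hcop : IsCoprime u v := by
    rw [Int.isCoprime_iff_gcd_eq_one]
    have e : Int.gcd (g * u) (g * v) = g.natAbs * Int.gcd u v := Int.gcd_mul_left _ _ _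
    rw [← hu, ← hv] at e
    have e2 : g.natAbs = Int.gcd (Q.1 - P.1) (Q.2 - P.2) := by rw [hg]; simp
    rw [e2] at e
    exact Nat.eq_of_mul_eq_mul_left hgpos (by rw [mul_one]; exact e.symm)
  unfold Col at hc
  rw [hu, hv] at hc
  have hc' : u * (R.2 - P.2) = (R.1 - P.1) * v := by
    apply mul_left_cancel₀ hg0
    linear_combination hc
  have hd : u ∣ R.1 - P.1 := by
    apply hcop.dvd_of_dvd_mul_right
    exact ⟨_, hc'.symm⟩
  obtain ⟨s, hs⟩ := hd
  have hs2 : R.2 - P.2 = s * v := by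
    apply mul_left_cancel₀ hu0
    rw [hc', hs]; ring
  refine ⟨u, v, s, g, hu0, ?_, ?_, ?_, ?_⟩
  · linear_combination hu
  · linear_combination hv
  · linear_combination hs
  · linear_combination hs2

/-- bound for the number of points `P` on the lines `x = ip` seeing `Q` on a secant -/
theorem nq_card (K p D : ℕ) (hp : p.Prime)
    (hD : ∀ m : ℕ, 1 ≤ m → m ≤ 4 * K * p → m.divisors.card ≤ D)
    (Q : ℤ × ℤ) (hQ1 : ¬ (p : ℤ) ∣ Q.1) (hQ2 : ¬ (p : ℤ) ∣ Q.2) (hb1 : |Q.1| ≤ K * p)
    (hb2 : |Q.2| ≤ K * p) (T : Finset (ℤ × ℤ))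
    (hT : ∀ P ∈ T, (p : ℤ) ∣ P.1 ∧ |P.1| ≤ K * p ∧ |P.2| ≤ K * p ∧
      ∃ R : ℤ × ℤ, |R.1| ≤ K * p ∧ |R.2| ≤ K * p ∧ R ≠ Q ∧ (p : ℤ) ∣ R.1 * R.2 - Q.1 * Q.2 ∧
        Col P Q R) :
    T.card ≤ 4 * (2 * K + 1) * (6 * K + 1) * D ^ 2 + (2 * K + 1) * (4 * K + 1) ^ 2 := by
  classical
  have hp0 : (0 : ℤ) < p := by exact_mod_cast hp.pos
  have hpp : Prime (p : ℤ) := Nat.prime_iff_prime_int.1 hp
  set f : ℤ → ℤ × ℤ → ℤ × ℤ := fun i w => (i * p, Q.2 - ((Q.1 - i * p) / w.1) * w.2) with hf
  set X1 : Finset (ℤ × ℤ) := (Icc (-(K : ℤ)) K ×ˢ Icc (-(3 * K : ℤ)) (3 * K)).biUnion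
    (fun z => ((sdiv (Q.1 - z.1 * p)) ×ˢ (sdiv (z.2 * p - Q.2))).image (f z.1)) with hX1
  set X2 : Finset (ℤ × ℤ) := (Icc (-(K : ℤ)) K).biUnion
    (fun i => ((Icc (-(2 * K : ℤ)) (2 * K)) ×ˢ (Icc (-(2 * K : ℤ)) (2 * K))).image (f i)) with hX2
  have hcK : (Icc (-(K : ℤ)) K).card = 2 * K + 1 := by
    rw [Int.card_Icc]; omega
  have hc3K : (Icc (-(3 * K : ℤ)) (3 * K)).card = 6 * K + 1 := by
    rw [Int.card_Icc]; omega
  have hc2K : (Icc (-(2 * K : ℤ)) (2 * K)).card = 4 * K + 1 := by
    rw [Int.card_Icc]; omega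
  have hX1c : X1.card ≤ 4 * (2 * K + 1) * (6 * K + 1) * D ^ 2 := by
    have h := card_biUnion_le_card_mul (Icc (-(K : ℤ)) K ×ˢ Icc (-(3 * K : ℤ)) (3 * K))
      (fun z => ((sdiv (Q.1 - z.1 * p)) ×ˢ (sdiv (z.2 * p - Q.2))).image (f z.1))
      ((2 * D) * (2 * D)) (by
        intro z hz
        obtain ⟨hz1, hz2⟩ := mem_product.1 hz
        rw [mem_Icc] at hz1 hz2
        refine card_image_le.trans ?_
        rw [card_product]
        apply Nat.mul_le_mul
        · refine (card_sdiv _).trans (Nat.mul_le_mul_left 2 (hD _ ?_ ?_))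
          · rw [Nat.one_le_iff_ne_zero]
            intro h0
            rw [Int.natAbs_eq_zero] at h0
            exact hQ1 ⟨z.1, by linarith⟩
          · have h1 : |Q.1 - z.1 * p| ≤ 4 * K * p := by
              have : |z.1 * p| ≤ K * p := by
                rw [abs_mul, abs_of_pos hp0]
                apply mul_le_mul_of_nonneg_right _ hp0.le
                exact abs_le.2 hz1
              have h2 := abs_sub Q.1 (z.1 * p)
              have h3 : (0 : ℤ) ≤ K * p := by positivity
              linarith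
            have h2 : (((Q.1 - z.1 * p).natAbs : ℕ) : ℤ) ≤ ((4 * K * p : ℕ) : ℤ) := by
              rw [Int.natCast_natAbs]
              push_cast
              exact h1
            exact_mod_cast h2
        · refine (card_sdiv _).trans (Nat.mul_le_mul_left 2 (hD _ ?_ ?_))
          · rw [Nat.one_le_iff_ne_zero]
            intro h0
            rw [Int.natAbs_eq_zero] at h0
            exact hQ2 ⟨z.2, by linarith⟩
          · have h1 : |z.2 * p - Q.2| ≤ 4 * K * p := by
              have : |z.2 * p| ≤ 3 * K * p := by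
                rw [abs_mul, abs_of_pos hp0]
                apply mul_le_mul_of_nonneg_right _ hp0.le
                exact abs_le.2 hz2
              have h2 := abs_sub (z.2 * p) Q.2
              linarith
            have h2 : (((z.2 * p - Q.2).natAbs : ℕ) : ℤ) ≤ ((4 * K * p : ℕ) : ℤ) := by
              rw [Int.natCast_natAbs]
              push_cast
              exact h1
            exact_mod_cast h2)
    rw [card_product, hcK, hc3K] at h
    rw [hX1]
    refine h.trans (le_of_eq ?_)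
    ring
  have hX2c : X2.card ≤ (2 * K + 1) * (4 * K + 1) ^ 2 := by
    have h := card_biUnion_le_card_mul (Icc (-(K : ℤ)) K)
      (fun i => ((Icc (-(2 * K : ℤ)) (2 * K)) ×ˢ (Icc (-(2 * K : ℤ)) (2 * K))).image (f i))
      ((4 * K + 1) ^ 2) (by
        intro i _
        refine card_image_le.trans ?_
        rw [card_product, hc2K, sq])
    rw [hcK] at h
    exact h
  have hsub : T ⊆ X1 ∪ X2 := by
    intro P hP
    obtain ⟨hp1, hP1, hP2, R, hR1, hR2, hRQ, hdv, hcol⟩ := hT P hP
    have hne : Q.1 ≠ P.1 := by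
      intro h; rw [h] at hQ1; exact hQ1 hp1
    obtain ⟨u, v, s, t, hu0, e1, e2, e3, e4⟩ := direction P Q R hne hcol
    obtain ⟨i, hi⟩ := hp1
    rw [mul_comm] at hi
    have hiK : i ∈ Icc (-(K : ℤ)) K := by
      rw [mem_Icc, ← abs_le]
      rw [hi, abs_mul, abs_of_pos hp0] at hP1
      exact le_of_mul_le_mul_right hP1 hp0
    have hdivt : (Q.1 - i * p) / u = t := by
      rw [← hi, e1]
      have : P.1 + t * u - P.1 = t * u := by ring
      rw [this]
      exact Int.mul_ediv_cancel _ hu0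
    have hPf : P = f i (u, v) := by
      rw [hf]
      simp only
      rw [hdivt]
      ext
      · exact hi
      · simp only; linarith
    have hpu : ¬ (p : ℤ) ∣ u := by
      intro h
      apply hQ1
      rw [e1, hi]
      exact dvd_add (dvd_mul_left _ _) (h.mul_left t)
    have hfac : (p : ℤ) ∣ (s - t) * (u * (P.2 + v * (s + t))) := by
      have e : R.1 * R.2 - Q.1 * Q.2 = (s - t) * (u * (P.2 + v * (s + t))) + p * (i * v * (s - t)) := by
        rw [e1, e2, e3, e4, hi]; ring
      rw [e] at hdv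
      exact (Int.dvd_add_left (dvd_mul_right _ _)).1 hdv
    rcases hpp.dvd_or_dvd hfac with hst | h2
    · apply mem_union_right
      have hst0 : s - t ≠ 0 := by
        intro h0
        apply hRQ
        have : s = t := by linarith
        ext
        · rw [e3, e1, this]
        · rw [e4, e2, this]
      have hpst : (p : ℤ) ≤ |s - t| := by
        have := Int.le_of_dvd (abs_pos.2 hst0) ((dvd_abs _ _).2 hst)
        exact this
      have hbd : ∀ z A B : ℤ, |A| ≤ K * p → |B| ≤ K * p → A - B = (s - t) * z →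
          z ∈ Icc (-(2 * K : ℤ)) (2 * K) := by
        intro z A B hA hB hAB
        rw [mem_Icc, ← abs_le]
        have h3 : |A - B| ≤ 2 * K * p := by
          have := abs_sub A B
          linarith
        rw [hAB, abs_mul] at h3
        have h4 : p * |z| ≤ 2 * K * p := (mul_le_mul_of_nonneg_right hpst (abs_nonneg _)).trans h3
        apply le_of_mul_le_mul_left _ hp0
        linarith
      rw [hX2, mem_biUnion]
      refine ⟨i, hiK, mem_image.2 ⟨(u, v), mem_product.2 ⟨hbd u R.1 Q.1 hR1 hb1 ?_,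
        hbd v R.2 Q.2 hR2 hb2 ?_⟩, hPf.symm⟩⟩
      · rw [e3, e1]; ring
      · rw [e4, e2]; ring
    · rcases hpp.dvd_or_dvd h2 with h3 | h3
      · exact absurd h3 hpu
      · apply mem_union_left
        have h4 : (p : ℤ) ∣ Q.2 + v * s := by
          have : Q.2 + v * s = P.2 + v * (s + t) := by rw [e2]; ring
          rwa [this]
        obtain ⟨j, hj⟩ := h4
        have hvs : v * s = j * p - Q.2 := by linarith
        have hjK : j ∈ Icc (-(3 * K : ℤ)) (3 * K) := by
          rw [mem_Icc, ← abs_le]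
          have h5 : |v * s| ≤ 2 * K * p := by
            have e : v * s = R.2 - P.2 := by rw [e4]; ring
            rw [e]
            have := abs_sub R.2 P.2
            linarith
          have h6 : |j * p| ≤ 3 * K * p := by
            have e : j * p = v * s + Q.2 := by linarith
            rw [e]
            have := abs_add_le (v * s) Q.2
            linarith
          rw [abs_mul, abs_of_pos hp0] at h6
          exact le_of_mul_le_mul_right h6 hp0
        rw [hX1, mem_biUnion]
        refine ⟨(i, j), mem_product.2 ⟨hiK, hjK⟩, mem_image.2 ⟨(u, v), mem_product.2 ⟨?_, ?_⟩,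
          hPf.symm⟩⟩
        · apply mem_sdiv
          · intro h0
            exact hQ1 ⟨i, by simp only at h0; linarith⟩
          · exact ⟨t, by simp only; rw [e1, hi]; ring⟩
        · apply mem_sdiv
          · intro h0
            exact hQ2 ⟨j, by simp only at h0; linarith⟩
          · exact ⟨s, by simp only; rw [hvs]⟩
  exact (card_le_card hsub).trans ((card_union_le _ _).trans (Nat.add_le_add hX1c hX2c))

end Pool.Agent.ArcGrid
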