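import Pool.Agent.ArcGrid.CovTools

/-!
# The first region
-/

set_option autoImplicit false

namespace Pool.Agent.ArcGrid

/-- the numerical frame of the design -/
structure Fr (b w q a1 a2 : ℤ) : Prop where
  hb : 0 ≤ b
  ha : 1 ≤ a1
  hw : w = 2 * b + 1
  hq : q = 4 * b + 2 * a1 + 1
  ha2 : a2 = a1 + b

lemma mult_cases (p m : ℤ) (hp : 0 < p) :
    (m ≤ -2 ∧ p * m ≤ -2 * p) ∨ m = -1 ∨ m = 0 ∨ m = 1 ∨ (2 ≤ m ∧ 2 * p ≤ p * m) := by
  rcases lt_or_ge m (-1) with h | h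
  · left
    exact ⟨by omega, by nlinarith⟩
  · rcases lt_or_ge 1 m with h' | h'
    · right; right; right; right
      exact ⟨by omega, by nlinarith⟩
    · omega

variable {b w q a1 a2 : ℤ}

lemma Lb_anti (h : Fr b w q a1 a2) (t : ℤ) (h1 : w ≤ t) (h2 : t < q) :
    Lb w q a1 a2 (q + w - 1 - t) ↔ ¬ Lb w q a1 a2 t := by
  obtain ⟨hb, ha, hw, hq, ha2⟩ := h
  unfold Lb
  omega

lemma rho_W (h : Fr b w q a1 a2) (X Y : ℤ) (hW : WZ w q a1 a2 X Y) :
    FZ w q a1 a2 (q + w - 1 - Y) (q + w - 1 - X) := by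
  obtain ⟨hb, ha, hw, hq, ha2⟩ := id h
  rcases hW with ⟨h1, h2, h3, h4, h5⟩ | ⟨h1, h2, h3, h4, h5⟩ | ⟨h1, h2, h3, h4, h5⟩ |
    ⟨h1, h2, h3, h4, h5⟩
  · refine Or.inr (Or.inr (Or.inl ⟨by omega, by omega, by omega, by omega, ?_⟩))
    exact (Lb_anti h Y h3 h4).2 h5
  · refine Or.inr (Or.inr (Or.inr ⟨by omega, by omega, by omega, by omega, ?_⟩))
    rw [Lb_anti h Y h3 h4, not_not]
    exact h5
  · refine Or.inl ⟨by omega, by omega, by omega, by omega, ?_⟩
    exact (Lb_anti h X h1 h2).2 h5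
  · refine Or.inr (Or.inl ⟨by omega, by omega, by omega, by omega, ?_⟩)
    rw [Lb_anti h X h1 h2, not_not]
    exact h5

lemma tau_W (X Y : ℤ) (hW : WZ w q a1 a2 X Y) : FZ w q a1 a2 Y X := by
  rcases hW with ⟨h1, h2, h3, h4, h5⟩ | ⟨h1, h2, h3, h4, h5⟩ | ⟨h1, h2, h3, h4, h5⟩ |
    ⟨h1, h2, h3, h4, h5⟩
  · exact Or.inr (Or.inr (Or.inr ⟨h3, h4, h1, h2, h5⟩))
  · exact Or.inr (Or.inr (Or.inl ⟨h3, h4, h1, h2, h5⟩))
  · exact Or.inr (Or.inl ⟨h3, h4, h1, h2, h5⟩)
  · exact Or.inl ⟨h3, h4, h1, h2, h5⟩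

lemma InY1.W {x y : ℤ} (h : InY1 w q a1 a2 x y) (h1 : 0 ≤ x - 2 * q) (h2 : x - 2 * q < q + w)
    (h3 : 0 ≤ y - 2 * q) (h4 : y - 2 * q < q + w) : WZ w q a1 a2 (x - 2 * q) (y - 2 * q) := by
  obtain ⟨_, _, _, _, h5, h6⟩ := h
  by_contra hW
  apply h5
  right; right
  exact ⟨h1, h2, h3, h4, hW, h6⟩

/-- three collinear points of the first region, two of them congruent: impossible -/
lemma regI_pair (h : Fr b w q a1 a2) (p : ℕ) (hp : p.Prime) (p0 : ℤ) (hp0 : 0 ≤ p0)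
    (hpq : (p : ℤ) = 4 * q + p0) (x0 : ℤ) (hx0 : 2 * x0 = q + w - 1 + p)
    (P Q R : ℤ × ℤ) (hP : InY1 w q a1 a2 P.1 P.2) (hQ : InY1 w q a1 a2 Q.1 Q.2)
    (hR : InY1 w q a1 a2 R.1 R.2)
    (hn1 : ¬ (p : ℤ) ∣ P.1 - x0) (hn2 : ¬ (p : ℤ) ∣ P.2 - (x0 + 2 * q))
    (hk : (p : ℤ) ∣ (R.1 - x0) * (R.2 - (x0 + 2 * q)) - (P.1 - x0) * (P.2 - (x0 + 2 * q)))
    (hPQ : P ≠ Q) (hPR : P ≠ R) (hQR : Q ≠ R) (hc : Col P Q R) (hcg : Cong p P Q)
    (hlt : P.1 < Q.1 ∨ (P.1 = Q.1 ∧ P.2 < Q.2)) : False := by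
  have hpp : Prime (p : ℤ) := Nat.prime_iff_prime_int.1 hp
  have hpos : (0 : ℤ) < p := by exact_mod_cast hp.pos
  obtain ⟨hb, ha, hw, hq, ha2⟩ := id h
  obtain ⟨hP1, hP2, hP3, hP4, hP5, hP6⟩ := id hP
  obtain ⟨hQ1, hQ2, hQ3, hQ4, hQ5, hQ6⟩ := id hQ
  obtain ⟨hR1, hR2, hR3, hR4, hR5, hR6⟩ := id hR
  obtain ⟨⟨i, hi⟩, ⟨j, hj⟩⟩ := hcg
  unfold Col at hc
  rcases mult_cases p i hpos with ⟨hi', hi''⟩ | rfl | rfl | rfl | ⟨hi', hi''⟩
  · omega
  · -- `Q.1 = P.1 + p`
    have hQ1' : Q.1 = P.1 + p := by linarith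
    rcases mult_cases p j hpos with ⟨hj', hj''⟩ | rfl | rfl | rfl | ⟨hj', hj''⟩
    · omega
    · -- diagonal
      have hQ2' : Q.2 = P.2 + p := by linarith
      have e1 : R.2 - P.2 = R.1 - P.1 := by
        rw [hQ1', hQ2'] at hc
        have : (p : ℤ) * (R.2 - P.2 - (R.1 - P.1)) = 0 := by linear_combination hc
        rcases mul_eq_zero.1 this with h' | h'
        · omega
        · linarith
      have e2 : (p : ℤ) ∣ (R.1 - P.1) * ((R.1 - P.1) + P.1 + P.2 - 2 * x0 - 2 * q) := by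
        have e : (R.1 - x0) * (R.2 - (x0 + 2 * q)) - (P.1 - x0) * (P.2 - (x0 + 2 * q)) =
            (R.1 - P.1) * ((R.1 - P.1) + P.1 + P.2 - 2 * x0 - 2 * q) := by
          have : R.2 = P.2 + (R.1 - P.1) := by linarith
          rw [this]; ring
        rwa [e] at hk
      rcases hpp.dvd_or_dvd e2 with ⟨m, hm⟩ | ⟨m, hm⟩
      · rcases mult_cases p m hpos with ⟨h1, h2⟩ | rfl | rfl | rfl | ⟨h1, h2⟩
        · omega
        · omega
        · apply hPR
          ext
          · linarith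
          · linarith
        · apply hQR
          ext
          · linarith
          · linarith
        · omega
      · have hm' : (R.1 - P.1) + P.1 + P.2 - (q + w - 1 + p) - 2 * q = p * m := by
          rw [← hx0]; linarith
        have hm1 : m = -1 := by
          rcases mult_cases p m hpos with ⟨h1, h2⟩ | rfl | rfl | rfl | ⟨h1, h2⟩ <;> omega
        subst hm1
        have f1 : R.1 = q + w - 1 + 2 * q - P.2 := by linarith
        have f2 : R.2 = q + w - 1 + 2 * q - P.1 := by linarith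
        have hW := hR.W (by omega) (by omega) (by omega) (by omega)
        have hF := rho_W h _ _ hW
        have g1 : q + w - 1 - (R.2 - 2 * q) = P.1 := by omega
        have g2 : q + w - 1 - (R.1 - 2 * q) = P.2 := by omega
        rw [g1, g2] at hF
        exact hP5 (Or.inl hF)
    · -- horizontal
      have hQ2' : Q.2 = P.2 := by linarith
      have e1 : R.2 = P.2 := by
        rw [hQ1', hQ2'] at hc
        have : (p : ℤ) * (R.2 - P.2) = 0 := by linear_combination hc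
        rcases mul_eq_zero.1 this with h' | h'
        · omega
        · linarith
      have e2 : (p : ℤ) ∣ (R.1 - P.1) * (P.2 - (x0 + 2 * q)) := by
        have e : (R.1 - x0) * (R.2 - (x0 + 2 * q)) - (P.1 - x0) * (P.2 - (x0 + 2 * q)) =
            (R.1 - P.1) * (P.2 - (x0 + 2 * q)) := by rw [e1]; ring
        rwa [e] at hk
      obtain ⟨m, hm⟩ := (hpp.dvd_or_dvd e2).resolve_right hn2
      rcases mult_cases p m hpos with ⟨h1, h2⟩ | rfl | rfl | rfl | ⟨h1, h2⟩
      · omega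
      · omega
      · apply hPR
        ext
        · linarith
        · linarith
      · apply hQR
        ext
        · linarith
        · linarith
      · omega
    · -- antidiagonal
      have hQ2' : Q.2 = P.2 - p := by linarith
      have e1 : R.2 - P.2 = -(R.1 - P.1) := by
        rw [hQ1', hQ2'] at hc
        have : (p : ℤ) * (R.2 - P.2 + (R.1 - P.1)) = 0 := by linear_combination hc
        rcases mul_eq_zero.1 this with h' | h'
        · omega
        · linarith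
      have e2 : (p : ℤ) ∣ (R.1 - P.1) * (P.2 - P.1 - 2 * q - (R.1 - P.1)) := by
        have e : (R.1 - x0) * (R.2 - (x0 + 2 * q)) - (P.1 - x0) * (P.2 - (x0 + 2 * q)) =
            (R.1 - P.1) * (P.2 - P.1 - 2 * q - (R.1 - P.1)) := by
          have : R.2 = P.2 - (R.1 - P.1) := by linarith
          rw [this]; ring
        rwa [e] at hk
      rcases hpp.dvd_or_dvd e2 with ⟨m, hm⟩ | ⟨m, hm⟩
      · rcases mult_cases p m hpos with ⟨h1, h2⟩ | rfl | rfl | rfl | ⟨h1, h2⟩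
        · omega
        · omega
        · apply hPR
          ext
          · linarith
          · linarith
        · apply hQR
          ext
          · linarith
          · linarith
        · omega
      · have hm1 : m = 0 := by
          rcases mult_cases p m hpos with ⟨h1, h2⟩ | rfl | rfl | rfl | ⟨h1, h2⟩ <;> omega
        subst hm1
        have f1 : R.1 = P.2 - 2 * q := by linarith
        have f2 : R.2 = P.1 + 2 * q := by linarith
        have hW := hR.W (by omega) (by omega) (by omega) (by omega)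
        have hF := tau_W _ _ hW
        have g1 : R.2 - 2 * q = P.1 := by omega
        have g2 : R.1 - 2 * q = P.2 - 4 * q := by omega
        rw [g1, g2] at hF
        exact hP5 (Or.inr (Or.inl hF))
    · omega
  · -- `Q.1 = P.1`
    have hQ1' : Q.1 = P.1 := by linarith
    rcases mult_cases p j hpos with ⟨hj', hj''⟩ | rfl | rfl | rfl | ⟨hj', hj''⟩
    · omega
    · have hQ2' : Q.2 = P.2 + p := by linarith
      have e1 : R.1 = P.1 := by
        rw [hQ1', hQ2'] at hc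
        have : (p : ℤ) * (R.1 - P.1) = 0 := by linear_combination -hc
        rcases mul_eq_zero.1 this with h' | h'
        · omega
        · linarith
      have e2 : (p : ℤ) ∣ (P.1 - x0) * (R.2 - P.2) := by
        have e : (R.1 - x0) * (R.2 - (x0 + 2 * q)) - (P.1 - x0) * (P.2 - (x0 + 2 * q)) =
            (P.1 - x0) * (R.2 - P.2) := by rw [e1]; ring
        rwa [e] at hk
      obtain ⟨m, hm⟩ := (hpp.dvd_or_dvd e2).resolve_left hn1
      rcases mult_cases p m hpos with ⟨h1, h2⟩ | rfl | rfl | rfl | ⟨h1, h2⟩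
      · omega
      · omega
      · apply hPR
        ext
        · linarith
        · linarith
      · apply hQR
        ext
        · linarith
        · linarith
      · omega
    · exact hPQ (by ext <;> linarith)
    · omega
    · omega
  · omega
  · omega

/-- **first region** -/
theorem regI (h : Fr b w q a1 a2) (p : ℕ) (hp : p.Prime) (p0 : ℤ) (hp0 : 0 ≤ p0)
    (hpq : (p : ℤ) = 4 * q + p0) (x0 : ℤ) (hx0 : 2 * x0 = q + w - 1 + p) (k : ZMod p)
    (hk : k ≠ 0) :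
    IsArc {P | InY1 w q a1 a2 P.1 P.2 ∧
      (((P.1 - x0) * (P.2 - (x0 + 2 * q)) : ℤ) : ZMod p) = k} := by
  intro P hP Q hQ R hR hPQ hPR hQR hc
  obtain ⟨hP, hPk⟩ := hP
  obtain ⟨hQ, hQk⟩ := hQ
  obtain ⟨hR, hRk⟩ := hR
  have hn : ∀ A : ℤ × ℤ, (((A.1 - x0) * (A.2 - (x0 + 2 * q)) : ℤ) : ZMod p) = k →
      ¬ (p : ℤ) ∣ A.1 - x0 ∧ ¬ (p : ℤ) ∣ A.2 - (x0 + 2 * q) := by
    intro A hA
    constructor
    · intro hd
      apply hk
      rw [← hA, ZMod.intCast_zmod_eq_zero_iff_dvd]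
      exact hd.mul_right _
    · intro hd
      apply hk
      rw [← hA, ZMod.intCast_zmod_eq_zero_iff_dvd]
      exact hd.mul_left _
  have hd : ∀ A B : ℤ × ℤ, (((A.1 - x0) * (A.2 - (x0 + 2 * q)) : ℤ) : ZMod p) = k →
      (((B.1 - x0) * (B.2 - (x0 + 2 * q)) : ℤ) : ZMod p) = k →
      (p : ℤ) ∣ (B.1 - x0) * (B.2 - (x0 + 2 * q)) - (A.1 - x0) * (A.2 - (x0 + 2 * q)) := by
    intro A B hA hB
    exact (ZMod.intCast_eq_intCast_iff_dvd_sub _ _ _).1 (hA.trans hB.symm)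
  have main : ∀ A B C : ℤ × ℤ, InY1 w q a1 a2 A.1 A.2 → InY1 w q a1 a2 B.1 B.2 →
      InY1 w q a1 a2 C.1 C.2 → (((A.1 - x0) * (A.2 - (x0 + 2 * q)) : ℤ) : ZMod p) = k →
      (((B.1 - x0) * (B.2 - (x0 + 2 * q)) : ℤ) : ZMod p) = k →
      (((C.1 - x0) * (C.2 - (x0 + 2 * q)) : ℤ) : ZMod p) = k → A ≠ B → A ≠ C → B ≠ C →
      Col A B C → Cong p A B → False := by
    intro A B C hA hB hC hAk hBk hCk hAB hAC hBC hcl hcg
    by_cases hlt : A.1 < B.1 ∨ (A.1 = B.1 ∧ A.2 < B.2)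
    · exact regI_pair h p hp p0 hp0 hpq x0 hx0 A B C hA hB hC (hn A hAk).1 (hn A hAk).2
        (hd A C hAk hCk) hAB hAC hBC hcl hcg hlt
    · have hlt' : B.1 < A.1 ∨ (B.1 = A.1 ∧ B.2 < A.2) := by
        rcases lt_trichotomy A.1 B.1 with h1 | h1 | h1
        · exact absurd (Or.inl h1) hlt
        · rcases lt_trichotomy A.2 B.2 with h2 | h2 | h2
          · exact absurd (Or.inr ⟨h1, h2⟩) hlt
          · exact absurd (Prod.ext h1 h2) hAB
          · exact Or.inr ⟨h1.symm, h2⟩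
        · exact Or.inl h1
      exact regI_pair h p hp p0 hp0 hpq x0 hx0 B A C hB hA hC (hn B hBk).1 (hn B hBk).2
        (hd B C hBk hCk) hAB.symm hBC hAC hcl.swap12 hcg.symm hlt'
  rcases hyp_cong p hp x0 (x0 + 2 * q) k hk P Q R hPk hQk hRk hc with h' | h' | h'
  · exact main P Q R hP hQ hR hPk hQk hRk hPQ hPR hQR hc h'
  · exact main P R Q hP hR hQ hPk hRk hQk hPR hPQ hQR.symm hc.swap23 h'
  · exact main Q R P hQ hR hP hQk hRk hPk hQR hPQ.symm hPR.symm hc.rot h'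

end Pool.Agent.ArcGrid
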