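import Pool.Agent.ArcGrid.CovTools

/-!
# The third point on special lines, for conics with diagonal asymptotes
-/

set_option autoImplicit false

namespace Pool.Agent.ArcGrid

/-- the key of the diagonal families -/
def dkey (s : ℤ) (P : ℤ × ℤ) : ℤ := (P.1 - P.2) * (P.1 + P.2 - s)

variable {m : ℕ} {s : ℤ} {P Q R : ℤ × ℤ}

lemma vert_third (hm : m.Prime) (h1 : Q.1 = P.1) (h2 : P ≠ Q) (hc : Col P Q R)
    (hk : (m : ℤ) ∣ dkey s R - dkey s P) :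
    R.1 = P.1 ∧ ((m : ℤ) ∣ R.2 - P.2 ∨ (m : ℤ) ∣ R.2 + P.2 - s) := by
  have hpp : Prime (m : ℤ) := Nat.prime_iff_prime_int.1 hm
  have h3 : Q.2 - P.2 ≠ 0 := by
    intro h
    apply h2
    ext
    · exact h1.symm
    · linarith
  unfold Col at hc
  have e1 : R.1 = P.1 := by
    have : (R.1 - P.1) * (Q.2 - P.2) = 0 := by rw [← hc, h1]; ring
    rcases mul_eq_zero.1 this with h | h
    · linarith
    · exact absurd h h3
  refine ⟨e1, ?_⟩
  have e : dkey s R - dkey s P = -((R.2 - P.2) * (R.2 + P.2 - s)) := by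
    unfold dkey; rw [e1]; ring
  rw [e, dvd_neg] at hk
  exact hpp.dvd_or_dvd hk

lemma horiz_third (hm : m.Prime) (h1 : Q.2 = P.2) (h2 : P ≠ Q) (hc : Col P Q R)
    (hk : (m : ℤ) ∣ dkey s R - dkey s P) :
    R.2 = P.2 ∧ ((m : ℤ) ∣ R.1 - P.1 ∨ (m : ℤ) ∣ R.1 + P.1 - s) := by
  have hpp : Prime (m : ℤ) := Nat.prime_iff_prime_int.1 hm
  have h3 : Q.1 - P.1 ≠ 0 := by
    intro h
    apply h2
    ext
    · linarith
    · exact h1.symm
  unfold Col at hc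
  have e1 : R.2 = P.2 := by
    have : (Q.1 - P.1) * (R.2 - P.2) = 0 := by rw [hc, h1]; ring
    rcases mul_eq_zero.1 this with h | h
    · exact absurd h h3
    · linarith
  refine ⟨e1, ?_⟩
  have e : dkey s R - dkey s P = (R.1 - P.1) * (R.1 + P.1 - s) := by
    unfold dkey; rw [e1]; ring
  rw [e] at hk
  exact hpp.dvd_or_dvd hk

lemma odd_dvd (hm : m.Prime) (hm2 : m ≠ 2) {z : ℤ} (h : (m : ℤ) ∣ 2 * z) : (m : ℤ) ∣ z := by
  have hodd : IsCoprime (m : ℤ) 2 := by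
    rw [Int.isCoprime_iff_gcd_eq_one]
    have := (Nat.coprime_primes hm Nat.prime_two).2 hm2
    simpa [Int.gcd] using this
  exact hodd.dvd_of_dvd_mul_left h

lemma diag_third (hm : m.Prime) (hm2 : m ≠ 2) (h1 : Q.1 - P.1 = Q.2 - P.2) (h2 : P ≠ Q)
    (hn : ¬ (m : ℤ) ∣ P.1 - P.2) (hc : Col P Q R) (hk : (m : ℤ) ∣ dkey s R - dkey s P) :
    R.1 - P.1 = R.2 - P.2 ∧ Cong m P R := by
  have hpp : Prime (m : ℤ) := Nat.prime_iff_prime_int.1 hm
  have h3 : Q.2 - P.2 ≠ 0 := by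
    intro h
    apply h2
    ext
    · linarith
    · linarith
  unfold Col at hc
  have e1 : R.1 - P.1 = R.2 - P.2 := by
    rw [h1] at hc
    have : (Q.2 - P.2) * ((R.1 - P.1) - (R.2 - P.2)) = 0 := by linear_combination -hc
    rcases mul_eq_zero.1 this with h | h
    · exact absurd h h3
    · linarith
  refine ⟨e1, ?_⟩
  have e : dkey s R - dkey s P = (P.1 - P.2) * (2 * (R.1 - P.1)) := by
    unfold dkey
    have : R.2 = P.2 + (R.1 - P.1) := by linarith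
    rw [this]; ring
  rw [e] at hk
  have h4 := odd_dvd hm hm2 ((hpp.dvd_or_dvd hk).resolve_left hn)
  have h5 : (m : ℤ) ∣ P.1 - R.1 := by
    have := (dvd_neg (a := (m:ℤ)) (b := R.1 - P.1)).2 h4
    simpa using this
  refine ⟨h5, ?_⟩
  have e2 : P.2 - R.2 = P.1 - R.1 := by linarith
  rw [e2]; exact h5

lemma anti_third (hm : m.Prime) (hm2 : m ≠ 2) (h1 : Q.1 - P.1 = -(Q.2 - P.2)) (h2 : P ≠ Q)
    (hn : ¬ (m : ℤ) ∣ P.1 + P.2 - s) (hc : Col P Q R) (hk : (m : ℤ) ∣ dkey s R - dkey s P) :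
    R.1 - P.1 = -(R.2 - P.2) ∧ Cong m P R := by
  have hpp : Prime (m : ℤ) := Nat.prime_iff_prime_int.1 hm
  have h3 : Q.2 - P.2 ≠ 0 := by
    intro h
    apply h2
    ext
    · linarith
    · linarith
  unfold Col at hc
  have e1 : R.1 - P.1 = -(R.2 - P.2) := by
    rw [h1] at hc
    have : (Q.2 - P.2) * ((R.1 - P.1) + (R.2 - P.2)) = 0 := by linear_combination -hc
    rcases mul_eq_zero.1 this with h | h
    · exact absurd h h3
    · linarith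
  refine ⟨e1, ?_⟩
  have e : dkey s R - dkey s P = (P.1 + P.2 - s) * (2 * (R.1 - P.1)) := by
    unfold dkey
    have : R.2 = P.2 - (R.1 - P.1) := by linarith
    rw [this]; ring
  rw [e] at hk
  have h4 := odd_dvd hm hm2 ((hpp.dvd_or_dvd hk).resolve_left hn)
  have h5 : (m : ℤ) ∣ P.1 - R.1 := by
    have := (dvd_neg (a := (m:ℤ)) (b := R.1 - P.1)).2 h4
    simpa using this
  refine ⟨h5, ?_⟩
  have e2 : P.2 - R.2 = -(P.1 - R.1) := by linarith
  rw [e2, dvd_neg]; exact h5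

/-- reduction of the arc property of the diagonal families to congruent pairs -/
theorem isArc_of_pairs (hm : m.Prime) (hm2 : m ≠ 2) (s : ℤ) (C : ℤ × ℤ → Prop)
    (hpair : ∀ P Q R : ℤ × ℤ, C P → C Q → C R → ¬ (m : ℤ) ∣ P.1 - P.2 →
      ¬ (m : ℤ) ∣ P.1 + P.2 - s → (m : ℤ) ∣ dkey s R - dkey s P → P ≠ Q → P ≠ R → Q ≠ R →
      Col P Q R → Cong m P Q → False)
    (k : ZMod m) (hk : k ≠ 0) :
    IsArc {P | C P ∧ (((P.1 - P.2) * (P.1 + P.2 - s) : ℤ) : ZMod m) = k} := by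
  intro P hP Q hQ R hR hPQ hPR hQR hc
  obtain ⟨hP, hPk⟩ := hP
  obtain ⟨hQ, hQk⟩ := hQ
  obtain ⟨hR, hRk⟩ := hR
  have hn : ∀ A : ℤ × ℤ, (((A.1 - A.2) * (A.1 + A.2 - s) : ℤ) : ZMod m) = k →
      ¬ (m : ℤ) ∣ A.1 - A.2 ∧ ¬ (m : ℤ) ∣ A.1 + A.2 - s := by
    intro A hA
    constructor
    · intro hd
      apply hk
      rw [← hA, ZMod.intCast_zmod_eq_zero_iff_dvd _ m]
      exact hd.mul_right _
    · intro hd
      apply hk
      rw [← hA, ZMod.intCast_zmod_eq_zero_iff_dvd _ m]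
      exact hd.mul_left _
  have hd : ∀ A B : ℤ × ℤ, (((A.1 - A.2) * (A.1 + A.2 - s) : ℤ) : ZMod m) = k →
      (((B.1 - B.2) * (B.1 + B.2 - s) : ℤ) : ZMod m) = k → (m : ℤ) ∣ dkey s B - dkey s A := by
    intro A B hA hB
    exact (ZMod.intCast_eq_intCast_iff_dvd_sub _ _ _).1 (hA.trans hB.symm)
  rcases diag_cong m hm hm2 s k hk P Q R hPk hQk hRk hc with h' | h' | h'
  · exact hpair P Q R hP hQ hR (hn P hPk).1 (hn P hPk).2 (hd P R hPk hRk) hPQ hPR hQR hc h'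
  · exact hpair P R Q hP hR hQ (hn P hPk).1 (hn P hPk).2 (hd P Q hPk hQk) hPR hPQ hQR.symm
      hc.swap23 h'
  · exact hpair Q R P hQ hR hP (hn Q hQk).1 (hn Q hQk).2 (hd Q P hQk hPk) hQR hPQ.symm
      hPR.symm hc.rot h'

lemma dkey_cong {m : ℕ} {s : ℤ} {P Q : ℤ × ℤ} (h : Cong m P Q) : (m : ℤ) ∣ dkey s P - dkey s Q := by
  have e : dkey s P - dkey s Q = (P.1 - Q.1) * (P.1 + Q.1 - s) - (P.2 - Q.2) * (P.2 + Q.2 - s) := by
    unfold dkey; ring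
  rw [e]
  exact dvd_sub (h.1.mul_right _) (h.2.mul_right _)

/-- reduction of the arc property of the diagonal families to ordered congruent pairs -/
theorem isArc_of_ord_pairs {m : ℕ} (hm : m.Prime) (hm2 : m ≠ 2) (s : ℤ) (C : ℤ × ℤ → Prop)
    (hpair : ∀ P Q R : ℤ × ℤ, C P → C Q → C R → ¬ (m : ℤ) ∣ P.1 - P.2 →
      ¬ (m : ℤ) ∣ P.1 + P.2 - s → (m : ℤ) ∣ dkey s R - dkey s P → P ≠ Q → P ≠ R → Q ≠ R →
      Col P Q R → Cong m P Q → (P.2 < Q.2 ∨ (P.2 = Q.2 ∧ P.1 < Q.1)) → False)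
    (k : ZMod m) (hk : k ≠ 0) :
    IsArc {P | C P ∧ (((P.1 - P.2) * (P.1 + P.2 - s) : ℤ) : ZMod m) = k} := by
  apply isArc_of_pairs hm hm2 s C _ k hk
  intro P Q R hP hQ hR hn1 hn2 hd hPQ hPR hQR hc hcg
  by_cases hlt : P.2 < Q.2 ∨ (P.2 = Q.2 ∧ P.1 < Q.1)
  · exact hpair P Q R hP hQ hR hn1 hn2 hd hPQ hPR hQR hc hcg hlt
  · have hlt' : Q.2 < P.2 ∨ (Q.2 = P.2 ∧ Q.1 < P.1) := by
      rcases lt_trichotomy P.2 Q.2 with h1 | h1 | h1
      · exact absurd (Or.inl h1) hlt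
      · rcases lt_trichotomy P.1 Q.1 with h2 | h2 | h2
        · exact absurd (Or.inr ⟨h1, h2⟩) hlt
        · exact absurd (Prod.ext h2 h1) hPQ
        · exact Or.inr ⟨h1.symm, h2⟩
      · exact Or.inl h1
    have hn1' : ¬ (m : ℤ) ∣ Q.1 - Q.2 := by
      intro h
      apply hn1
      have e : P.1 - P.2 = (Q.1 - Q.2) + ((P.1 - Q.1) - (P.2 - Q.2)) := by ring
      rw [e]
      exact dvd_add h (dvd_sub hcg.1 hcg.2)
    have hn2' : ¬ (m : ℤ) ∣ Q.1 + Q.2 - s := by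
      intro h
      apply hn2
      have e : P.1 + P.2 - s = (Q.1 + Q.2 - s) + ((P.1 - Q.1) + (P.2 - Q.2)) := by ring
      rw [e]
      exact dvd_add h (dvd_add hcg.1 hcg.2)
    have hd' : (m : ℤ) ∣ dkey s R - dkey s Q := by
      have e : dkey s R - dkey s Q = (dkey s R - dkey s P) + (dkey s P - dkey s Q) := by ring
      rw [e]
      exact dvd_add hd (dkey_cong hcg)
    exact hpair Q P R hQ hP hR hn1' hn2' hd' hPQ.symm hQR hPR hc.swap12 hcg.symm hlt'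

end Pool.Agent.ArcGrid
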