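import Pool.Agent.ArcGrid.RegI
import Pool.Agent.ArcGrid.Third

/-!
# The second region
-/

set_option autoImplicit false

namespace Pool.Agent.ArcGrid

variable {b w q a1 a2 : ℤ}

lemma small_mult (hq : 0 < q) {z : ℤ} (hd : q ∣ z) (h1 : -(2 * q) < z) (h2 : z < 2 * q) :
    z = -q ∨ z = 0 ∨ z = q := by
  obtain ⟨m, hm⟩ := hd
  rcases mult_cases q m hq with ⟨h3, h4⟩ | rfl | rfl | rfl | ⟨h3, h4⟩
  · omega
  · left; linarith
  · right; left; linarith
  · right; right; linarith
  · omega

lemma FZ.range (h : Fr b w q a1 a2) {X Y : ℤ} (hF : FZ w q a1 a2 X Y) :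
    0 ≤ X ∧ X < q + w ∧ 0 ≤ Y ∧ Y < q + w := by
  obtain ⟨hb, ha, hw, hq, ha2⟩ := id h
  rcases hF with ⟨h1, h2, h3, h4, h5⟩ | ⟨h1, h2, h3, h4, h5⟩ | ⟨h1, h2, h3, h4, h5⟩ |
    ⟨h1, h2, h3, h4, h5⟩ <;> exact ⟨by omega, by omega, by omega, by omega⟩

/-- two congruent `F` positions agree -/
lemma FF (h : Fr b w q a1 a2) {X Y X' Y' : ℤ} (hF : FZ w q a1 a2 X Y) (hF' : FZ w q a1 a2 X' Y')
    (hX : q ∣ X - X') (hY : q ∣ Y - Y') : X = X' ∧ Y = Y' := by
  obtain ⟨hb, ha, hw, hq, ha2⟩ := id h
  obtain ⟨r1, r2, r3, r4⟩ := hF.range h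
  obtain ⟨r1', r2', r3', r4'⟩ := hF'.range h
  have c1 := small_mult (by omega) hX (by omega) (by omega)
  have c2 := small_mult (by omega) hY (by omega) (by omega)
  unfold FZ Lb at *
  omega

/-- an `F` position congruent to a centre position of the region agrees with it -/
lemma FC (h : Fr b w q a1 a2) {X Y X' Y' : ℤ} (hF : FZ w q a1 a2 X Y) (hC : CZ w q a1 a2 X' Y')
    (hX : q ∣ X - X') (hY : q ∣ Y - Y') : X = X' ∧ Y = Y' := by
  obtain ⟨hb, ha, hw, hq, ha2⟩ := id h
  obtain ⟨r1, r2, r3, r4⟩ := hF.range h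
  obtain ⟨r1', r2', r3', r4', r5', r6'⟩ := hC
  have c1 := small_mult (by omega) hX (by omega) (by omega)
  have c2 := small_mult (by omega) hY (by omega) (by omega)
  unfold FZ at hF
  unfold WZ at r5'
  unfold Lb at *
  clear r6'
  omega

/-- vertical partner of an `F` position -/
lemma FV (h : Fr b w q a1 a2) (hg : 2 * a1 - 1 ≤ a2) {X Y Y' : ℤ} (hF : FZ w q a1 a2 X Y)
    (hF' : FZ w q a1 a2 X Y') (hY : q ∣ Y' + Y - (q - 1)) : Y' = Y := by
  obtain ⟨hb, ha, hw, hq, ha2⟩ := id h
  obtain ⟨r1, r2, r3, r4⟩ := hF.range h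
  obtain ⟨r1', r2', r3', r4'⟩ := hF'.range h
  have c1 := small_mult (by omega) hY (by omega) (by omega)
  unfold FZ Lb at *
  omega

/-- vertical partner of two corner mates -/
lemma CV (h : Fr b w q a1 a2) (hg : 2 * a1 - 1 ≤ a2) {X Y Y' : ℤ} (hC : CZ w q a1 a2 X Y)
    (hC1 : CZ w q a1 a2 X (Y + q)) (hC2 : CZ w q a1 a2 X Y')
    (hY : q ∣ Y' + Y - (q - 1)) : False := by
  obtain ⟨hb0, ha, hw, hq, ha2⟩ := id h
  obtain ⟨r1, r2, r3, r4, r5, r6⟩ := hC
  obtain ⟨s1, s2, s3, s4, s5, s6⟩ := hC1
  obtain ⟨t1, t2, t3, t4, t5, t6⟩ := hC2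
  have c1 := small_mult (by omega) hY (by omega) (by omega)
  have hY' : Y' = q - 1 - Y := by omega
  subst hY'
  clear c1 hY
  have hXn : ¬ (w ≤ X ∧ X < q) := by
    rintro ⟨h1, h2⟩
    unfold WZ at r5 s5
    by_cases hL : Lb w q a1 a2 X
    · exact r5 (Or.inr (Or.inr (Or.inr ⟨h1, h2, r3, by omega, hL⟩)))
    · exact s5 (Or.inr (Or.inr (Or.inl ⟨h1, h2, by omega, s4, hL⟩)))
  have hyw : Y < w := by omega
  have e : Y + q - q = Y := by ring
  rcases lt_or_ge X w with hX | hX
  · have hnh : ¬ hb a1 a2 Y := by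
      intro hh
      by_cases hx : hb a1 a2 X
      · exact s6 (Or.inr (Or.inr (Or.inl ⟨r1, hX, by omega, s4, by rw [e]; exact hh, hx⟩)))
      · exact r6 (Or.inl ⟨r1, hX, r3, hyw, hh, hx⟩)
    apply t5
    refine Or.inl ⟨r1, hX, by omega, by omega, ?_⟩
    unfold Lb
    unfold hb at hnh
    omega
  · have hXq : q ≤ X := by omega
    have hnh : hb a1 a2 Y := by
      by_contra hh
      by_cases hx : hb a1 a2 (X - q)
      · exact s6 (Or.inr (Or.inr (Or.inr ⟨hXq, r2, by omega, s4, by rw [e]; exact hh, hx⟩)))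
      · exact r6 (Or.inr (Or.inl ⟨hXq, r2, r3, hyw, hh, hx⟩))
    apply t5
    refine Or.inr (Or.inl ⟨hXq, r2, by omega, by omega, ?_⟩)
    unfold Lb
    unfold hb at hnh
    omega

/-- horizontal partner of two corner mates -/
lemma CH (h : Fr b w q a1 a2) (hg : 2 * a1 - 1 ≤ a2) {X Y X' : ℤ} (hC : CZ w q a1 a2 X Y)
    (hC1 : CZ w q a1 a2 (X + q) Y) (hC2 : CZ w q a1 a2 X' Y)
    (hX : q ∣ X' + X - (q - 1)) : False := by
  obtain ⟨hb0, ha, hw, hq, ha2⟩ := id h
  obtain ⟨r1, r2, r3, r4, r5, r6⟩ := hC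
  obtain ⟨s1, s2, s3, s4, s5, s6⟩ := hC1
  obtain ⟨t1, t2, t3, t4, t5, t6⟩ := hC2
  have c1 := small_mult (by omega) hX (by omega) (by omega)
  have hX' : X' = q - 1 - X := by omega
  subst hX'
  clear c1 hX
  have hYn : ¬ (w ≤ Y ∧ Y < q) := by
    rintro ⟨h1, h2⟩
    unfold WZ at r5 s5
    by_cases hL : Lb w q a1 a2 Y
    · exact s5 (Or.inr (Or.inl ⟨by omega, s2, h1, h2, hL⟩))
    · exact r5 (Or.inl ⟨r1, by omega, h1, h2, hL⟩)
  have hxw : X < w := by omega
  have e : X + q - q = X := by ring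
  rcases lt_or_ge Y w with hY | hY
  · have hnh : hb a1 a2 X := by
      by_contra hh
      by_cases hy : hb a1 a2 Y
      · exact r6 (Or.inl ⟨r1, hxw, r3, hY, hy, hh⟩)
      · exact s6 (Or.inr (Or.inl ⟨by omega, s2, r3, hY, hy, by rw [e]; exact hh⟩))
    apply t5
    refine Or.inr (Or.inr (Or.inr ⟨by omega, by omega, r3, hY, ?_⟩))
    unfold Lb
    unfold hb at hnh
    omega
  · have hYq : q ≤ Y := by omega
    have hnh : ¬ hb a1 a2 X := by
      intro hh
      by_cases hy : hb a1 a2 (Y - q)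
      · exact r6 (Or.inr (Or.inr (Or.inl ⟨r1, hxw, hYq, r4, hy, hh⟩)))
      · exact s6 (Or.inr (Or.inr (Or.inr ⟨by omega, s2, hYq, r4, hy, by rw [e]; exact hh⟩)))
    apply t5
    refine Or.inr (Or.inr (Or.inl ⟨by omega, by omega, hYq, r4, ?_⟩))
    unfold Lb
    unfold hb at hnh
    omega

/-- **second region** -/
theorem regII (h : Fr b w q a1 a2) (hg : 2 * a1 - 1 ≤ a2) (m : ℕ) (hm : m.Prime) (hm2 : m ≠ 2)
    (hmq : (m : ℤ) = q) (k : ZMod m) (hk : k ≠ 0) :
    IsArc {P | InR2 w q a1 a2 P.1 P.2 ∧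
      (((P.1 - P.2) * (P.1 + P.2 - (q - 1)) : ℤ) : ZMod m) = k} := by
  obtain ⟨hb, ha, hw, hq, ha2⟩ := id h
  apply isArc_of_ord_pairs hm hm2 (q - 1) (fun P => InR2 w q a1 a2 P.1 P.2) _ k hk
  intro P Q R hP hQ hR hn1 hn2 hd hPQ hPR hQR hc hcg hord
  obtain ⟨hcg1, hcg2⟩ := hcg
  rw [hmq] at hcg1 hcg2
  have hq0 : 0 < q := by omega
  have d2 : q ∣ 2 * q := dvd_mul_left _ _
  have d4 : q ∣ 4 * q := dvd_mul_left _ _
  -- divisibility with shifts
  have sh : ∀ z y : ℤ, q ∣ z → q ∣ y - z → q ∣ y := fun z y h1 h2 => by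
    have := dvd_add h1 h2
    have e : z + (y - z) = y := by ring
    rwa [e] at this
  rcases hP with hP | hP | hP
  · -- `P` in LL
    have rP := hP.range h
    rcases hQ with hQ | hQ | hQ
    · obtain ⟨e1, e2⟩ := FF h hP hQ hcg1 hcg2
      exact hPQ (Prod.ext e1 e2)
    · -- LL, UL
      obtain ⟨e1, e2⟩ := FF h hP hQ hcg1 (sh _ _ hcg2 (by
        have : P.2 - (Q.2 - 4 * q) - (P.2 - Q.2) = 4 * q := by ring
        rw [this]; exact d4))
      obtain ⟨f1, f2⟩ := vert_third hm e1.symm hPQ hc hd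
      rw [hmq] at f2
      rcases hR with hR | hR | hR
      · rw [f1] at hR
        rcases f2 with f2 | f2
        · have := (FF h hR hP (by simp) f2).2
          exact hPR (Prod.ext f1.symm this.symm)
        · have := FV h hg hP hR f2
          exact hPR (Prod.ext f1.symm this.symm)
      · rw [f1] at hR
        rcases f2 with f2 | f2
        · have := (FF h hR hP (by simp) (sh _ _ f2 (by
            have : R.2 - 4 * q - P.2 - (R.2 - P.2) = -(4 * q) := by ring
            rw [this]; exact (dvd_neg.2 d4)))).2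
          exact hQR (Prod.ext (by rw [f1]; exact e1.symm) (by linarith))
        · have := FV h hg hP hR (sh _ _ f2 (by
            have : R.2 - 4 * q + P.2 - (q - 1) - (R.2 + P.2 - (q - 1)) = -(4 * q) := by ring
            rw [this]; exact (dvd_neg.2 d4)))
          exact hQR (Prod.ext (by rw [f1]; exact e1.symm) (by linarith))
      · obtain ⟨r1, r2, r3, r4, r5, r6⟩ := hR
        omega
    · -- LL, C
      obtain ⟨e1, e2⟩ := FC h hP hQ (sh _ _ hcg1 (by
        have : P.1 - (Q.1 - 2 * q) - (P.1 - Q.1) = 2 * q := by ring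
        rw [this]; exact d2)) (sh _ _ hcg2 (by
        have : P.2 - (Q.2 - 2 * q) - (P.2 - Q.2) = 2 * q := by ring
        rw [this]; exact d2))
      obtain ⟨f1, f2, f3⟩ := diag_third hm hm2 (by omega) hPQ hn1 hc hd
      rw [hmq] at f2 f3
      rcases hR with hR | hR | hR
      · obtain ⟨g1, g2⟩ := FF h hP hR f2 f3
        exact hPR (Prod.ext g1 g2)
      · obtain ⟨g1, g2⟩ := FF h hP hR f2 (sh _ _ f3 (by
          have : P.2 - (R.2 - 4 * q) - (P.2 - R.2) = 4 * q := by ring
          rw [this]; exact d4))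
        omega
      · obtain ⟨g1, g2⟩ := FC h hP hR (sh _ _ f2 (by
          have : P.1 - (R.1 - 2 * q) - (P.1 - R.1) = 2 * q := by ring
          rw [this]; exact d2)) (sh _ _ f3 (by
          have : P.2 - (R.2 - 2 * q) - (P.2 - R.2) = 2 * q := by ring
          rw [this]; exact d2))
        exact hQR (Prod.ext (by omega) (by omega))
  · -- `P` in UL
    have rP := hP.range h
    rcases hQ with hQ | hQ | hQ
    · have rQ := hQ.range h
      omega
    · obtain ⟨e1, e2⟩ := FF h hP hQ hcg1 (by
        have : P.2 - 4 * q - (Q.2 - 4 * q) = P.2 - Q.2 := by ring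
        rw [this]; exact hcg2)
      exact hPQ (Prod.ext e1 (by omega))
    · obtain ⟨r1, r2, r3, r4, r5, r6⟩ := hQ
      omega
  · -- `P` in the centre
    obtain ⟨p1, p2, p3, p4, p5, p6⟩ := id hP
    rcases hQ with hQ | hQ | hQ
    · have rQ := hQ.range h
      omega
    · -- C, UL
      obtain ⟨e1, e2⟩ := FC h hQ hP (sh _ _ (dvd_neg.2 hcg1) (by
        have : Q.1 - (P.1 - 2 * q) - -(P.1 - Q.1) = 2 * q := by ring
        rw [this]; exact d2)) (sh _ _ (dvd_neg.2 hcg2) (by
        have : Q.2 - 4 * q - (P.2 - 2 * q) - -(P.2 - Q.2) = -(2 * q) := by ring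
        rw [this]; exact dvd_neg.2 d2))
      obtain ⟨f1, f2, f3⟩ := anti_third hm hm2 (by omega) hPQ hn2 hc hd
      rw [hmq] at f2 f3
      have f2' : q ∣ Q.1 - R.1 := sh _ _ (dvd_sub f2 hcg1) (by
        have : Q.1 - R.1 - (P.1 - R.1 - (P.1 - Q.1)) = 0 := by ring
        rw [this]; exact dvd_zero _)
      have f3' : q ∣ Q.2 - R.2 := sh _ _ (dvd_sub f3 hcg2) (by
        have : Q.2 - R.2 - (P.2 - R.2 - (P.2 - Q.2)) = 0 := by ring
        rw [this]; exact dvd_zero _)
      rcases hR with hR | hR | hR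
      · obtain ⟨g1, g2⟩ := FF h hQ hR f2' (sh _ _ f3' (by
          have : Q.2 - 4 * q - R.2 - (Q.2 - R.2) = -(4 * q) := by ring
          rw [this]; exact dvd_neg.2 d4))
        omega
      · obtain ⟨g1, g2⟩ := FF h hQ hR f2' (by
          have : Q.2 - 4 * q - (R.2 - 4 * q) = Q.2 - R.2 := by ring
          rw [this]; exact f3')
        exact hQR (Prod.ext g1 (by omega))
      · obtain ⟨g1, g2⟩ := FC h hQ hR (sh _ _ f2' (by
          have : Q.1 - (R.1 - 2 * q) - (Q.1 - R.1) = 2 * q := by ring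
          rw [this]; exact d2)) (sh _ _ f3' (by
          have : Q.2 - 4 * q - (R.2 - 2 * q) - (Q.2 - R.2) = -(2 * q) := by ring
          rw [this]; exact dvd_neg.2 d2))
        exact hPR (Prod.ext (by omega) (by omega))
    · -- C, C
      obtain ⟨q1, q2, q3, q4, q5, q6⟩ := id hQ
      have c1 := small_mult hq0 hcg1 (by omega) (by omega)
      have c2 := small_mult hq0 hcg2 (by omega) (by omega)
      -- the third point congruent to `P` is in the centre
      have hRC : q ∣ P.1 - R.1 → q ∣ P.2 - R.2 → CZ w q a1 a2 (R.1 - 2 * q) (R.2 - 2 * q) := by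
        intro f2 f3
        rcases hR with hR | hR | hR
        · obtain ⟨g1, g2⟩ := FC h hR hP (sh _ _ (dvd_neg.2 f2) (by
            have : R.1 - (P.1 - 2 * q) - -(P.1 - R.1) = 2 * q := by ring
            rw [this]; exact d2)) (sh _ _ (dvd_neg.2 f3) (by
            have : R.2 - (P.2 - 2 * q) - -(P.2 - R.2) = 2 * q := by ring
            rw [this]; exact d2))
          obtain ⟨g3, g4⟩ := FC h hR hQ (sh _ _ (dvd_sub hcg1 f2) (by
            have : R.1 - (Q.1 - 2 * q) - (P.1 - Q.1 - (P.1 - R.1)) = 2 * q := by ring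
            rw [this]; exact d2)) (sh _ _ (dvd_sub hcg2 f3) (by
            have : R.2 - (Q.2 - 2 * q) - (P.2 - Q.2 - (P.2 - R.2)) = 2 * q := by ring
            rw [this]; exact d2))
          exact absurd (Prod.ext (by omega) (by omega)) hPQ
        · obtain ⟨g1, g2⟩ := FC h hR hP (sh _ _ (dvd_neg.2 f2) (by
            have : R.1 - (P.1 - 2 * q) - -(P.1 - R.1) = 2 * q := by ring
            rw [this]; exact d2)) (sh _ _ (dvd_neg.2 f3) (by
            have : R.2 - 4 * q - (P.2 - 2 * q) - -(P.2 - R.2) = -(2 * q) := by ring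
            rw [this]; exact dvd_neg.2 d2))
          obtain ⟨g3, g4⟩ := FC h hR hQ (sh _ _ (dvd_sub hcg1 f2) (by
            have : R.1 - (Q.1 - 2 * q) - (P.1 - Q.1 - (P.1 - R.1)) = 2 * q := by ring
            rw [this]; exact d2)) (sh _ _ (dvd_sub hcg2 f3) (by
            have : R.2 - 4 * q - (Q.2 - 2 * q) - (P.2 - Q.2 - (P.2 - R.2)) = -(2 * q) := by ring
            rw [this]; exact dvd_neg.2 d2))
          exact absurd (Prod.ext (by omega) (by omega)) hPQ
        · exact hR
      rcases c2 with c2 | c2 | c2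
      · rcases c1 with c1 | c1 | c1
        · -- diagonal
          obtain ⟨f1, f2, f3⟩ := diag_third hm hm2 (by omega) hPQ hn1 hc hd
          rw [hmq] at f2 f3
          obtain ⟨r1, r2, r3, r4, _, _⟩ := hRC f2 f3
          have c3 := small_mult hq0 f2 (by omega) (by omega)
          rcases c3 with c3 | c3 | c3
          · exact hQR (Prod.ext (by omega) (by omega))
          · exact hPR (Prod.ext (by omega) (by omega))
          · omega
        · -- vertical
          obtain ⟨f1, f2⟩ := vert_third hm (by omega) hPQ hc hd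
          rw [hmq] at f2
          rcases hR with hR | hR | hR
          · have := hR.range h
            omega
          · have := hR.range h
            omega
          · obtain ⟨r1, r2, r3, r4, _, _⟩ := id hR
            rcases f2 with f2 | f2
            · have c3 := small_mult hq0 f2 (by omega) (by omega)
              rcases c3 with c3 | c3 | c3
              · omega
              · exact hPR (Prod.ext (by omega) (by omega))
              · exact hQR (Prod.ext (by omega) (by omega))
            · rw [f1] at hR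
              have e1 : Q.1 - 2 * q = P.1 - 2 * q := by omega
              have e2 : Q.2 - 2 * q = P.2 - 2 * q + q := by omega
              rw [e1, e2] at hQ
              exact CV h hg hP hQ hR (sh _ _ f2 (by
                have : R.2 - 2 * q + (P.2 - 2 * q) - (q - 1) - (R.2 + P.2 - (q - 1)) =
                  -(4 * q) := by ring
                rw [this]; exact dvd_neg.2 d4))
        · -- antidiagonal
          obtain ⟨f1, f2, f3⟩ := anti_third hm hm2 (by omega) hPQ hn2 hc hd
          rw [hmq] at f2 f3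
          obtain ⟨r1, r2, r3, r4, _, _⟩ := hRC f2 f3
          have c3 := small_mult hq0 f2 (by omega) (by omega)
          rcases c3 with c3 | c3 | c3
          · omega
          · exact hPR (Prod.ext (by omega) (by omega))
          · exact hQR (Prod.ext (by omega) (by omega))
      · rcases c1 with c1 | c1 | c1
        · -- horizontal
          obtain ⟨f1, f2⟩ := horiz_third hm (by omega) hPQ hc hd
          rw [hmq] at f2
          rcases hR with hR | hR | hR
          · have := hR.range h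
            omega
          · have := hR.range h
            omega
          · obtain ⟨r1, r2, r3, r4, _, _⟩ := id hR
            rcases f2 with f2 | f2
            · have c3 := small_mult hq0 f2 (by omega) (by omega)
              rcases c3 with c3 | c3 | c3
              · omega
              · exact hPR (Prod.ext (by omega) (by omega))
              · exact hQR (Prod.ext (by omega) (by omega))
            · rw [f1] at hR
              have e1 : Q.2 - 2 * q = P.2 - 2 * q := by omega
              have e2 : Q.1 - 2 * q = P.1 - 2 * q + q := by omega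
              rw [e1, e2] at hQ
              exact CH h hg hP hQ hR (sh _ _ f2 (by
                have : R.1 - 2 * q + (P.1 - 2 * q) - (q - 1) - (R.1 + P.1 - (q - 1)) =
                  -(4 * q) := by ring
                rw [this]; exact dvd_neg.2 d4))
        · exact hPQ (Prod.ext (by omega) (by omega))
        · omega
      · omega

end Pool.Agent.ArcGrid
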