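import Pool.Agent.ArcGrid.RegII

/-!
# The third region
-/

set_option autoImplicit false

namespace Pool.Agent.ArcGrid

variable {b w q a1 a2 qq e : ℤ}

lemma dvd_cast {m a b : ℤ} (h : m ∣ a) (e : b = a) : m ∣ b := e ▸ h

/-- numerical conditions of the third family -/
structure Fr3 (w q a1 a2 qq e : ℤ) : Prop where
  he : 0 ≤ e
  h1 : q - 3 * qq ≤ e
  h2 : -e ≤ q - 3 * qq
  t1 : w - qq + 2 * e ≤ a1 - 1
  t2 : a2 + 1 ≤ qq - e
  t3 : 2 * a1 - 2 + 2 * e < a2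

/-- decomposition of a `Z` position -/
lemma ZZ.dec {X Y : ℤ} (hZ : ZZ w q a1 a2 X Y) : ∃ u v : ℤ, 0 ≤ u ∧ u < w ∧ 0 ≤ v ∧ v < w ∧
    ((hb a1 a2 v ∧ X = u) ∨ (¬ hb a1 a2 v ∧ X = u + q)) ∧
    ((hb a1 a2 u ∧ Y = v + q) ∨ (¬ hb a1 a2 u ∧ Y = v)) := by
  rcases hZ with ⟨h1, h2, h3, h4, h5, h6⟩ | ⟨h1, h2, h3, h4, h5, h6⟩ | ⟨h1, h2, h3, h4, h5, h6⟩ |
    ⟨h1, h2, h3, h4, h5, h6⟩
  · exact ⟨X, Y, h1, h2, h3, h4, Or.inl ⟨h5, rfl⟩, Or.inr ⟨h6, rfl⟩⟩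
  · exact ⟨X - q, Y, by omega, by omega, h3, h4, Or.inr ⟨h5, by ring⟩, Or.inr ⟨h6, rfl⟩⟩
  · exact ⟨X, Y - q, h1, h2, by omega, by omega, Or.inl ⟨h5, rfl⟩, Or.inl ⟨h6, by ring⟩⟩
  · exact ⟨X - q, Y - q, by omega, by omega, by omega, by omega, Or.inr ⟨h5, by ring⟩,
      Or.inl ⟨h6, by ring⟩⟩

lemma U0 (h : Fr b w q a1 a2) (h' : Fr3 w q a1 a2 qq e) {u1 u2 : ℤ} (l1 : 0 ≤ u1) (r1 : u1 < w)
    (l2 : 0 ≤ u2) (r2 : u2 < w) (hd : qq ∣ u2 - u1) :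
    u2 = u1 ∨ (¬ hb a1 a2 u1 ∧ ¬ hb a1 a2 u2 ∧ (u2 - u1 = qq ∨ u2 - u1 = -qq)) := by
  obtain ⟨hb0, ha, hw, hq, ha2⟩ := h
  obtain ⟨he, h1, h2, t1, t2, t3⟩ := h'
  have c := small_mult (by omega) hd (by omega) (by omega)
  unfold hb
  omega

lemma U1 (h : Fr b w q a1 a2) (h' : Fr3 w q a1 a2 qq e) {u1 u2 : ℤ} (l1 : 0 ≤ u1) (r1 : u1 < w)
    (l2 : 0 ≤ u2) (r2 : u2 < w) (hd : qq ∣ u2 - u1 - q) :
    u2 - u1 - q = -(3 * qq) ∨ (¬ hb a1 a2 u1 ∧ ¬ hb a1 a2 u2) := by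
  obtain ⟨hb0, ha, hw, hq, ha2⟩ := h
  obtain ⟨he, h1, h2, t1, t2, t3⟩ := h'
  have hd' : qq ∣ u2 - u1 - (q - 3 * qq) := by
    have e1 : u2 - u1 - (q - 3 * qq) = (u2 - u1 - q) + 3 * qq := by ring
    rw [e1]; exact dvd_add hd (dvd_mul_left _ _)
  have c := small_mult (by omega) hd' (by omega) (by omega)
  unfold hb
  omega

lemma U2 (h : Fr b w q a1 a2) (h' : Fr3 w q a1 a2 qq e) {u1 u2 : ℤ} (l1 : 0 ≤ u1) (r1 : u1 < w)
    (l2 : 0 ≤ u2) (r2 : u2 < w) (hd : qq ∣ u2 - u1 + q) :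
    u2 - u1 + q = 3 * qq ∨ (¬ hb a1 a2 u1 ∧ ¬ hb a1 a2 u2) := by
  have hd' : qq ∣ u1 - u2 - q := by
    have e1 : u1 - u2 - q = -(u2 - u1 + q) := by ring
    rw [e1]; exact dvd_neg.2 hd
  rcases U1 h h' l2 r2 l1 r1 hd' with h1 | h1
  · left; linarith
  · right; exact ⟨h1.2, h1.1⟩

/-- classification of congruent `Z` positions -/
lemma ZP (h : Fr b w q a1 a2) (h' : Fr3 w q a1 a2 qq e) {X Y X' Y' : ℤ}
    (hZ : ZZ w q a1 a2 X Y) (hZ' : ZZ w q a1 a2 X' Y') (hX : qq ∣ X' - X) (hY : qq ∣ Y' - Y) :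
    ((X' - X = -qq ∨ X' - X = 0 ∨ X' - X = qq) ∧ (Y' - Y = -qq ∨ Y' - Y = 0 ∨ Y' - Y = qq)) ∨
    ((X' - X = -(3 * qq) ∨ X' - X = 3 * qq) ∧ (Y' - Y = -(3 * qq) ∨ Y' - Y = 3 * qq)) := by
  obtain ⟨u1, v1, l1, r1, m1, n1, hx1, hy1⟩ := hZ.dec
  obtain ⟨u2, v2, l2, r2, m2, n2, hx2, hy2⟩ := hZ'.dec
  have key0 : ∀ z1 z2 : ℤ, 0 ≤ z1 → z1 < w → 0 ≤ z2 → z2 < w → qq ∣ z2 - z1 →
      z2 - z1 = -qq ∨ z2 - z1 = 0 ∨ z2 - z1 = qq := by
    intro z1 z2 a b c d hd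
    rcases U0 h h' a b c d hd with h3 | h3
    · right; left; linarith
    · rcases h3.2.2 with h4 | h4
      · right; right; exact h4
      · left; exact h4
  have hne : ∀ z1 z2 : ℤ, 0 ≤ z1 → z1 < w → 0 ≤ z2 → z2 < w → qq ∣ z2 - z1 →
      (hb a1 a2 z1 ↔ hb a1 a2 z2) := by
    intro z1 z2 a b c d hd
    rcases U0 h h' a b c d hd with h3 | h3
    · rw [h3]
    · exact iff_of_false h3.1 h3.2.1
  rcases hx1 with ⟨tv1, e1⟩ | ⟨tv1, e1⟩ <;> rcases hx2 with ⟨tv2, e2⟩ | ⟨tv2, e2⟩ <;>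
    rcases hy1 with ⟨tu1, f1⟩ | ⟨tu1, f1⟩ <;> rcases hy2 with ⟨tu2, f2⟩ | ⟨tu2, f2⟩ <;>
    rw [e1, e2] at hX ⊢ <;> rw [f1, f2] at hY ⊢
  -- tv1, tv2
  · left
    have g1 := key0 u1 u2 l1 r1 l2 r2 hX
    have g2 := key0 v1 v2 m1 n1 m2 n2 (dvd_cast hY (by ring))
    exact ⟨g1, by omega⟩
  · exact absurd ((hne u1 u2 l1 r1 l2 r2 hX).1 tu1) tu2
  · exact absurd ((hne u1 u2 l1 r1 l2 r2 hX).2 tu2) tu1
  · left
    exact ⟨key0 u1 u2 l1 r1 l2 r2 hX, key0 v1 v2 m1 n1 m2 n2 hY⟩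
  -- tv1, ¬ tv2
  · exact absurd ((hne v1 v2 m1 n1 m2 n2 (dvd_cast hY (by ring))).1 tv1) tv2
  · right
    have g1 := U2 h h' l1 r1 l2 r2 (dvd_cast hX (by ring))
    have g2 := U1 h h' m1 n1 m2 n2 (dvd_cast hY (by ring))
    have g1' := g1.resolve_right (fun z => z.1 tu1)
    have g2' := g2.resolve_right (fun z => z.1 tv1)
    exact ⟨Or.inr (by linarith), Or.inl (by linarith)⟩
  · right
    have g1 := U2 h h' l1 r1 l2 r2 (dvd_cast hX (by ring))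
    have g2 := U2 h h' m1 n1 m2 n2 (dvd_cast hY (by ring))
    have g1' := g1.resolve_right (fun z => z.2 tu2)
    have g2' := g2.resolve_right (fun z => z.1 tv1)
    exact ⟨Or.inr (by linarith), Or.inr (by linarith)⟩
  · exact absurd ((hne v1 v2 m1 n1 m2 n2 hY).1 tv1) tv2
  -- ¬ tv1, tv2
  · exact absurd ((hne v1 v2 m1 n1 m2 n2 (dvd_cast hY (by ring))).2 tv2) tv1
  · right
    have g1 := U1 h h' l1 r1 l2 r2 (dvd_cast hX (by ring))
    have g2 := U1 h h' m1 n1 m2 n2 (dvd_cast hY (by ring))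
    have g1' := g1.resolve_right (fun z => z.1 tu1)
    have g2' := g2.resolve_right (fun z => z.2 tv2)
    exact ⟨Or.inl (by linarith), Or.inl (by linarith)⟩
  · right
    have g1 := U1 h h' l1 r1 l2 r2 (dvd_cast hX (by ring))
    have g2 := U2 h h' m1 n1 m2 n2 (dvd_cast hY (by ring))
    have g1' := g1.resolve_right (fun z => z.2 tu2)
    have g2' := g2.resolve_right (fun z => z.2 tv2)
    exact ⟨Or.inl (by linarith), Or.inr (by linarith)⟩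
  · exact absurd ((hne v1 v2 m1 n1 m2 n2 hY).2 tv2) tv1
  -- ¬ tv1, ¬ tv2
  · left
    have g1 := key0 u1 u2 l1 r1 l2 r2 (dvd_cast hX (by ring))
    have g2 := key0 v1 v2 m1 n1 m2 n2 (dvd_cast hY (by ring))
    exact ⟨by omega, by omega⟩
  · exact absurd ((hne u1 u2 l1 r1 l2 r2 (dvd_cast hX (by ring))).1 tu1) tu2
  · exact absurd ((hne u1 u2 l1 r1 l2 r2 (dvd_cast hX (by ring))).2 tu2) tu1
  · left
    have g1 := key0 u1 u2 l1 r1 l2 r2 (dvd_cast hX (by ring))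
    exact ⟨by omega, key0 v1 v2 m1 n1 m2 n2 hY⟩

/-- the partner of a small height has height one -/
lemma part_h (h : Fr b w q a1 a2) (h' : Fr3 w q a1 a2 qq e) {v v3 α : ℤ} (l : 0 ≤ v)
    (r : v < w - qq) (l3 : 0 ≤ v3) (r3 : v3 < w) (hα : α = 0 ∨ α = 1)
    (hd : qq ∣ v3 + v + 2 * (α * q) - (2 * a1 - 2)) : hb a1 a2 v3 := by
  obtain ⟨hb0, ha, hw, hq, ha2⟩ := h
  obtain ⟨he, h1, h2, t1, t2, t3⟩ := h'
  have hd' : qq ∣ v3 + v + 2 * (α * (q - 3 * qq)) - (2 * a1 - 2) := by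
    have e1 : v3 + v + 2 * (α * (q - 3 * qq)) - (2 * a1 - 2) =
      (v3 + v + 2 * (α * q) - (2 * a1 - 2)) - (6 * α) * qq := by ring
    rw [e1]; exact dvd_sub hd (dvd_mul_left _ _)
  rcases hα with rfl | rfl
  · simp only [zero_mul, mul_zero, add_zero] at hd'
    have c := small_mult (by omega) hd' (by omega) (by omega)
    unfold hb
    omega
  · simp only [one_mul] at hd'
    have c := small_mult (by omega) hd' (by omega) (by omega)
    unfold hb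
    omega

lemma ZV (h : Fr b w q a1 a2) (h' : Fr3 w q a1 a2 qq e) {X Y Y' : ℤ} (hZ : ZZ w q a1 a2 X Y)
    (hZ1 : ZZ w q a1 a2 X (Y + qq)) (hZ2 : ZZ w q a1 a2 X Y')
    (hd : qq ∣ Y' + Y - (2 * a1 - 2)) : False := by
  obtain ⟨u1, v1, l1, r1, m1, n1, hx1, hy1⟩ := hZ.dec
  obtain ⟨u2, v2, l2, r2, m2, n2, hx2, hy2⟩ := hZ1.dec
  obtain ⟨u3, v3, l3, r3, m3, n3, hx3, hy3⟩ := hZ2.dec
  obtain ⟨hb0, ha, hw, hq, ha2⟩ := id h
  obtain ⟨he, h1, h2, t1, t2, t3⟩ := id h'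
  have hu : u2 = u1 := by omega
  subst hu
  have hv : v2 = v1 + qq := by
    rcases hy1 with ⟨a, b⟩ | ⟨a, b⟩
    · rcases hy2 with ⟨c, d⟩ | ⟨c, d⟩
      · linarith
      · exact absurd a c
    · rcases hy2 with ⟨c, d⟩ | ⟨c, d⟩
      · exact absurd c a
      · linarith
  have hnv : ¬ hb a1 a2 v1 := by unfold hb; omega
  have hX : X = u2 + q := by
    rcases hx1 with ⟨a, b⟩ | ⟨a, b⟩
    · exact absurd a hnv
    · exact b
  have hn3 : ¬ hb a1 a2 v3 ∧ X = u3 + q := by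
    rcases hx3 with ⟨a, b⟩ | ⟨a, b⟩
    · omega
    · exact ⟨a, b⟩
  have hu3 : u3 = u2 := by omega
  subst hu3
  apply hn3.1
  rcases hy1 with ⟨a, b⟩ | ⟨a, b⟩
  · rcases hy3 with ⟨c, d⟩ | ⟨c, d⟩
    · exact part_h h h' m1 (by omega) m3 n3 (Or.inr rfl : (1 : ℤ) = 0 ∨ (1 : ℤ) = 1)
        (dvd_cast hd (by rw [b, d]; ring))
    · exact absurd a c
  · rcases hy3 with ⟨c, d⟩ | ⟨c, d⟩
    · exact absurd c a
    · exact part_h h h' m1 (by omega) m3 n3 (Or.inl rfl : (0 : ℤ) = 0 ∨ (0 : ℤ) = 1)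
        (dvd_cast hd (by rw [b, d]; ring))

lemma ZH (h : Fr b w q a1 a2) (h' : Fr3 w q a1 a2 qq e) {X Y X' : ℤ} (hZ : ZZ w q a1 a2 X Y)
    (hZ1 : ZZ w q a1 a2 (X + qq) Y) (hZ2 : ZZ w q a1 a2 X' Y)
    (hd : qq ∣ X' + X - (2 * a1 - 2)) : False := by
  obtain ⟨u1, v1, l1, r1, m1, n1, hx1, hy1⟩ := hZ.dec
  obtain ⟨u2, v2, l2, r2, m2, n2, hx2, hy2⟩ := hZ1.dec
  obtain ⟨u3, v3, l3, r3, m3, n3, hx3, hy3⟩ := hZ2.dec
  obtain ⟨hb0, ha, hw, hq, ha2⟩ := id h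
  obtain ⟨he, h1, h2, t1, t2, t3⟩ := id h'
  have hv : v2 = v1 := by omega
  subst hv
  have hu : u2 = u1 + qq := by
    rcases hx1 with ⟨a, b⟩ | ⟨a, b⟩
    · rcases hx2 with ⟨c, d⟩ | ⟨c, d⟩
      · linarith
      · exact absurd a c
    · rcases hx2 with ⟨c, d⟩ | ⟨c, d⟩
      · exact absurd c a
      · linarith
  have hnu : ¬ hb a1 a2 u1 := by unfold hb; omega
  have hY : Y = v2 := by
    rcases hy1 with ⟨a, b⟩ | ⟨a, b⟩
    · exact absurd a hnu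
    · exact b
  have hn3 : ¬ hb a1 a2 u3 ∧ Y = v3 := by
    rcases hy3 with ⟨a, b⟩ | ⟨a, b⟩
    · omega
    · exact ⟨a, b⟩
  have hv3 : v3 = v2 := by omega
  subst hv3
  apply hn3.1
  rcases hx1 with ⟨a, b⟩ | ⟨a, b⟩
  · rcases hx3 with ⟨c, d⟩ | ⟨c, d⟩
    · exact part_h h h' l1 (by omega) l3 r3 (Or.inl rfl : (0 : ℤ) = 0 ∨ (0 : ℤ) = 1)
        (dvd_cast hd (by rw [b, d]; ring))
    · exact absurd a c
  · rcases hx3 with ⟨c, d⟩ | ⟨c, d⟩
    · exact absurd c a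
    · exact part_h h h' l1 (by omega) l3 r3 (Or.inr rfl : (1 : ℤ) = 0 ∨ (1 : ℤ) = 1)
        (dvd_cast hd (by rw [b, d]; ring))

/-- **third region** -/
theorem regIII (h : Fr b w q a1 a2) (h' : Fr3 w q a1 a2 qq e) (m : ℕ) (hm : m.Prime) (hm2 : m ≠ 2)
    (hmq : (m : ℤ) = qq) (k : ZMod m) (hk : k ≠ 0) :
    IsArc {P | InZ3 w q a1 a2 P.1 P.2 ∧
      (((P.1 - P.2) * (P.1 + P.2 - (4 * q + 2 * a1 - 2)) : ℤ) : ZMod m) = k} := by
  obtain ⟨hb0, ha, hw, hq, ha2⟩ := id h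
  obtain ⟨he, h1, h2, t1, t2, t3⟩ := id h'
  apply isArc_of_ord_pairs hm hm2 (4 * q + 2 * a1 - 2) (fun P => InZ3 w q a1 a2 P.1 P.2) _ k hk
  intro P Q R hP hQ hR hn1 hn2 hd hPQ hPR hQR hc hcg hord
  have hq0 : 0 < qq := by omega
  have cl : ∀ A B : ℤ × ℤ, InZ3 w q a1 a2 A.1 A.2 → InZ3 w q a1 a2 B.1 B.2 → Cong m A B →
      ((B.1 - A.1 = -qq ∨ B.1 - A.1 = 0 ∨ B.1 - A.1 = qq) ∧
        (B.2 - A.2 = -qq ∨ B.2 - A.2 = 0 ∨ B.2 - A.2 = qq)) ∨
      ((B.1 - A.1 = -(3 * qq) ∨ B.1 - A.1 = 3 * qq) ∧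
        (B.2 - A.2 = -(3 * qq) ∨ B.2 - A.2 = 3 * qq)) := by
    intro A B hA hB hAB
    obtain ⟨g1, g2⟩ := hAB.symm
    rw [hmq] at g1 g2
    have := ZP h h' hA hB (dvd_cast g1 (by ring)) (dvd_cast g2 (by ring))
    have e1 : B.1 - 2 * q - (A.1 - 2 * q) = B.1 - A.1 := by ring
    have e2 : B.2 - 2 * q - (A.2 - 2 * q) = B.2 - A.2 := by ring
    rw [e1, e2] at this
    exact this
  have cPQ := cl P Q hP hQ hcg
  -- diagonal lines
  have tri : R.1 - P.1 = R.2 - P.2 ∨ R.1 - P.1 = -(R.2 - P.2) → Cong m P R →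
      (Q.1 - P.1 = Q.2 - P.2 ∨ Q.1 - P.1 = -(Q.2 - P.2)) →
      (R.1 - Q.1 = R.2 - Q.2 ∨ R.1 - Q.1 = -(R.2 - Q.2)) → False := by
    intro g1 g2 g3 g4
    have cPR := cl P R hP hR g2
    have hQRc : Cong m Q R := by
      refine ⟨?_, ?_⟩
      · have := dvd_sub g2.1 hcg.1
        have e1 : P.1 - R.1 - (P.1 - Q.1) = Q.1 - R.1 := by ring
        rwa [e1] at this
      · have := dvd_sub g2.2 hcg.2
        have e1 : P.2 - R.2 - (P.2 - Q.2) = Q.2 - R.2 := by ring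
        rwa [e1] at this
    have cQR := cl Q R hQ hR hQRc
    have n1 : R.1 - P.1 ≠ 0 := by
      intro h0
      exact hPR (Prod.ext (by omega) (by omega))
    have n2 : Q.1 - P.1 ≠ 0 := by
      intro h0
      exact hPQ (Prod.ext (by omega) (by omega))
    have n3 : R.1 - Q.1 ≠ 0 := by
      intro h0
      exact hQR (Prod.ext (by omega) (by omega))
    have d1 : R.1 - P.1 = -qq ∨ R.1 - P.1 = qq ∨ R.1 - P.1 = -(3 * qq) ∨ R.1 - P.1 = 3 * qq := by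
      rcases cPR with ⟨c1, _⟩ | ⟨c1, _⟩ <;> omega
    have d2 : Q.1 - P.1 = -qq ∨ Q.1 - P.1 = qq ∨ Q.1 - P.1 = -(3 * qq) ∨ Q.1 - P.1 = 3 * qq := by
      rcases cPQ with ⟨c1, _⟩ | ⟨c1, _⟩ <;> omega
    have d3 : R.1 - Q.1 = -qq ∨ R.1 - Q.1 = qq ∨ R.1 - Q.1 = -(3 * qq) ∨ R.1 - Q.1 = 3 * qq := by
      rcases cQR with ⟨c1, _⟩ | ⟨c1, _⟩ <;> omega
    omega
  have hdia : Q.1 - P.1 = Q.2 - P.2 → False := by
    intro g
    obtain ⟨f1, f2⟩ := diag_third hm hm2 g hPQ hn1 hc hd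
    exact tri (Or.inl f1) f2 (Or.inl g) (Or.inl (by linarith))
  have hant : Q.1 - P.1 = -(Q.2 - P.2) → False := by
    intro g
    obtain ⟨f1, f2⟩ := anti_third hm hm2 g hPQ hn2 hc hd
    exact tri (Or.inr f1) f2 (Or.inr g) (Or.inr (by linarith))
  rcases cPQ with ⟨c1, c2⟩ | ⟨c1, c2⟩
  · rcases c2 with c2 | c2 | c2
    · omega
    · -- horizontal
      rcases c1 with c1 | c1 | c1
      · omega
      · exact hPQ (Prod.ext (by omega) (by omega))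
      · obtain ⟨f1, f2⟩ := horiz_third hm (by omega) hPQ hc hd
        rw [hmq] at f2
        rcases f2 with f2 | f2
        · have hPRc : Cong m P R := by
            refine ⟨?_, ?_⟩
            · rw [hmq]
              exact dvd_cast (dvd_neg.2 f2) (by ring)
            · rw [f1, sub_self]; exact dvd_zero _
          have hQRc : Cong m Q R := by
            refine ⟨?_, ?_⟩
            · exact dvd_cast (dvd_sub hPRc.1 hcg.1) (by ring)
            · exact dvd_cast (dvd_sub hPRc.2 hcg.2) (by ring)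
          have cPR := cl P R hP hR hPRc
          have cQR := cl Q R hQ hR hQRc
          have n1 : R.1 - P.1 ≠ 0 := by
            intro h0
            exact hPR (Prod.ext (by omega) (by omega))
          have n3 : R.1 - Q.1 ≠ 0 := by
            intro h0
            exact hQR (Prod.ext (by omega) (by omega))
          omega
        · unfold InZ3 at hP hQ hR
          have e1 : Q.1 - 2 * q = P.1 - 2 * q + qq := by omega
          have e2 : Q.2 - 2 * q = P.2 - 2 * q := by omega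
          have e3 : R.2 - 2 * q = P.2 - 2 * q := by omega
          rw [e1, e2] at hQ
          rw [e3] at hR
          exact ZH h h' hP hQ hR (dvd_cast f2 (by ring))
    · rcases c1 with c1 | c1 | c1
      · exact hant (by omega)
      · -- vertical
        obtain ⟨f1, f2⟩ := vert_third hm (by omega) hPQ hc hd
        rw [hmq] at f2
        rcases f2 with f2 | f2
        · have hPRc : Cong m P R := by
            refine ⟨?_, ?_⟩
            · rw [f1, sub_self]; exact dvd_zero _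
            · rw [hmq]
              exact dvd_cast (dvd_neg.2 f2) (by ring)
          have hQRc : Cong m Q R := by
            refine ⟨?_, ?_⟩
            · exact dvd_cast (dvd_sub hPRc.1 hcg.1) (by ring)
            · exact dvd_cast (dvd_sub hPRc.2 hcg.2) (by ring)
          have cPR := cl P R hP hR hPRc
          have cQR := cl Q R hQ hR hQRc
          have n1 : R.2 - P.2 ≠ 0 := by
            intro h0
            exact hPR (Prod.ext (by omega) (by omega))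
          have n3 : R.2 - Q.2 ≠ 0 := by
            intro h0
            exact hQR (Prod.ext (by omega) (by omega))
          omega
        · unfold InZ3 at hP hQ hR
          have e1 : Q.2 - 2 * q = P.2 - 2 * q + qq := by omega
          have e2 : Q.1 - 2 * q = P.1 - 2 * q := by omega
          have e3 : R.1 - 2 * q = P.1 - 2 * q := by omega
          rw [e1, e2] at hQ
          rw [e3] at hR
          exact ZV h h' hP hQ hR (dvd_cast f2 (by ring))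
      · exact hdia (by omega)
  · rcases c1 with c1 | c1 <;> rcases c2 with c2 | c2
    · exact hdia (by omega)
    · exact hant (by omega)
    · exact hant (by omega)
    · exact hdia (by omega)

end Pool.Agent.ArcGrid
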